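import Pool.Agent.K4H70.SV.Zig
import Pool.Agent.Q134.SE.Chi

/-!
The Euler characteristic of the twisted cochain complex.
-/

set_option autoImplicit false
set_option linter.unusedSectionVars false

open scoped Classical

namespace Pool.Agent.K4H70.SV

open Pool.Agent.Q134.SV
open Pool.Agent.W907.SG (chiW)

variable {V : Type} [Fintype V] {G : SimpleGraph V} {M : Type} [AddCommGroup M] [Module ℝ M]
  {S : V → M →ₗ[ℝ] M}

variable (G S) in
/-- the space of the twisted cochains -/
def EE (k : ℕ) : Submodule ℝ ((Fin k → V) → M) where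
  carrier := {α | Sec G S α}
  add_mem' := by
    rintro α β ⟨h1, h2, h3⟩ ⟨h1', h2', h3'⟩
    refine ⟨h1.add' h1', fun s hs => ?_, fun s i => ?_⟩
    · by_cases h0 : α s = 0
      · refine h2' s fun h4 => hs ?_
        rw [Pi.add_apply, h0, h4, add_zero]
      · exact h2 s h0
    · rw [Pi.add_apply, map_add, h3, h3', neg_add]
  zero_mem' := ⟨fun v i j _ => by simp, fun s hs => absurd rfl hs, fun s i => by simp⟩
  smul_mem' := by
    rintro r α ⟨h1, h2, h3⟩
    refine ⟨fun v i j hij => ?_, fun s hs => h2 s fun h0 => hs ?_, fun s i => ?_⟩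
    · rw [Pi.smul_apply, Pi.smul_apply, h1 v i j hij, smul_neg]
    · rw [Pi.smul_apply, h0, smul_zero]
    · rw [Pi.smul_apply, map_smul, h3, smul_neg]

lemma mem_EE {k : ℕ} {α : (Fin k → V) → M} : α ∈ EE G S k ↔ Sec G S α := Iff.rfl

lemma Clf.sec_d (h : Clf G S) {k : ℕ} {α : (Fin k → V) → M} (hα : Sec G S α) :
    Sec G S fun s : Fin (k + 1) → V => if CT G s then tc (Pr S (-1)) α s else 0 := by
  refine ⟨fun v i j hij => ?_, fun s hs => ?_, fun s j => ?_⟩
  · by_cases h0 : CT G v
    · rw [if_pos ((ct_swap i j).2 h0), if_pos h0]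
      exact hα.alt.tc _ v i j hij
    · rw [if_neg fun h' => h0 ((ct_swap i j).1 h'), if_neg h0, neg_zero]
  · by_contra h0
    exact hs (if_neg h0)
  · split_ifs with h0
    · unfold tc
      rw [map_sum, ← Finset.sum_neg_distrib]
      refine Finset.sum_congr rfl fun i _ => ?_
      rw [map_smul, ← smul_neg]
      congr 1
      by_cases hij : j = i
      · subst hij
        rw [h.S_Pr (by norm_num), neg_smul, one_smul]
      · rw [h.S_Pr_comm (h0 j i hij)]
        obtain ⟨l, hl⟩ := Fin.exists_succAbove_eq hij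
        have := hα.neg (s ∘ i.succAbove) l
        rw [Function.comp_apply, hl] at this
        rw [this, map_neg]
    · simp

/-- the differential -/
noncomputable def Clf.dd (h : Clf G S) (k : ℕ) : EE G S k →ₗ[ℝ] EE G S (k + 1) where
  toFun α := ⟨fun s => if CT G s then tc (Pr S (-1)) (α : (Fin k → V) → M) s else 0,
    h.sec_d α.2⟩
  map_add' α β := by
    ext1
    funext s
    simp only [Submodule.coe_add, Pi.add_apply]
    split_ifs
    · exact tc_add _ (α : (Fin k → V) → M) β s
    · simp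
  map_smul' r α := by
    ext1
    funext s
    simp only [Submodule.coe_smul, Pi.smul_apply, RingHom.id_apply]
    split_ifs
    · exact tc_smul _ r (α : (Fin k → V) → M) s
    · simp

lemma Clf.dd_apply (h : Clf G S) {k : ℕ} (α : EE G S k) {s : Fin (k + 1) → V} (hs : CT G s) :
    (h.dd k α : (Fin (k + 1) → V) → M) s = tc (Pr S (-1)) (α : (Fin k → V) → M) s := if_pos hs

lemma Clf.dd_eq_zero (h : Clf G S) {k : ℕ} {α : EE G S k} (h0 : h.dd k α = 0)
    {s : Fin (k + 1) → V} (hs : CT G s) : tc (Pr S (-1)) (α : (Fin k → V) → M) s = 0 := by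
  rw [← h.dd_apply α hs, h0]
  rfl

lemma CT.sub {m : ℕ} {s : Fin (m + 1) → V} (hs : CT G s) (i : Fin (m + 1)) :
    CT G (s ∘ i.succAbove) :=
  fun a b hab => hs _ _ fun e => hab (Fin.succAbove_right_injective e)

lemma Clf.dd_dd (h : Clf G S) (k : ℕ) (α : EE G S k) : h.dd (k + 1) (h.dd k α) = 0 := by
  ext1
  funext s
  by_cases hs : CT G s
  · rw [h.dd_apply _ hs]
    have h1 : tc (Pr S (-1)) ((h.dd k α : EE G S (k + 1)) : (Fin (k + 1) → V) → M) s =
        tc (Pr S (-1)) (tc (Pr S (-1)) (α : (Fin k → V) → M)) s :=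
      tc_congr _ fun i => h.dd_apply α (hs.sub i)
    rw [h1]
    exact two_tc_zero (tc_tc _ _ _ s fun i j hij m => h.Pr_comm (hs i j hij) _ _ m)
  · exact if_neg hs

lemma EE_zero_of {k : ℕ} (hk : ∀ s : Fin k → V, ¬ CT G s) (α : EE G S k) : α = 0 := by
  ext1
  funext s
  by_contra h
  exact hk s (α.2.supp s h)

/-! ### Dimensions -/

/-- the cliques of a given size -/
abbrev Cs (G : SimpleGraph V) (k : ℕ) : Type := {T : Finset V // Cq G T ∧ T.card = k}

/-- an enumeration -/
noncomputable def en {k : ℕ} (T : Cs G k) (i : Fin k) : V :=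
  ((T.1.equivFinOfCardEq T.2.2).symm i : V)

lemma en_mem {k : ℕ} (T : Cs G k) (i : Fin k) : en T i ∈ T.1 :=
  ((T.1.equivFinOfCardEq T.2.2).symm i).2

lemma en_inj {k : ℕ} (T : Cs G k) : Function.Injective (en T) := by
  intro i j h
  exact (T.1.equivFinOfCardEq T.2.2).symm.injective (Subtype.ext h)

lemma en_surj {k : ℕ} (T : Cs G k) {v : V} (hv : v ∈ T.1) : ∃ i, en T i = v :=
  ⟨T.1.equivFinOfCardEq T.2.2 ⟨v, hv⟩, by simp [en]⟩

lemma en_ct {k : ℕ} (T : Cs G k) : CT G (en T) :=
  fun i j hij => T.2.1 _ (en_mem T i) _ (en_mem T j) fun e => hij (en_inj T e)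

lemma ct_inj {k : ℕ} {s : Fin k → V} (hs : CT G s) : Function.Injective s := by
  intro i j h
  by_contra hij
  exact (hs i j hij).ne h

lemma exists_perm {k : ℕ} {s : Fin k → V} (hs : CT G s) :
    ∃ (T : Cs G k) (π : Equiv.Perm (Fin k)), s = en T ∘ π := by
  have hcard : (Finset.univ.image s).card = k := by
    rw [Finset.card_image_of_injective _ (ct_inj hs), Finset.card_univ, Fintype.card_fin]
  let T : Cs G k := ⟨Finset.univ.image s, cq_image hs, hcard⟩
  have h1 : ∀ i, ∃ j, en T j = s i := fun i =>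
    en_surj T (Finset.mem_image_of_mem s (Finset.mem_univ i))
  choose f hf using h1
  have hfi : Function.Injective f := by
    intro i j h
    apply ct_inj hs
    rw [← hf, ← hf, h]
  refine ⟨T, Equiv.ofBijective f (Finite.injective_iff_bijective.1 hfi), ?_⟩
  funext i
  exact (hf i).symm

noncomputable instance (k : ℕ) : Fintype (Cs G k) := Fintype.ofFinite _

variable (G S) in
/-- the restriction to the enumerations -/
noncomputable def resE (k : ℕ) : EE G S k →ₗ[ℝ] (∀ T : Cs G k, NN S T.1) where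
  toFun α T := ⟨(α : (Fin k → V) → M) (en T), fun v hv => by
    obtain ⟨i, rfl⟩ := en_surj T hv
    exact α.2.neg (en T) i⟩
  map_add' _ _ := rfl
  map_smul' _ _ := rfl

lemma resE_inj (k : ℕ) : Function.Injective (resE G S k) := by
  rw [← LinearMap.ker_eq_bot, LinearMap.ker_eq_bot']
  intro α h
  ext1
  funext s
  by_cases hs : CT G s
  · obtain ⟨T, π, rfl⟩ := exists_perm hs
    rw [α.2.alt.perm π]
    have h1 : (α : (Fin k → V) → M) (en T) = 0 := congrArg Subtype.val (congrFun h T)
    rw [h1, smul_zero]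
    rfl
  · by_contra h0
    exact hs (α.2.supp s h0)

/-- the determinant of two tuples -/
noncomputable def dt {k : ℕ} (s e : Fin k → V) : ℝ :=
  Matrix.det (Matrix.of fun i j => if s i = e j then (1 : ℝ) else 0)

lemma dt_swap {k : ℕ} (s e : Fin k → V) {i j : Fin k} (hij : i ≠ j) :
    dt (s ∘ Equiv.swap i j) e = - dt s e := by
  have := Matrix.det_permute (Equiv.swap i j) (Matrix.of fun i j => if s i = e j then (1 : ℝ) else 0)
  rw [Equiv.Perm.sign_swap hij] at this
  have e : (Matrix.of fun i j => if s i = e j then (1 : ℝ) else 0).submatrix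
      (Equiv.swap i j) id = Matrix.of fun k l => if (s ∘ Equiv.swap i j) k = e l then (1 : ℝ) else 0 := by
    ext k l
    rfl
  rw [e] at this
  unfold dt
  rw [this]
  simp

lemma dt_zero {k : ℕ} {s e : Fin k → V} {i : Fin k} (h : ∀ j, s i ≠ e j) : dt s e = 0 := by
  refine Matrix.det_eq_zero_of_row_eq_zero i fun j => ?_
  simp [h j]

lemma dt_self {k : ℕ} {s : Fin k → V} (h : Function.Injective s) : dt s s = 1 := by
  unfold dt
  have : (Matrix.of fun i j => if s i = s j then (1 : ℝ) else 0) = 1 := by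
    ext i j
    rw [Matrix.of_apply, Matrix.one_apply]
    by_cases hij : i = j
    · rw [if_pos hij, hij, if_pos rfl]
    · rw [if_neg hij, if_neg fun e => hij (h e)]
  rw [this, Matrix.det_one]

lemma dt_mem {k : ℕ} {s : Fin k → V} {T : Cs G k} (h : dt s (en T) ≠ 0) (i : Fin k) : s i ∈ T.1 := by
  by_contra h0
  exact h (dt_zero fun j e => h0 (by rw [e]; exact en_mem T j))

lemma dt_inj {k : ℕ} {s e : Fin k → V} (h : dt s e ≠ 0) : Function.Injective s := by
  intro i j hij
  by_contra hne
  apply h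
  have h1 := dt_swap s e hne
  have h2 : s ∘ Equiv.swap i j = s := by
    funext k
    simp only [Function.comp_apply]
    by_cases hk : k = i
    · subst hk; rw [Equiv.swap_apply_left, hij]
    · by_cases hk' : k = j
      · subst hk'; rw [Equiv.swap_apply_right, hij]
      · rw [Equiv.swap_apply_of_ne_of_ne hk hk']
  rw [h2] at h1
  linarith

variable (G S) in
/-- the extension from the enumerations -/
noncomputable def extE (k : ℕ) : (∀ T : Cs G k, NN S T.1) →ₗ[ℝ] EE G S k where
  toFun F := ⟨fun s => ∑ T : Cs G k, dt s (en T) • (F T : M), by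
    refine ⟨fun v i j hij => ?_, fun s hs i j hij => ?_, fun s i => ?_⟩
    · rw [← Finset.sum_neg_distrib]
      exact Finset.sum_congr rfl fun T _ => by rw [dt_swap _ _ hij, neg_smul]
    · obtain ⟨T, _, hT⟩ := Finset.exists_ne_zero_of_sum_ne_zero hs
      have h1 : dt s (en T) ≠ 0 := fun h0 => hT (by rw [h0, zero_smul])
      exact T.2.1 _ (dt_mem h1 i) _ (dt_mem h1 j) fun e => hij (dt_inj h1 e)
    · rw [map_sum, ← Finset.sum_neg_distrib]
      refine Finset.sum_congr rfl fun T _ => ?_
      by_cases h0 : dt s (en T) = 0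
      · rw [h0, zero_smul, map_zero, neg_zero]
      · rw [map_smul, (F T).2 _ (dt_mem h0 i), smul_neg]⟩
  map_add' F F' := by
    ext1
    funext s
    simp only [Submodule.coe_add, Pi.add_apply, smul_add, Finset.sum_add_distrib]
  map_smul' r F := by
    ext1
    funext s
    simp only [Submodule.coe_smul, Pi.smul_apply, RingHom.id_apply, Finset.smul_sum]
    exact Finset.sum_congr rfl fun T _ => by rw [smul_comm]

lemma extE_inj (k : ℕ) : Function.Injective (extE G S k) := by
  rw [← LinearMap.ker_eq_bot, LinearMap.ker_eq_bot']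
  intro F h
  funext T
  ext1
  have h1 : ∑ T' : Cs G k, dt (en T) (en T') • (F T' : M) = 0 :=
    congrFun (congrArg Subtype.val h) (en T)
  rw [Finset.sum_eq_single T, dt_self (en_inj T), one_smul] at h1
  · exact h1
  · intro T' _ hne
    have : dt (en T) (en T') = 0 := by
      by_contra h0
      apply hne
      refine Subtype.ext (Finset.eq_of_subset_of_card_le ?_ (by rw [T.2.2, T'.2.2])).symm
      intro v hv
      obtain ⟨i, rfl⟩ := en_surj T hv
      exact dt_mem h0 i
    rw [this, zero_smul]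
  · intro h'; exact absurd (Finset.mem_univ _) h'

theorem finrank_EE [Module.Finite ℝ M] (k : ℕ) :
    Module.finrank ℝ (EE G S k) = ∑ T : Cs G k, Module.finrank ℝ (NN S T.1) := by
  have h1 := LinearMap.finrank_le_finrank_of_injective (resE_inj (G := G) (S := S) k)
  have h2 := LinearMap.finrank_le_finrank_of_injective (extE_inj (G := G) (S := S) k)
  rw [Module.finrank_pi_fintype] at h1 h2
  exact le_antisymm h1 h2

/-- exact complexes have vanishing Euler characteristic -/
theorem euler_zero [Module.Finite ℝ M] (h : Clf G S) {n : ℕ} (hd : G.CliqueFree (n + 1))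
    (h0 : ∀ α : EE G S 0, h.dd 0 α = 0 → α = 0)
    (hex : ∀ k, k + 1 ≤ n → ∀ α : EE G S (k + 1), h.dd (k + 1) α = 0 → ∃ γ, h.dd k γ = α) :
    ∑ k ∈ Finset.range (n + 1), (-1 : ℤ) ^ k * (Module.finrank ℝ (EE G S k) : ℤ) = 0 := by
  set r : ℕ → ℤ := fun k => (Module.finrank ℝ (LinearMap.range (h.dd k)) : ℤ) with hr
  have e0 : (Module.finrank ℝ (EE G S 0) : ℤ) = r 0 := by
    have h1 := LinearMap.finrank_range_add_finrank_ker (h.dd 0)
    have h2 : LinearMap.ker (h.dd 0) = ⊥ := by
      rw [LinearMap.ker_eq_bot']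
      exact h0
    rw [h2, finrank_bot, add_zero] at h1
    rw [hr]
    simp only
    rw [h1]
  have e1 : ∀ k, k + 1 ≤ n → (Module.finrank ℝ (EE G S (k + 1)) : ℤ) = r (k + 1) + r k := by
    intro k hk
    have h1 := LinearMap.finrank_range_add_finrank_ker (h.dd (k + 1))
    have h2 : LinearMap.ker (h.dd (k + 1)) = LinearMap.range (h.dd k) := by
      ext α
      rw [LinearMap.mem_ker, LinearMap.mem_range]
      constructor
      · exact hex k hk α
      · rintro ⟨γ, rfl⟩
        exact h.dd_dd k γ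
    rw [h2] at h1
    rw [hr]
    simp only
    rw [← h1]
    push_cast
    ring
  have e2 : ∀ m, m ≤ n → ∑ k ∈ Finset.range (m + 1),
      (-1 : ℤ) ^ k * (Module.finrank ℝ (EE G S k) : ℤ) = (-1 : ℤ) ^ m * r m := by
    intro m
    induction m with
    | zero =>
      intro _
      rw [Finset.sum_range_one, e0]
    | succ m ih =>
      intro hm
      rw [Finset.sum_range_succ, ih (by omega), e1 m hm]
      ring
  rw [e2 n le_rfl]
  have e3 : r n = 0 := by
    rw [hr]
    simp only
    have : LinearMap.range (h.dd n) = ⊥ := by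
      rw [eq_bot_iff]
      rintro _ ⟨α, rfl⟩
      rw [Submodule.mem_bot]
      refine EE_zero_of (fun s hs => ?_) _
      refine hd (Finset.univ.image s) ⟨?_, ?_⟩
      · intro a ha b hb hab
        exact cq_image hs a ha b hb hab
      · rw [Finset.card_image_of_injective _ (ct_inj hs), Finset.card_univ, Fintype.card_fin]
    rw [this, finrank_bot]
    rfl
  rw [e3, mul_zero]

/-- exactness in degree zero -/
lemma exact_zero (hS : Clf G S) {n : ℕ} (hn : HSphere n G) {z : (Fin n → V) → ℝ}
    (hz : LCycle G ∅ z) (hz0 : z ≠ 0) {B : (Fin (n + 1) → V ⊕ V × V) → ℝ} (hB : Alt B)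
    (hB' : ∀ v, B v ≠ 0 → GT G v) (hzB : ∀ y, ∑ x, B (Fin.cons x y) = zh z y)
    {α : (Fin 0 → V) → M} (hα : Sec G S α)
    (hc : ∀ s : Fin 1 → V, CT G s → tc (Pr S (-1)) α s = 0) : α Fin.elim0 = 0 := by
  obtain ⟨y, hy⟩ : ∃ y, z y ≠ 0 := by
    by_contra hc
    push Not at hc
    exact hz0 (funext hc)
  have h1 := hS.cap hz.alt' (fun v hv => (hz.supp v hv).1) hB hB' hzB hα hc (List.ofFn y)
  have h2 : ∑ v, bch G S B α (v :: List.ofFn y) = 0 := by
    refine Finset.sum_eq_zero fun v _ => ?_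
    unfold bch
    refine Finset.sum_eq_zero fun μ _ => ?_
    by_cases h0 : ev B ((v :: List.ofFn y).map Sum.inl ++ List.ofFn μ) = 0
    · rw [h0, zero_smul]
    · exfalso
      have := pw_card hn.dim (gl_of_ev hB' h0).left
      rw [List.length_cons, List.length_ofFn] at this
      omega
  rw [h2] at h1
  have h3 : ∀ v, S v (α Fin.elim0) = (1 : ℝ) • α Fin.elim0 := by
    intro v
    have h4 := hc (fun _ => v) fun i j hij => absurd (Subsingleton.elim i j) hij
    rw [tc_one, Pr_apply] at h4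
    have h5 := (smul_eq_zero.1 h4).resolve_left (by norm_num)
    rw [neg_smul, one_smul, ← sub_eq_add_neg, sub_eq_zero] at h5
    rw [one_smul]
    exact h5.symm
  have h6 : ∀ l : List V, PL S 1 l (α Fin.elim0) = α Fin.elim0 := by
    intro l
    induction l with
    | nil => rfl
    | cons v l ih => rw [PL_cons, ih, Pr_of (by norm_num) (h3 v)]
  have h7 : ∑ s : Fin 0 → V, ev z (List.ofFn y ++ List.ofFn s) • PL S 1 (List.ofFn y) (α s) =
      z y • α Fin.elim0 := by
    rw [Fintype.sum_eq_single (Fin.elim0 : Fin 0 → V) fun s hs =>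
      absurd (Subsingleton.elim s _) hs, h6]
    congr 1
    simp [ev_ofFn]
  rw [h7] at h1
  exact (smul_eq_zero.1 h1).resolve_left hy

lemma card_le_of_cq {n : ℕ} (hd : G.CliqueFree (n + 1)) {T : Finset V} (hT : Cq G T) :
    T.card ≤ n := by
  have := pw_card hd (hT.pairwise (List.Perm.refl _))
  rwa [Finset.length_toList] at this

/-- **Theorem**: if the fundamental cycle of a homology sphere is a boundary in the complex of labels,
then the Euler characteristic of the Coxeter group vanishes. -/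
theorem chiW_zero_of_boundary {n : ℕ} (hn : HSphere n G) {z : (Fin n → V) → ℝ}
    (hz : LCycle G ∅ z) (hz0 : z ≠ 0) {B : (Fin (n + 1) → V ⊕ V × V) → ℝ} (hB : Alt B)
    (hB' : ∀ v, B v ≠ 0 → GT G v) (hzB : ∀ y, ∑ x, B (Fin.cons x y) = zh z y) : chiW G = 0 := by
  obtain ⟨S, hS, hdim⟩ : ∃ S : V → Mo V →ₗ[ℝ] Mo V, Clf G S ∧ ∀ T : Finset V, Cq G T →
      2 ^ T.card * Module.finrank ℝ (NN S T) = 2 ^ Fintype.card V := by
    let lo : LinearOrder V := LinearOrder.lift' (Fintype.equivFin V) (Fintype.equivFin V).injective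
    exact ⟨@Sm V _ lo G, @clf_model V _ lo G, fun T hT => @finrank_NN V _ lo G T hT⟩
  have h1 := euler_zero hS hn.dim
    (fun α hα => by
      ext1
      funext s
      rw [Subsingleton.elim s Fin.elim0]
      exact exact_zero hS hn hz hz0 hB hB' hzB α.2 fun s hs => hS.dd_eq_zero hα hs)
    (fun k hk α hα => by
      obtain ⟨γ, hγ, hγ'⟩ := exact_pos hS hn hz hz0 hB hB' hzB α.2
        (fun s hs => hS.dd_eq_zero hα hs) hk
      refine ⟨⟨γ, hγ⟩, ?_⟩
      ext1
      funext s
      by_cases hs : CT G s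
      · rw [hS.dd_apply _ hs, hγ' s hs]
      · have h2 : (α : (Fin (k + 1) → V) → Mo V) s = 0 := by
          by_contra h0
          exact hs (α.2.supp s h0)
        rw [h2]
        exact if_neg hs)
  set N := Fintype.card V with hN
  have h2 : ∀ k : ℕ, (Module.finrank ℝ (EE G S k) : ℚ) =
      ∑ T : Cs G k, (2 : ℚ) ^ N / 2 ^ k := by
    intro k
    rw [finrank_EE k, Nat.cast_sum]
    refine Finset.sum_congr rfl fun T _ => ?_
    have h3 := hdim T.1 T.2.1
    rw [T.2.2] at h3
    have h4 : (2 : ℚ) ^ k * (Module.finrank ℝ (NN S T.1) : ℚ) = 2 ^ N := by exact_mod_cast h3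
    rw [← h4]
    field_simp
  have h5 : ∑ k ∈ Finset.range (n + 1), (-1 : ℚ) ^ k * ∑ T : Cs G k, (2 : ℚ) ^ N / 2 ^ k = 0 := by
    have h6 : ((∑ k ∈ Finset.range (n + 1), (-1 : ℤ) ^ k *
        (Module.finrank ℝ (EE G S k) : ℤ) : ℤ) : ℚ) = 0 := by rw [h1]; simp
    push_cast at h6
    rw [← h6]
    exact Finset.sum_congr rfl fun k _ => by rw [h2]
  have h7 : ∀ k : ℕ, (-1 : ℚ) ^ k * ∑ T : Cs G k, (2 : ℚ) ^ N / 2 ^ k =
      2 ^ N * ∑ T ∈ (Finset.univ.filter fun T : Finset V => Cq G T) with T.card = k,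
        (-1 / 2 : ℚ) ^ T.card := by
    intro k
    have h8 : ∑ T ∈ (Finset.univ.filter fun T : Finset V => Cq G T) with T.card = k,
        (-1 / 2 : ℚ) ^ T.card = ∑ T : Cs G k, (-1 / 2 : ℚ) ^ k := by
      rw [Finset.sum_subtype (p := fun T : Finset V => Cq G T ∧ T.card = k)
        (F := inferInstance)]
      · exact Finset.sum_congr rfl fun T _ => by rw [T.2.2]
      · intro T
        simp
    rw [h8, Finset.mul_sum, Finset.mul_sum]
    refine Finset.sum_congr rfl fun T _ => ?_
    rw [div_pow]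
    ring
  rw [Finset.sum_congr rfl fun k _ => h7 k, ← Finset.mul_sum,
    Finset.sum_fiberwise_of_maps_to (fun T hT => by
      rw [Finset.mem_range]
      have := card_le_of_cq hn.dim (Finset.mem_filter.1 hT).2
      omega)] at h5
  have h9 := (mul_eq_zero.1 h5).resolve_left (by positivity)
  rw [Pool.Agent.Q134.SE.chiW_eq, ← h9, Finset.sum_filter]
  refine Finset.sum_congr rfl fun T _ => ?_
  unfold Pool.Agent.Q134.SE.tm
  have h10 : G.IsClique (T : Set V) ↔ Cq G T :=
    ⟨fun h a ha b hb hab => h ha hb hab, fun h a ha b hb hab => h a ha b hb hab⟩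
  simp only [h10]

/-- **Main theorem**: for a homology sphere with nonvanishing Euler characteristic the fundamental
cycle pairs nontrivially with a bounded cocycle. -/
theorem main_good {n : ℕ} (hn : HSphere (n + 1) G) (hχ : chiW G ≠ 0)
    {z : (Fin (n + 1) → V) → ℝ} (hz : LCycle G ∅ z) (hz0 : z ≠ 0) :
    ∃ c, Good G (n + 1) c ∧ pair (gen G) z c ≠ 0 := by
  have hcyc : IsCyc (n + 1) G z := ⟨hz.alt, fun v hv => (hz.supp v hv).1, hz.cyc⟩
  by_contra hcon
  apply hχ
  have h1 : ∀ a : (Fin (n + 1) → V ⊕ V × V) → ℝ, Alt a → (∀ v, GT G v → cobd a v = 0) →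
      ∑ v, zh z v * a v = 0 := by
    intro a ha hc
    have h2 := sum_zh z a
    simp only [smul_eq_mul] at h2
    rw [h2]
    by_contra h3
    exact hcon (exists_good_of_labels hcyc ha hc h3)
  obtain ⟨B, hB, hB', hzB⟩ := dual2 (A := GT G) (fun v i j h => (GT.swap i j).2 h)
    (zh_alt hz.alt') h1
  exact chiW_zero_of_boundary hn hz hz0 hB hB' hzB

/-- Gromov's question for the homology spheres -/
theorem main_theorem {n : ℕ} (hn : HSphere (n + 1) G) (H : Subgroup (Pool.Agent.W907.SG.W G))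
    (hH : H.index ≠ 0) (hε : H ≤ (par G).ker) (hz : ZeroSV (n + 1) H) : chiW G = 0 := by
  by_contra hχ
  obtain ⟨z, hz1, hz0, _⟩ := hn.top ∅ (by simp) (n + 1) (by simp)
  obtain ⟨c, hc, hp⟩ := main_good hn hχ hz1 hz0
  exact not_zeroSV ⟨hz1.alt, fun v hv => (hz1.supp v hv).1, hz1.cyc⟩ hc hp H hH hε hz

end Pool.Agent.K4H70.SV
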