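import Pool.Agent.K4H70.SV.Alt2

/-!
Duality between alternating chains and cochains.
-/

set_option autoImplicit false
set_option linter.unusedSectionVars false

open scoped Classical

namespace Pool.Agent.K4H70.SV

open Pool.Agent.Q134.SV

variable {X : Type}

/-- antisymmetrisation -/
noncomputable def asy {n : ℕ} (g : (Fin n → X) → ℝ) (v : Fin n → X) : ℝ :=
  ∑ π : Equiv.Perm (Fin n), ((Equiv.Perm.sign π : ℤ) : ℝ) * g (v ∘ π)

lemma asy_alt {n : ℕ} (g : (Fin n → X) → ℝ) : Alt (asy g) := by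
  intro v i j hij
  unfold asy
  rw [← Equiv.sum_comp (Equiv.mulLeft (Equiv.swap i j)), ← Finset.sum_neg_distrib]
  refine Finset.sum_congr rfl fun π _ => ?_
  have e : (v ∘ Equiv.swap i j) ∘ ⇑((Equiv.mulLeft (Equiv.swap i j)) π) = v ∘ π := by
    funext k
    simp
  rw [e]
  simp [Equiv.Perm.sign_swap hij]

lemma sum_comp_perm [Fintype X] {n : ℕ} (F : (Fin n → X) → ℝ) (π : Equiv.Perm (Fin n)) :
    ∑ v : Fin n → X, F (v ∘ π) = ∑ v : Fin n → X, F v := by
  have h := Equiv.sum_comp (Equiv.arrowCongr π.symm (Equiv.refl X)) F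
  rw [← h]
  refine Finset.sum_congr rfl fun v _ => ?_
  congr 1

lemma sum_asy [Fintype X] {n : ℕ} (g : (Fin n → X) → ℝ) {a : (Fin n → X) → ℝ} (ha : Alt a) :
    ∑ v : Fin n → X, asy g v * a v = (n.factorial : ℝ) * ∑ v : Fin n → X, g v * a v := by
  unfold asy
  simp only [Finset.sum_mul]
  rw [Finset.sum_comm]
  have h1 : ∀ π : Equiv.Perm (Fin n), ∑ v : Fin n → X,
      ((Equiv.Perm.sign π : ℤ) : ℝ) * g (v ∘ π) * a v = ∑ v : Fin n → X, g v * a v := by
    intro π
    rw [← sum_comp_perm (fun v => g v * a v) π]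
    refine Finset.sum_congr rfl fun v _ => ?_
    rw [ha.perm π v, smul_eq_mul]
    ring
  rw [Finset.sum_congr rfl fun π _ => h1 π, Finset.sum_const, nsmul_eq_mul, Finset.card_univ,
    Fintype.card_perm, Fintype.card_fin]

lemma perm_of_swap {n : ℕ} {A : (Fin n → X) → Prop}
    (hA : ∀ v i j, A v → A (v ∘ Equiv.swap i j)) (π : Equiv.Perm (Fin n)) (v : Fin n → X)
    (h : A v) : A (v ∘ π) := by
  induction π using Equiv.Perm.swap_induction_on generalizing v with
  | one => exact h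
  | swap_mul σ x y hxy ih =>
    have : v ∘ ⇑(Equiv.swap x y * σ) = (v ∘ Equiv.swap x y) ∘ σ := rfl
    rw [this]
    exact ih _ (hA _ _ _ h)

lemma asy_supp {n : ℕ} {A : (Fin n → X) → Prop} (hA : ∀ v i j, A v → A (v ∘ Equiv.swap i j))
    {g : (Fin n → X) → ℝ} (hg : ∀ v, g v ≠ 0 → A v) {v : Fin n → X} (hv : asy g v ≠ 0) : A v := by
  obtain ⟨π, _, hπ⟩ := Finset.exists_ne_zero_of_sum_ne_zero hv
  have h1 := perm_of_swap hA π⁻¹ _ (hg _ (right_ne_zero_of_mul hπ))
  have e : (v ∘ ⇑π) ∘ ⇑π⁻¹ = v := by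
    funext k
    simp
  rwa [e] at h1

/-- a linear form which vanishes on the kernel factors -/
lemma factor {U W : Type} [AddCommGroup U] [Module ℝ U] [AddCommGroup W] [Module ℝ W]
    (A : U →ₗ[ℝ] W) (φ : U →ₗ[ℝ] ℝ) (h : ∀ u, A u = 0 → φ u = 0) :
    ∃ ψ : W →ₗ[ℝ] ℝ, ∀ u, ψ (A u) = φ u := by
  have h1 : φ ∈ (LinearMap.ker A).dualAnnihilator := by
    rw [Submodule.mem_dualAnnihilator]
    intro u hu
    exact h u hu
  rw [← LinearMap.range_dualMap_eq_dualAnnihilator_ker] at h1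
  obtain ⟨ψ, hψ⟩ := h1
  exact ⟨ψ, fun u => by rw [← hψ]; rfl⟩

lemma form_eq_sum {Y : Type} [Fintype Y] (ψ : (Y → ℝ) →ₗ[ℝ] ℝ) :
    ∃ g : Y → ℝ, ∀ c, ψ c = ∑ y, g y * c y := by
  refine ⟨fun y => ψ (Pi.single y 1), fun c => ?_⟩
  rw [LinearMap.pi_apply_eq_sum_univ ψ c]
  refine Finset.sum_congr rfl fun y _ => ?_
  rw [smul_eq_mul, mul_comm]
  congr 2
  funext y'
  simp [Pi.single_apply, eq_comm]

lemma Alt.add {n : ℕ} {a b : (Fin n → X) → ℝ} (ha : Alt a) (hb : Alt b) :
    Alt fun v => a v + b v := by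
  intro v i j hij
  simp only
  rw [ha v i j hij, hb v i j hij]
  ring

lemma Alt.sub {n : ℕ} {a b : (Fin n → X) → ℝ} (ha : Alt a) (hb : Alt b) :
    Alt fun v => a v - b v := by
  intro v i j hij
  simp only
  rw [ha v i j hij, hb v i j hij]
  ring

lemma Alt.mul_left {n : ℕ} {a : (Fin n → X) → ℝ} (ha : Alt a) (r : ℝ) :
    Alt fun v => r * a v := by
  intro v i j hij
  simp only
  rw [ha v i j hij]
  ring

lemma Alt.sum_cons [Fintype X] {n : ℕ} {a : (Fin (n + 1) → X) → ℝ} (ha : Alt a) :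
    Alt fun y => ∑ x, a (Fin.cons x y) := by
  intro v i j hij
  simp only
  rw [← Finset.sum_neg_distrib]
  exact Finset.sum_congr rfl fun x _ => ha.cons x v i j hij

lemma Alt.ite {n : ℕ} {A : (Fin n → X) → Prop} (hA : ∀ v i j, A v → A (v ∘ Equiv.swap i j))
    {a : (Fin n → X) → ℝ} (ha : Alt a) : Alt fun v => if A v then a v else 0 := by
  intro v i j hij
  simp only
  have h1 : A (v ∘ Equiv.swap i j) ↔ A v := by
    refine ⟨fun h => ?_, hA v i j⟩
    have := hA _ i j h
    have e : (v ∘ Equiv.swap i j) ∘ Equiv.swap i j = v := by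
      funext k
      simp
    rwa [e] at this
  by_cases h : A v
  · rw [if_pos (h1.2 h), if_pos h, ha v i j hij]
  · rw [if_neg fun h' => h (h1.1 h'), if_neg h, neg_zero]

lemma sum_cobd [Fintype X] {n : ℕ} {K : (Fin (n + 1) → X) → ℝ} (hK : Alt K)
    (F : (Fin n → X) → ℝ) : ∑ v : Fin (n + 1) → X, K v * cobd F v =
      ((n : ℝ) + 1) * ∑ y : Fin n → X, (∑ x : X, K (Fin.cons x y)) * F y := by
  have := sum_alt (fun _ => LinearMap.id) hK F
  simp only [smul_eq_mul, LinearMap.id_coe, id_eq] at this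
  simp only [cobd_eq_tc]
  rw [this, Finset.sum_comm]
  simp only [Finset.sum_mul]

/-- A cochain which vanishes on the cycles is a coboundary. -/
theorem dual1 [Fintype X] {n : ℕ} {A : (Fin (n + 1) → X) → Prop}
    (hA : ∀ v i j, A v → A (v ∘ Equiv.swap i j)) {f : (Fin (n + 1) → X) → ℝ} (hf : Alt f)
    (h : ∀ a : (Fin (n + 1) → X) → ℝ, Alt a → (∀ v, a v ≠ 0 → A v) →
      (∀ y, ∑ x, a (Fin.cons x y) = 0) → ∑ v, f v * a v = 0) :
    ∃ g : (Fin n → X) → ℝ, Alt g ∧ ∀ v, A v → f v = cobd g v := by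
  let U : Submodule ℝ ((Fin (n + 1) → X) → ℝ) :=
    { carrier := {a | Alt a ∧ ∀ v, a v ≠ 0 → A v}
      add_mem' := by
        rintro a b ⟨ha, ha'⟩ ⟨hb, hb'⟩
        refine ⟨ha.add hb, fun v hv => ?_⟩
        by_cases h1 : a v = 0
        · refine hb' v fun h2 => hv ?_
          rw [Pi.add_apply, h1, h2, add_zero]
        · exact ha' v h1
      zero_mem' := ⟨fun v i j _ => by simp, fun v hv => absurd rfl hv⟩
      smul_mem' := by
        rintro r a ⟨ha, ha'⟩
        refine ⟨ha.mul_left r, fun v hv => ha' v fun h2 => hv ?_⟩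
        rw [Pi.smul_apply, h2, smul_zero] }
  let B : U →ₗ[ℝ] ((Fin n → X) → ℝ) :=
    { toFun := fun a y => ∑ x, (a : (Fin (n + 1) → X) → ℝ) (Fin.cons x y)
      map_add' := fun a b => by
        funext y
        simp [Finset.sum_add_distrib]
      map_smul' := fun r a => by
        funext y
        simp [Finset.mul_sum] }
  let φ : U →ₗ[ℝ] ℝ :=
    { toFun := fun a => ∑ v, f v * (a : (Fin (n + 1) → X) → ℝ) v
      map_add' := fun a b => by simp [mul_add, Finset.sum_add_distrib]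
      map_smul' := fun r a => by
        simp only [Submodule.coe_smul, Pi.smul_apply, smul_eq_mul, RingHom.id_apply,
          Finset.mul_sum]
        exact Finset.sum_congr rfl fun _ _ => by ring }
  obtain ⟨ψ, hψ⟩ := factor B φ fun u hu => h u u.2.1 u.2.2 fun y => congrFun hu y
  obtain ⟨g₀, hg₀⟩ := form_eq_sum ψ
  set c : ℝ := (n.factorial : ℝ)⁻¹ * ((n : ℝ) + 1)⁻¹ with hc
  have hn1 : ((n : ℝ) + 1) ≠ 0 := by positivity
  have hn2 : (n.factorial : ℝ) ≠ 0 := by positivity
  refine ⟨fun v => c * asy g₀ v, (asy_alt g₀).mul_left c, ?_⟩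
  have key : ∀ a : (Fin (n + 1) → X) → ℝ, Alt a → (∀ v, a v ≠ 0 → A v) →
      ∑ v, a v * (f v - cobd (fun v => c * asy g₀ v) v) = 0 := by
    intro a ha ha'
    have h1 : ∑ v, f v * a v = ∑ y, g₀ y * ∑ x, a (Fin.cons x y) := by
      have h2 := hψ ⟨a, ha, ha'⟩
      rw [hg₀] at h2
      exact h2.symm
    have h3 := sum_cobd ha (fun v => c * asy g₀ v)
    have h4 : ∑ y : Fin n → X, (∑ x : X, a (Fin.cons x y)) * (c * asy g₀ y) =
        c * ((n.factorial : ℝ) * ∑ y, g₀ y * ∑ x, a (Fin.cons x y)) := by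
      rw [← sum_asy g₀ ha.sum_cons, Finset.mul_sum]
      exact Finset.sum_congr rfl fun y _ => by ring
    rw [h4, ← h1] at h3
    simp only [mul_sub, Finset.sum_sub_distrib]
    rw [h3, sub_eq_zero, hc]
    field_simp
    exact Finset.sum_congr rfl fun v _ => by ring
  intro v hv
  have h5 := key (fun v => if A v then f v - cobd (fun v => c * asy g₀ v) v else 0)
    (Alt.ite hA (hf.sub ((asy_alt g₀).mul_left c).cobd)) (fun v hv => by
      by_contra h6
      exact hv (if_neg h6))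
  have h6 : ∀ v, (if A v then f v - cobd (fun v => c * asy g₀ v) v else 0) *
      (f v - cobd (fun v => c * asy g₀ v) v) =
      (if A v then f v - cobd (fun v => c * asy g₀ v) v else 0) ^ 2 := by
    intro v
    split_ifs
    · ring
    · ring
  rw [Finset.sum_congr rfl fun v _ => h6 v] at h5
  have h7 := (Finset.sum_eq_zero_iff_of_nonneg fun v _ => sq_nonneg _).1 h5 v (Finset.mem_univ v)
  rw [if_pos hv] at h7
  exact sub_eq_zero.1 (pow_eq_zero_iff (by norm_num) |>.1 h7)

/-- A chain on which the cocycles vanish is a boundary. -/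
theorem dual2 [Fintype X] {n : ℕ} {A : (Fin (n + 1) → X) → Prop}
    (hA : ∀ v i j, A v → A (v ∘ Equiv.swap i j)) {z : (Fin n → X) → ℝ} (hz : Alt z)
    (h : ∀ a : (Fin n → X) → ℝ, Alt a → (∀ v, A v → cobd a v = 0) → ∑ v, z v * a v = 0) :
    ∃ B : (Fin (n + 1) → X) → ℝ, Alt B ∧ (∀ v, B v ≠ 0 → A v) ∧
      ∀ y, ∑ x, B (Fin.cons x y) = z y := by
  let U : Submodule ℝ ((Fin n → X) → ℝ) :=
    { carrier := {a | Alt a}
      add_mem' := fun {a b} ha hb => Alt.add ha hb
      zero_mem' := fun v i j _ => by simp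
      smul_mem' := fun r a ha => Alt.mul_left ha r }
  let B : U →ₗ[ℝ] ((Fin (n + 1) → X) → ℝ) :=
    { toFun := fun a v => if A v then cobd (a : (Fin n → X) → ℝ) v else 0
      map_add' := fun a b => by
        funext v
        simp only [Pi.add_apply]
        split_ifs
        · exact tc_add (fun _ => LinearMap.id) (a : (Fin n → X) → ℝ) b v
        · simp
      map_smul' := fun r a => by
        funext v
        simp only [Pi.smul_apply, RingHom.id_apply]
        split_ifs
        · exact tc_smul (fun _ => LinearMap.id) r (a : (Fin n → X) → ℝ) v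
        · simp }
  let φ : U →ₗ[ℝ] ℝ :=
    { toFun := fun a => ∑ v, z v * (a : (Fin n → X) → ℝ) v
      map_add' := fun a b => by simp [mul_add, Finset.sum_add_distrib]
      map_smul' := fun r a => by
        simp only [Submodule.coe_smul, Pi.smul_apply, smul_eq_mul, RingHom.id_apply,
          Finset.mul_sum]
        exact Finset.sum_congr rfl fun _ _ => by ring }
  obtain ⟨ψ, hψ⟩ := factor B φ fun u hu => h u u.2 fun v hv => by
    have := congrFun hu v
    change (if A v then cobd (u : (Fin n → X) → ℝ) v else 0) = 0 at this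
    rwa [if_pos hv] at this
  obtain ⟨g₀, hg₀⟩ := form_eq_sum ψ
  set g₁ : (Fin (n + 1) → X) → ℝ := fun v => if A v then g₀ v else 0 with hg₁
  set c : ℝ := ((n + 1).factorial : ℝ)⁻¹ * ((n : ℝ) + 1) with hc
  have hn2 : ((n + 1).factorial : ℝ) ≠ 0 := by positivity
  have halt : Alt fun v => c * asy g₁ v := (asy_alt g₁).mul_left c
  have key : ∀ a : (Fin n → X) → ℝ, Alt a →
      ∑ y, ((∑ x, c * asy g₁ (Fin.cons x y)) - z y) * a y = 0 := by
    intro a ha
    have h2 := hψ ⟨a, ha⟩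
    rw [hg₀] at h2
    change ∑ v, g₀ v * (if A v then cobd a v else 0) = ∑ v, z v * a v at h2
    have h3 : ∑ v, g₀ v * (if A v then cobd a v else 0) = ∑ v, g₁ v * cobd a v := by
      refine Finset.sum_congr rfl fun v _ => ?_
      rw [hg₁]
      simp only
      split_ifs <;> ring
    have h4 := sum_asy g₁ ha.cobd
    have h5 := sum_cobd (asy_alt g₁) a
    rw [h4, ← h3, h2] at h5
    simp only [sub_mul, Finset.sum_sub_distrib, sub_eq_zero]
    have h6 : ∑ y : Fin n → X, (∑ x, c * asy g₁ (Fin.cons x y)) * a y =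
        c * ∑ y : Fin n → X, (∑ x, asy g₁ (Fin.cons x y)) * a y := by
      rw [Finset.mul_sum]
      refine Finset.sum_congr rfl fun y _ => ?_
      rw [← Finset.mul_sum]
      ring
    rw [h6, hc, mul_assoc, ← h5, ← mul_assoc, inv_mul_cancel₀ hn2, one_mul]
  refine ⟨fun v => c * asy g₁ v, halt, fun v hv => ?_, fun y => ?_⟩
  · refine asy_supp hA (g := g₁) (fun v hv => ?_) (right_ne_zero_of_mul hv)
    by_contra h1
    exact hv (if_neg h1)
  · have h1 := key _ (halt.sum_cons.sub hz)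
    have h2 := (Finset.sum_eq_zero_iff_of_nonneg fun v _ => mul_self_nonneg _).1 h1 y
      (Finset.mem_univ y)
    have h3 := mul_self_eq_zero.1 h2
    linarith

end Pool.Agent.K4H70.SV
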