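import Pool.Agent.K4H70.SV.Ext
import Pool.Agent.K4H70.SV.Dual

/-!
The cap product with a boundary.
-/

set_option autoImplicit false
set_option linter.unusedSectionVars false

open scoped Classical

namespace Pool.Agent.K4H70.SV

open Pool.Agent.Q134.SV

variable {V : Type} [Fintype V] {M : Type} [AddCommGroup M] [Module ℝ M]
  {G : SimpleGraph V} {S : V → M →ₗ[ℝ] M}

/-- the first vertex -/
def lf : V ⊕ V × V → V
  | Sum.inl v => v
  | Sum.inr p => p.1

/-- the chain of labels of a chain of vertices -/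
noncomputable def zh {n : ℕ} (z : (Fin n → V) → ℝ) (μ : Fin n → V ⊕ V × V) : ℝ :=
  if ∀ i, (μ i).isLeft then z (lf ∘ μ) else 0

lemma zh_inl {n : ℕ} (z : (Fin n → V) → ℝ) (s : Fin n → V) : zh z (Sum.inl ∘ s) = z s := by
  unfold zh
  rw [if_pos (by simp)]
  rfl

lemma zh_cons {n : ℕ} (z : (Fin (n + 1) → V) → ℝ) (v : V) (y : Fin n → V ⊕ V × V) :
    zh z (Fin.cons (Sum.inl v) y) = zh (fun s => z (Fin.cons v s)) y := by
  unfold zh
  have h1 : (∀ i, ((Fin.cons (Sum.inl v) y : Fin (n + 1) → V ⊕ V × V) i).isLeft) ↔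
      ∀ i, (y i).isLeft := by
    constructor
    · intro h i
      simpa using h i.succ
    · intro h i
      refine Fin.cases ?_ (fun i => ?_) i
      · rfl
      · simpa using h i
  have h2 : lf ∘ (Fin.cons (Sum.inl v) y : Fin (n + 1) → V ⊕ V × V) = Fin.cons v (lf ∘ y) := by
    funext i
    refine Fin.cases ?_ (fun i => ?_) i
    · rfl
    · simp
  by_cases h : ∀ i, (y i).isLeft
  · rw [if_pos (h1.2 h), if_pos h, h2]
  · rw [if_neg fun h' => h (h1.1 h'), if_neg h]

lemma zh_alt {n : ℕ} {z : (Fin n → V) → ℝ} (hz : Alt z) : Alt (zh z) := by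
  intro v i j hij
  unfold zh
  have h1 : (∀ k, ((v ∘ Equiv.swap i j) k).isLeft) ↔ ∀ k, (v k).isLeft :=
    ⟨fun h k => by simpa using h (Equiv.swap i j k), fun h k => h _⟩
  by_cases h : ∀ k, (v k).isLeft
  · rw [if_pos (h1.2 h), if_pos h]
    exact hz (lf ∘ v) i j hij
  · rw [if_neg fun h' => h (h1.1 h'), if_neg h, neg_zero]

lemma sum_zh {n : ℕ} (z : (Fin n → V) → ℝ) (F : (Fin n → V ⊕ V × V) → M) :
    ∑ μ, zh z μ • F μ = ∑ s : Fin n → V, z s • F (Sum.inl ∘ s) := by
  have hinj : Function.Injective fun s : Fin n → V => (Sum.inl ∘ s : Fin n → V ⊕ V × V) := by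
    intro s s' h
    funext i
    exact Sum.inl_injective (congrFun h i)
  rw [← Finset.sum_subset (Finset.subset_univ
    (Finset.univ.image fun s : Fin n → V => (Sum.inl ∘ s : Fin n → V ⊕ V × V))),
    Finset.sum_image fun s _ s' _ h => hinj h]
  · exact Finset.sum_congr rfl fun s _ => by rw [zh_inl]
  · intro μ _ hμ
    have : zh z μ = 0 := by
      unfold zh
      rw [if_neg]
      intro h
      apply hμ
      rw [Finset.mem_image]
      refine ⟨lf ∘ μ, Finset.mem_univ _, ?_⟩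
      funext i
      have := h i
      rcases hi : μ i with v | p
      · simp [hi, lf]
      · rw [hi] at this
        simp at this
    rw [this, zero_smul]

lemma sum_ev_zh {n k : ℕ} (z : (Fin n → V) → ℝ) (t : List V) (F : (Fin k → V ⊕ V × V) → M) :
    ∑ μ : Fin k → V ⊕ V × V, ev (zh z) (t.map Sum.inl ++ List.ofFn μ) • F μ =
      ∑ s : Fin k → V, ev z (t ++ List.ofFn s) • F (Sum.inl ∘ s) := by
  induction t generalizing n with
  | nil =>
    by_cases hk : k = n
    · subst hk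
      simp only [List.map_nil, List.nil_append, ev_ofFn]
      exact sum_zh z F
    · have h0 : ∀ {Y : Type} (z : (Fin n → Y) → ℝ) (s : Fin k → Y), ev z (List.ofFn s) = 0 := by
        intro Y z s
        by_contra h1
        obtain ⟨y, hy, _⟩ := ev_ne h1
        have := congrArg List.length hy
        simp at this
        exact hk this
      simp only [List.map_nil, List.nil_append, h0, zero_smul, Finset.sum_const_zero]
  | cons v t ih =>
    cases n with
    | zero => simp [ev]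
    | succ n =>
      simp only [List.map_cons, List.cons_append, ev_cons, zh_cons]
      exact ih _

/-- admissible lists of labels -/
def Gli (G : SimpleGraph V) (l : List (V ⊕ V × V)) : Prop := (∀ x ∈ l, Va G x) ∧ l.Pairwise (LA G)

lemma gl_ofFn {m : ℕ} {y : Fin m → V ⊕ V × V} : Gli G (List.ofFn y) ↔ GT G y := by
  unfold Gli GT
  rw [List.pairwise_ofFn]
  constructor
  · rintro ⟨h1, h2⟩
    refine ⟨fun i => h1 _ (List.mem_ofFn.2 ⟨i, rfl⟩), fun i j hij => ?_⟩
    rcases lt_or_gt_of_ne hij with h | h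
    · exact h2 h
    · exact la_symm (h2 h)
  · rintro ⟨h1, h2⟩
    refine ⟨fun x hx => ?_, fun i j hij => h2 _ _ hij.ne⟩
    obtain ⟨i, rfl⟩ := List.mem_ofFn.1 hx
    exact h1 i

lemma gl_of_ev {m : ℕ} {B : (Fin m → V ⊕ V × V) → ℝ} (hB : ∀ v, B v ≠ 0 → GT G v)
    {l : List (V ⊕ V × V)} (h : ev B l ≠ 0) : Gli G l := by
  obtain ⟨y, rfl, hy⟩ := ev_ne h
  exact gl_ofFn.2 (hB y hy)

lemma pw_of_ev {m : ℕ} {z : (Fin m → V) → ℝ} (hz : ∀ v, z v ≠ 0 → ∀ i j, i ≠ j → G.Adj (v i) (v j))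
    {l : List V} (h : ev z l ≠ 0) : l.Pairwise G.Adj := by
  obtain ⟨y, rfl, hy⟩ := ev_ne h
  rw [List.pairwise_ofFn]
  exact fun i j hij => hz y hy _ _ hij.ne

lemma Gli.left {t : List V} {l : List (V ⊕ V × V)} (h : Gli G (t.map Sum.inl ++ l)) :
    t.Pairwise G.Adj := by
  have := (List.pairwise_append.1 h.2).1
  rw [List.pairwise_map] at this
  exact this

lemma Gli.right {l' l : List (V ⊕ V × V)} (h : Gli G (l' ++ l)) : Gli G l :=
  ⟨fun x hx => h.1 x (List.mem_append_right _ hx), (List.pairwise_append.1 h.2).2.1⟩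

lemma Clf.S_PL (h : Clf G S) {r : ℝ} (hr : r * r = 1) {l : List V} (hl : l.Pairwise G.Adj) {v : V}
    (hv : v ∈ l) (m : M) : S v (PL S r l m) = r • PL S r l m := by
  induction l with
  | nil => exact absurd hv List.not_mem_nil
  | cons w l ih =>
    rw [List.pairwise_cons] at hl
    rw [PL_cons]
    rcases List.mem_cons.1 hv with rfl | hv
    · exact h.S_Pr hr _ _
    · rw [h.S_Pr_comm (hl.1 v hv).symm, ih hl.2 hv, map_smul]

section

variable {n k : ℕ} {z : (Fin n → V) → ℝ} {B : (Fin (n + 1) → V ⊕ V × V) → ℝ}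
  {α : (Fin k → V) → M}

variable (G S) in
/-- the second chain -/
noncomputable def bch {N : ℕ} (B : (Fin N → V ⊕ V × V) → ℝ) (α : (Fin k → V) → M)
    (t : List V) : M :=
  ∑ μ : Fin k → V ⊕ V × V, ev B (t.map Sum.inl ++ List.ofFn μ) • PL S 1 t (hat G S α μ)

lemma Clf.bch_swap (h : Clf G S) {N : ℕ} {B : (Fin N → V ⊕ V × V) → ℝ} (hB : Alt B)
    (hB' : ∀ v, B v ≠ 0 → GT G v) (p : List V) (x y : V) (q : List V) :
    bch G S B α (p ++ x :: y :: q) = - bch G S B α (p ++ y :: x :: q) := by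
  unfold bch
  rw [← Finset.sum_neg_distrib]
  refine Finset.sum_congr rfl fun μ _ => ?_
  have e : ∀ a b : V, (p ++ a :: b :: q).map Sum.inl ++ List.ofFn μ =
      p.map Sum.inl ++ Sum.inl a :: Sum.inl b :: (q.map Sum.inl ++ List.ofFn μ) := by
    intro a b
    simp
  by_cases h0 : ev B ((p ++ x :: y :: q).map Sum.inl ++ List.ofFn μ) = 0
  · have h1 := h0
    rw [e, hB.ev_swap', ← e, neg_eq_zero] at h1
    rw [h0, h1, zero_smul, zero_smul, neg_zero]
  · have h1 := (gl_of_ev hB' h0).left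
    rw [h.PL_perm 1 (l' := p ++ y :: x :: q) ?_ h1, e, hB.ev_swap', ← e, neg_smul]
    exact List.Perm.append_left p (List.Perm.swap y x q)

lemma Clf.bch_pos (h : Clf G S) {N : ℕ} {B : (Fin N → V ⊕ V × V) → ℝ}
    (hB' : ∀ v, B v ≠ 0 → GT G v) {t : List V} {v : V} (hv : v ∈ t) :
    S v (bch G S B α t) = bch G S B α t := by
  unfold bch
  rw [map_sum]
  refine Finset.sum_congr rfl fun μ _ => ?_
  rw [map_smul]
  by_cases h0 : ev B (t.map Sum.inl ++ List.ofFn μ) = 0
  · rw [h0, zero_smul, zero_smul]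
  · rw [h.S_PL (by norm_num) (gl_of_ev hB' h0).left hv, one_smul]

/-- the cap product of a boundary is a boundary -/
theorem Clf.cap (h : Clf G S) (hz : Alt z)
    (hz' : ∀ v, z v ≠ 0 → ∀ i j, i ≠ j → G.Adj (v i) (v j)) (hB : Alt B)
    (hB' : ∀ v, B v ≠ 0 → GT G v) (hzB : ∀ y, ∑ x, B (Fin.cons x y) = zh z y)
    (hα : Sec G S α) (hc : ∀ s : Fin (k + 1) → V, CT G s → tc (Pr S (-1)) α s = 0) (t : List V) :
    ∑ s : Fin k → V, ev z (t ++ List.ofFn s) • PL S 1 t (α s) = ∑ v, bch G S B α (v :: t) := by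
  obtain ⟨A, hA⟩ := PL_linear (S := S) 1 t
  have h1 : ∑ s : Fin k → V, ev z (t ++ List.ofFn s) • PL S 1 t (α s) =
      ∑ μ : Fin k → V ⊕ V × V, ev (zh z) (t.map Sum.inl ++ List.ofFn μ) • A (hat G S α μ) := by
    rw [sum_ev_zh z t fun μ => A (hat G S α μ)]
    refine Finset.sum_congr rfl fun s _ => ?_
    by_cases h0 : ev z (t ++ List.ofFn s) = 0
    · rw [h0, zero_smul, zero_smul]
    · have h2 := (List.pairwise_append.1 (pw_of_ev hz' h0)).2.1
      rw [List.pairwise_ofFn] at h2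
      have h3 : GT G (Sum.inl ∘ s) := by
        refine ⟨fun _ => trivial, fun i j hij => ?_⟩
        rcases lt_or_gt_of_ne hij with h' | h'
        · exact h2 h'
        · exact (h2 h').symm
      rw [hat_gt h3, ext_inl, hA]
  set K : (Fin (k + 1) → V ⊕ V × V) → ℝ := fun μ => ev B (t.map Sum.inl ++ List.ofFn μ) with hK
  have hKalt : Alt K := hB.ev_ofFn _ _
  have hKsupp : ∀ μ, K μ ≠ 0 → GT G μ := fun μ hμ => gl_ofFn.1 (gl_of_ev hB' hμ).right
  have h2 : ∀ μ : Fin k → V ⊕ V × V, ev (zh z) (t.map Sum.inl ++ List.ofFn μ) =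
      (-1 : ℝ) ^ t.length * ∑ x, K (Fin.cons x μ) := by
    intro μ
    have e1 : zh z = fun y => ∑ x, B (Fin.cons x y) := funext fun y => (hzB y).symm
    rw [e1, ev_sum (fun x y => B (Fin.cons x y)), Finset.mul_sum]
    refine Finset.sum_congr rfl fun x _ => ?_
    rw [← ev_cons, hK]
    simp only
    rw [List.ofFn_cons, hB.ev_move, List.length_map, smul_eq_mul, ← mul_assoc, ← mul_pow]
    simp
  have h3 : ∑ x, ∑ μ : Fin k → V ⊕ V × V, K (Fin.cons x μ) • Pl S x (hat G S α μ) = 0 := by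
    have h4 := sum_alt (Pl S) hKalt (hat G S α)
    have h5 : ∑ v : Fin (k + 1) → V ⊕ V × V, K v • tc (Pl S) (hat G S α) v = 0 := by
      refine Finset.sum_eq_zero fun μ _ => ?_
      by_cases h0 : K μ = 0
      · rw [h0, zero_smul]
      · rw [h.tc_hat hα hc (hKsupp μ h0), smul_zero]
    rw [h5] at h4
    have hk : ((k : ℝ) + 1) ≠ 0 := by positivity
    exact ((smul_eq_zero.1 h4.symm).resolve_left hk)
  have h6 : ∑ x, ∑ μ : Fin k → V ⊕ V × V, K (Fin.cons x μ) • hat G S α μ =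
      ∑ v : V, ∑ μ : Fin k → V ⊕ V × V, K (Fin.cons (Sum.inl v) μ) • Pr S 1 v (hat G S α μ) := by
    have h7 : ∑ x, ∑ μ : Fin k → V ⊕ V × V, K (Fin.cons x μ) • hat G S α μ =
        ∑ x, ∑ μ : Fin k → V ⊕ V × V, K (Fin.cons x μ) • (hat G S α μ - Pl S x (hat G S α μ)) := by
      simp only [smul_sub, Finset.sum_sub_distrib]
      rw [h3, sub_zero]
    rw [h7, Fintype.sum_sum_type]
    have h8 : ∑ p : V × V, ∑ μ : Fin k → V ⊕ V × V, K (Fin.cons (Sum.inr p) μ) •
        (hat G S α μ - Pl S (Sum.inr p) (hat G S α μ)) = 0 := by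
      refine Finset.sum_eq_zero fun p _ => Finset.sum_eq_zero fun μ _ => ?_
      have : Pl S (Sum.inr p) (hat G S α μ) = hat G S α μ := rfl
      rw [this, sub_self, smul_zero]
    rw [h8, add_zero]
    refine Finset.sum_congr rfl fun v _ => Finset.sum_congr rfl fun μ _ => ?_
    congr 1
    have : Pl S (Sum.inl v) (hat G S α μ) = Pr S (-1) v (hat G S α μ) := rfl
    rw [this, sub_eq_iff_eq_add]
    exact (Pr_add v _).symm
  rw [h1, Finset.sum_congr rfl fun μ _ => by rw [h2 μ]]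
  have h9 : ∑ μ : Fin k → V ⊕ V × V, ((-1 : ℝ) ^ t.length * ∑ x, K (Fin.cons x μ)) •
      A (hat G S α μ) = (-1 : ℝ) ^ t.length •
        A (∑ x, ∑ μ : Fin k → V ⊕ V × V, K (Fin.cons x μ) • hat G S α μ) := by
    rw [Finset.sum_comm, map_sum, Finset.smul_sum]
    refine Finset.sum_congr rfl fun μ _ => ?_
    rw [← Finset.sum_smul, map_smul, smul_smul]
  rw [h9, h6, map_sum, Finset.smul_sum]
  refine Finset.sum_congr rfl fun v _ => ?_
  unfold bch
  rw [map_sum, Finset.smul_sum]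
  refine Finset.sum_congr rfl fun μ _ => ?_
  have e2 : K (Fin.cons (Sum.inl v) μ) = (-1 : ℝ) ^ t.length *
      ev B ((v :: t).map Sum.inl ++ List.ofFn μ) := by
    rw [hK]
    simp only
    rw [List.ofFn_cons, hB.ev_move, List.length_map, smul_eq_mul]
    rfl
  rw [map_smul, e2, smul_smul, ← mul_assoc, ← mul_pow]
  simp only [neg_mul_neg, mul_one, one_pow, one_mul]
  by_cases h0 : ev B ((v :: t).map Sum.inl ++ List.ofFn μ) = 0
  · rw [h0, zero_smul, zero_smul]
  · have h10 := (gl_of_ev hB' h0).left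
    rw [List.pairwise_cons] at h10
    rw [PL_cons, hA, PL_comm_of]
    intro w hw m
    exact h.S_Pr_comm (h10.1 w hw).symm 1 m

end

end Pool.Agent.K4H70.SV
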