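import Pool.Agent.K4H70.SV.Dat

/-!
The criterion: cochains of labels give bounded cocycles.
-/

set_option autoImplicit false

open scoped Classical

namespace Pool.Agent.K4H70.SV

open Pool.Agent.W907.SG (W cox)
open Pool.Agent.Q134.SV

set_option linter.unusedSectionVars false

variable {V : Type} [Fintype V] [LinearOrder V] {G : SimpleGraph V}

variable (G) in
/-- cochains of the sets whose descent cochains are bounded cocycles -/
structure TH {n : ℕ} (θ : (Fin n → Finset V) → ℝ) : Prop where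
  alt : Alt θ
  emp : ∀ (σ : Fin n → Finset V) (i : Fin n), σ i = ∅ → θ σ = 0
  van : ∀ σ : Fin (n + 1) → Finset V, (∀ i, (σ i).Nonempty) → Ali G (Set.range σ) → cobd θ σ = 0

variable (G) in
/-- the local term -/
noncomputable def tter {n : ℕ} (θ : (Fin n → Finset V) → ℝ) (x : Fin (n + 1) → W G) (v : W G) : ℝ :=
  cobd θ fun i => D G (v⁻¹ * x i)

variable (G) in
/-- the descent cochain -/
noncomputable def tcc {n : ℕ} (θ : (Fin n → Finset V) → ℝ) (x : Fin (n + 1) → W G) : ℝ :=
  ∑ᶠ v, eps G v * tter G θ x v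

section

variable {n : ℕ} {θ : (Fin n → Finset V) → ℝ} (hθ : TH G θ)

include hθ

lemma tter_inj (x : Fin (n + 1) → W G) :
    Set.InjOn (fun (v : W G) (i : Fin (n + 1)) => D G (v⁻¹ * x i))
      (Function.support (tter G θ x)) := by
  intro v hv w _ hvw
  by_contra hne
  apply hv
  have hg : v⁻¹ * w ≠ 1 := fun e => hne (by
    have := congrArg (fun y => v * y) e
    simpa using this.symm)
  obtain ⟨h1, h2⟩ := data_ali (h := fun i => v⁻¹ * x i) (h' := fun i => w⁻¹ * x i) hg
    (fun i => by group) (fun i => congrFun hvw i)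
  exact hθ.van _ h1 h2

lemma tter_fin (x : Fin (n + 1) → W G) : (Function.support (tter G θ x)).Finite :=
  Set.Finite.of_finite_image (Set.toFinite _) (tter_inj hθ x)

lemma tcc_bdd : ∃ C : ℝ, ∀ x : Fin (n + 1) → W G, |tcc G θ x| ≤ C := by
  obtain ⟨M, hM⟩ : ∃ M : ℝ, ∀ σ : Fin (n + 1) → Finset V, |cobd θ σ| ≤ M :=
    ⟨∑ σ : Fin (n + 1) → Finset V, |cobd θ σ|, fun σ =>
      Finset.single_le_sum (f := fun σ => |cobd θ σ|) (fun _ _ => abs_nonneg _)
        (Finset.mem_univ σ)⟩
  have hM0 : 0 ≤ M := (abs_nonneg _).trans (hM fun _ => ∅)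
  refine ⟨Fintype.card (Fin (n + 1) → Finset V) * M, fun x => ?_⟩
  have h1 : tcc G θ x = ∑ v ∈ (tter_fin hθ x).toFinset, eps G v * tter G θ x v := by
    unfold tcc
    refine finsum_eq_sum_of_support_subset _ ?_
    intro v hv
    simp only [Set.Finite.coe_toFinset, Function.mem_support]
    intro h
    apply hv
    simp only
    rw [h, mul_zero]
  rw [h1]
  calc |∑ v ∈ (tter_fin hθ x).toFinset, eps G v * tter G θ x v|
      ≤ ∑ v ∈ (tter_fin hθ x).toFinset, |eps G v * tter G θ x v| := Finset.abs_sum_le_sum_abs _ _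
    _ ≤ ∑ v ∈ (tter_fin hθ x).toFinset, M := by
        refine Finset.sum_le_sum fun v _ => ?_
        rw [abs_mul, abs_eps, one_mul]
        exact hM _
    _ = ((tter_fin hθ x).toFinset.card : ℝ) * M := by rw [Finset.sum_const, nsmul_eq_mul]
    _ ≤ Fintype.card (Fin (n + 1) → Finset V) * M := by
        refine mul_le_mul_of_nonneg_right ?_ hM0
        rw [Nat.cast_le]
        refine Finset.card_le_card_of_injOn (fun (v : W G) (i : Fin (n + 1)) => D G (v⁻¹ * x i))
          (fun _ _ => Finset.mem_univ _) ?_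
        simp only [Set.Finite.coe_toFinset]
        exact tter_inj hθ x

lemma tcc_coc (x : Fin (n + 2) → W G) : cobd (tcc G θ) x = 0 := by
  have h1 : ∀ i : Fin (n + 2), (-1 : ℝ) ^ (i : ℕ) * tcc G θ (x ∘ i.succAbove) =
      ∑ᶠ v, (-1 : ℝ) ^ (i : ℕ) * (eps G v * tter G θ (x ∘ i.succAbove) v) := by
    intro i
    unfold tcc
    exact mul_finsum _ _
  unfold cobd
  rw [Finset.sum_congr rfl fun i _ => h1 i, ← finsum_sum_comm]
  · rw [← finsum_zero (α := W G)]
    congr 1
    funext v
    have h2 := cobd_cobd θ fun i => D G (v⁻¹ * x i)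
    calc ∑ i : Fin (n + 2), (-1 : ℝ) ^ (i : ℕ) * (eps G v * tter G θ (x ∘ i.succAbove) v)
        = eps G v * ∑ i : Fin (n + 2), (-1 : ℝ) ^ (i : ℕ) * tter G θ (x ∘ i.succAbove) v := by
          rw [Finset.mul_sum]
          exact Finset.sum_congr rfl fun i _ => by ring
      _ = 0 := by
          have h3 : ∑ i : Fin (n + 2), (-1 : ℝ) ^ (i : ℕ) * tter G θ (x ∘ i.succAbove) v =
            cobd (cobd θ) fun i => D G (v⁻¹ * x i) := rfl
          rw [h3, h2, mul_zero]
  · intro i _
    refine (tter_fin hθ (x ∘ i.succAbove)).subset fun v hv => ?_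
    intro h
    apply hv
    simp only
    rw [h, mul_zero, mul_zero]

lemma tcc_nrm (x : Fin (n + 1) → W G) (k : Fin n) (hk : x k.castSucc = x k.succ) :
    tcc G θ x = 0 := by
  unfold tcc
  rw [← finsum_zero (α := W G)]
  congr 1
  funext v
  have : tter G θ x v = 0 := by
    unfold tter
    refine hθ.alt.cobd.self _ (i := k.castSucc) (j := k.succ) (Fin.castSucc_lt_succ).ne ?_
    simp only [hk]
  rw [this, mul_zero]

end

lemma tcc_gen {n : ℕ} (θ : (Fin n → Finset V) → ℝ) (u : V) (x : Fin (n + 1) → W G) :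
    tcc G θ (fun i => gen G u * x i) = - tcc G θ x := by
  unfold tcc
  have h1 : ∀ v : W G, eps G (gen G u * v) * tter G θ (fun i => gen G u * x i) (gen G u * v) =
      - (eps G v * tter G θ x v) := by
    intro v
    have h2 : tter G θ (fun i => gen G u * x i) (gen G u * v) = tter G θ x v := by
      unfold tter
      congr 1
      funext i
      congr 1
      group
    rw [h2, eps_mul, eps_gen]
    ring
  rw [← finsum_comp_equiv (Equiv.mulLeft (gen G u))]
  simp only [Equiv.coe_mulLeft, h1]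
  exact finsum_neg_distrib _

/-- the descent cochain is a bounded cocycle -/
theorem tcc_good {n : ℕ} {θ : (Fin n → Finset V) → ℝ} (hθ : TH G θ) : Good G n (tcc G θ) :=
  ⟨fun x g => tcc_gen θ x g, tcc_coc hθ, tcc_bdd hθ, tcc_nrm hθ⟩

variable (G) in
/-- pairwise adjacent admissible labels -/
def GT {m : ℕ} (s : Fin m → V ⊕ V × V) : Prop :=
  (∀ i, Va G (s i)) ∧ ∀ i j, i ≠ j → LA G (s i) (s j)

variable (G) in
/-- the cochain of sets of a cochain of labels -/
noncomputable def theta [Nonempty V] {n : ℕ} (a : (Fin n → V ⊕ V × V) → ℝ)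
    (σ : Fin n → Finset V) : ℝ :=
  if ∀ i, (σ i).Nonempty then Bop (lab G) n a σ else 0

section

variable [Nonempty V] {n : ℕ} {a : (Fin n → V ⊕ V × V) → ℝ}

lemma theta_TH (ha : Alt a) (hc : ∀ s : Fin (n + 1) → V ⊕ V × V, GT G s → cobd a s = 0) :
    TH G (theta G a) := by
  refine ⟨?_, ?_, ?_⟩
  · intro σ i j hij
    unfold theta
    have h1 : (∀ k, ((σ ∘ Equiv.swap i j) k).Nonempty) ↔ ∀ k, (σ k).Nonempty :=
      ⟨fun h k => by simpa using h (Equiv.swap i j k), fun h k => h _⟩
    by_cases h : ∀ k, (σ k).Nonempty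
    · rw [if_pos (h1.2 h), if_pos h]
      exact Bop_alt _ _ _ _ _ _ hij
    · rw [if_neg fun h' => h (h1.1 h'), if_neg h, neg_zero]
  · intro σ i hi
    unfold theta
    rw [if_neg]
    intro h
    have := h i
    rw [hi] at this
    exact Finset.not_nonempty_empty this
  · intro σ hne hA
    have h1 : cobd (theta G a) σ = cobd (Bop (lab G) n a) σ := by
      refine cobd_congr fun i => ?_
      unfold theta
      exact if_pos fun k => hne _
    rw [h1, cobd_Bop]
    refine Bop_vanish (lab G) (P := Ali G) (R := RL G) (fun _ _ h => h.symm)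
      (fun X X' h h' _ => h.mono h') (fun X X' h h' h'' => lab_compat h h' h'') _ _ _ hA
      fun y hy hy' => ?_
    by_cases hinj : ∃ i j, i ≠ j ∧ y i = y j
    · obtain ⟨i, j, hij, he⟩ := hinj
      exact ha.cobd.self y hij he
    · push Not at hinj
      refine hc y ⟨fun i => ?_, fun i j hij => (hy i j hij).resolve_left (hinj i j hij)⟩
      obtain ⟨X', h1, h2, h3⟩ := hy' i
      rw [h3]
      exact lab_va (hA.mono h1) h2

lemma theta_clique (ha : Alt a) {σ : Fin n → Finset V} {C : Set V}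
    (hC : ∀ x ∈ C, ∀ y ∈ C, x ≠ y → G.Adj x y) (hσ : ∀ i, ∀ x ∈ σ i, x ∈ C) :
    theta G a σ = th (fun v => a (Sum.inl ∘ v)) σ := by
  unfold theta th
  by_cases h : ∀ i, (σ i).Nonempty
  · rw [if_pos h, dif_pos h]
    rw [Bop_min (lab G) (Sum.inl : V → V ⊕ V × V)
      (fun τ : Finset V => if h : τ.Nonempty then τ.min' h else Classical.arbitrary V)
      (P := fun X => (∀ τ ∈ X, τ.Nonempty) ∧ ∀ x ∈ un X, x ∈ C)
      (fun X X' h1 h2 _ => ⟨fun τ hτ => h1.1 τ (h2 hτ), fun x hx => h1.2 x (un_mono h2 hx)⟩)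
      ?_ n a ha σ ?_]
    · congr 1
      funext i
      simp only [Function.comp_apply, dif_pos (h i)]
    · rintro X ⟨h1, h2⟩ hne
      obtain ⟨_, τ, hτ, h3⟩ := lab_clique (G := G) (X := X)
        (fun x hx y hy => hC x (h2 x hx) y (h2 y hy)) h1 hne
      exact ⟨τ, hτ, by rw [h3, dif_pos (h1 τ hτ)]⟩
    · constructor
      · rintro _ ⟨i, rfl⟩
        exact h i
      · intro x hx
        obtain ⟨_, ⟨i, rfl⟩, hx⟩ := mem_un.1 hx
        exact hσ i x hx
  · rw [if_neg h, dif_neg h]

end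

section

variable [Nonempty V] {n : ℕ} {a : (Fin (n + 1) → V ⊕ V × V) → ℝ} (ha : Alt a)
  (hc : ∀ s : Fin (n + 2) → V ⊕ V × V, GT G s → cobd a s = 0)
  {s : Fin (n + 1) → V} (hs : ∀ i j, i ≠ j → G.Adj (s i) (s j))

include ha hs

lemma range_clique : ∀ x ∈ Set.range s, ∀ y ∈ Set.range s, x ≠ y → G.Adj x y := by
  rintro _ ⟨i, rfl⟩ _ ⟨j, rfl⟩ h
  exact hs i j (fun e => h (by rw [e]))

lemma tter_xx (j : Fin (n + 2)) :
    eps G (xx G s j) * tter G (theta G a) (xx G s) (xx G s j) =
      if ok s j then a (Sum.inl ∘ s) else 0 := by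
  have h0 : ∀ (σ : Fin (n + 1) → Finset V) (i : Fin (n + 1)), σ i = ∅ → theta G a σ = 0 := by
    intro σ i hi
    unfold theta
    rw [if_neg]
    intro h
    have := h i
    rw [hi] at this
    exact Finset.not_nonempty_empty this
  have h1 : tter G (theta G a) (xx G s) (xx G s j) = (-1 : ℝ) ^ (j : ℕ) *
      theta G a ((fun i => D G ((xx G s j)⁻¹ * xx G s i)) ∘ j.succAbove) := by
    unfold tter
    unfold cobd
    rw [Finset.sum_eq_single j]
    · intro i _ hij
      obtain ⟨k, hk⟩ := Fin.exists_succAbove_eq hij.symm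
      rw [h0 _ k, mul_zero]
      simp only [Function.comp_apply]
      rw [hk, inv_mul_cancel, D_one]
    · intro h'; exact absurd (Finset.mem_univ _) h'
  rw [h1, eps_xx, ← mul_assoc, ← mul_pow]
  simp only [neg_mul_neg, mul_one, one_pow, one_mul]
  rw [theta_clique ha (range_clique ha hs)]
  · refine th_xx hs (a := fun v => a (Sum.inl ∘ v)) (fun v i j hij => ?_) j
    exact ha (Sum.inl ∘ v) i j hij
  · intro i x hx
    exact D_WT ((WT G _).mul_mem ((WT G _).inv_mem (xx_mem j)) (xx_mem _)) hx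

include hc

lemma tter_xx_zero {v : W G} (hv : ∀ j, v ≠ xx G s j) : tter G (theta G a) (xx G s) v = 0 := by
  have hne : ∀ j, (D G (v⁻¹ * xx G s j)).Nonempty := by
    intro j
    refine D_nonempty fun h => hv j ?_
    exact (inv_mul_eq_one.1 h)
  refine (theta_TH ha hc).van _ hne ?_
  have hT := range_clique ha hs
  rcases coset hT _ v⁻¹ rfl with ⟨u, hu⟩ | h
  · have hC : Cli G (Set.range fun j => D G (v⁻¹ * xx G s j)) := by
      rintro _ ⟨i, rfl⟩ x hx y hy hxy
      exact D_clique hx hy hxy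
    refine ⟨hC, Or.inr ?_⟩
    rintro _ ⟨j, rfl⟩
    have h1 : u ∈ D G (v⁻¹ * xx G s j) := hu _ (xx_mem j)
    have h2 : D G (v⁻¹ * xx G s j) ∈ Set.range fun j => D G (v⁻¹ * xx G s j) := ⟨j, rfl⟩
    refine ⟨u, h1, mem_cen_of_common hC (mem_un_of_mem h2 h1) ?_⟩
    rintro _ ⟨k, rfl⟩
    exact hu _ (xx_mem k)
  · refine (lab_clique (G := G) (X := Set.range fun j => D G (v⁻¹ * xx G s j)) ?_ ?_
      ⟨_, (0 : Fin (n + 2)), rfl⟩).1
    · intro x hx y hy hxy
      obtain ⟨_, ⟨i, rfl⟩, hx⟩ := mem_un.1 hx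
      obtain ⟨_, ⟨j, rfl⟩, hy⟩ := mem_un.1 hy
      exact hT x (D_WT ((WT G _).mul_mem h (xx_mem i)) hx) y
        (D_WT ((WT G _).mul_mem h (xx_mem j)) hy) hxy
    · rintro _ ⟨j, rfl⟩
      exact hne j

/-- the value of the descent cochain on a cube -/
theorem tcc_xx : tcc G (theta G a) (xx G s) = kap s * a (Sum.inl ∘ s) := by
  unfold tcc
  rw [finsum_eq_sum_of_support_subset (s := Finset.univ.image (xx G s)),
    Finset.sum_image fun i _ j _ h => xx_inj hs h, Finset.sum_congr rfl fun j _ => tter_xx ha hs j,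
    ← Finset.sum_filter, Finset.sum_const, nsmul_eq_mul]
  · rfl
  · intro v hv
    by_contra hc'
    simp only [Finset.coe_image, Finset.coe_univ, Set.image_univ, Set.mem_range, not_exists] at hc'
    apply hv
    simp only
    rw [tter_xx_zero ha hc hs fun j e => hc' j e.symm, mul_zero]

end

theorem pair_of_kap {n : ℕ} {z a : (Fin (n + 1) → V) → ℝ} (hz : IsCyc (n + 1) G z)
    (alt : ∀ (v : Fin (n + 1) → V) (i j : Fin (n + 1)), i ≠ j → a (v ∘ Equiv.swap i j) = - a v)
    {c : (Fin (n + 2) → W G) → ℝ} (hc : ∀ s : Fin (n + 1) → V, (∀ i j, i ≠ j → G.Adj (s i) (s j)) →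
      c (Fin.partialProd (gen G ∘ s)) = kap s * a s) :
    ((n + 1).factorial : ℝ) * pair (gen G) z c =
      Kn (n + 1) * ∑ s : Fin (n + 1) → V, z s * a s := by
  have h1 : pair (gen G) z c = ∑ s : Fin (n + 1) → V, z s * a s * kap s := by
    unfold pair
    refine Finset.sum_congr rfl fun s _ => ?_
    by_cases h0 : z s = 0
    · rw [h0]; ring
    · rw [hc s (hz.supp s h0)]; ring
  have hsym : ∀ (π : Equiv.Perm (Fin (n + 1))) (s : Fin (n + 1) → V),
      z (s ∘ π) * a (s ∘ π) = z s * a s := by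
    intro π s
    refine sgn_perm (F := fun s => z s * a s) ?_ π s
    intro v i j hij
    simp only [hz.alt v i j hij, alt v i j hij]
    ring
  have h2 : ∀ π : Equiv.Perm (Fin (n + 1)), ∑ s : Fin (n + 1) → V, z s * a s * kap s =
      ∑ s : Fin (n + 1) → V, z s * a s * kap (s ∘ π) := by
    intro π
    rw [← Equiv.sum_comp (Equiv.arrowCongr π.symm (Equiv.refl V))]
    refine Finset.sum_congr rfl fun s _ => ?_
    have : (Equiv.arrowCongr π.symm (Equiv.refl V)) s = s ∘ π := by
      funext l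
      simp [Equiv.arrowCongr]
    rw [this, hsym]
  rw [h1]
  have h3 : ((n + 1).factorial : ℝ) * ∑ s : Fin (n + 1) → V, z s * a s * kap s =
      ∑ π : Equiv.Perm (Fin (n + 1)), ∑ s : Fin (n + 1) → V, z s * a s * kap (s ∘ π) := by
    rw [← Finset.sum_congr rfl fun π _ => h2 π, Finset.sum_const, nsmul_eq_mul, Finset.card_univ,
      Fintype.card_perm, Fintype.card_fin]
  rw [h3, Finset.sum_comm, Finset.mul_sum]
  refine Finset.sum_congr rfl fun s _ => ?_
  rw [← Finset.mul_sum]
  by_cases h0 : z s = 0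
  · rw [h0]; ring
  · have hinj : Function.Injective s := by
      intro i j hij
      by_contra hne
      exact (hz.supp s h0 i j hne).ne hij
    rw [← Nat.cast_sum, sum_kap hinj]
    ring

/-- **The criterion**: a cochain of labels which is closed on the pairwise adjacent admissible tuples
and pairs nontrivially with the cycle gives a bounded cocycle which pairs nontrivially. -/
theorem exists_good_of_labels {V : Type} [Fintype V] {G : SimpleGraph V} {n : ℕ}
    {z : (Fin (n + 1) → V) → ℝ} (hz : IsCyc (n + 1) G z) {a : (Fin (n + 1) → V ⊕ V × V) → ℝ}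
    (ha : Alt a) (hc : ∀ s : Fin (n + 2) → V ⊕ V × V, GT G s → cobd a s = 0)
    (hne : ∑ s : Fin (n + 1) → V, z s * a (Sum.inl ∘ s) ≠ 0) :
    ∃ c, Good G (n + 1) c ∧ pair (gen G) z c ≠ 0 := by
  let _ : LinearOrder V := LinearOrder.lift' (Fintype.equivFin V) (Fintype.equivFin V).injective
  have _ : Nonempty V := by
    by_contra h
    apply hne
    refine Finset.sum_eq_zero fun s _ => ?_
    exact absurd ⟨s 0⟩ h
  refine ⟨tcc G (theta G a), tcc_good (theta_TH ha hc), fun h => ?_⟩
  have h1 := pair_of_kap hz (a := fun s => a (Sum.inl ∘ s))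
    (fun v i j hij => ha (Sum.inl ∘ v) i j hij) (c := tcc G (theta G a))
    (fun s hs => tcc_xx ha hc hs)
  rw [h, mul_zero] at h1
  rcases mul_eq_zero.1 h1.symm with h2 | h2
  · have := Kn_pos (n + 1)
    rw [Nat.cast_eq_zero] at h2
    omega
  · exact hne h2

end Pool.Agent.K4H70.SV
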