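import Pool.Agent.K4H70.SV.Cap

/-!
Homology spheres.
-/

set_option autoImplicit false
set_option linter.unusedSectionVars false

open scoped Classical

namespace Pool.Agent.K4H70.SV

open Pool.Agent.Q134.SV

variable {V : Type}

/-- `a` is a real simplicial `(j-1)`-chain of the link of the simplex `T` in the flag complex of `G`:
an alternating function of `j`-tuples of vertices, supported on the simplices of the link. -/
structure LChain (G : SimpleGraph V) (T : Finset V) {j : ℕ} (a : (Fin j → V) → ℝ) : Prop where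
  alt : ∀ (v : Fin j → V) (i k : Fin j), i ≠ k → a (v ∘ Equiv.swap i k) = - a v
  supp : ∀ v : Fin j → V, a v ≠ 0 →
    (∀ i k, i ≠ k → G.Adj (v i) (v k)) ∧ ∀ i, ∀ u ∈ T, G.Adj u (v i)

variable [Fintype V]

/-- `a` is a real simplicial `(j-1)`-cycle of the link of `T`. -/
structure LCycle (G : SimpleGraph V) (T : Finset V) {j : ℕ} (a : (Fin j → V) → ℝ) : Prop
    extends LChain G T a where
  cyc : ∀ (v : Fin j → V) (i : Fin j), ∑ x, a (Function.update v i x) = 0

/-- The flag complex of `G` is a real homology sphere of dimension `n - 1`, and so are the links of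
its simplices (a generalised homology sphere): for each simplex `T` (the empty one included) the
link of `T` has the reduced real homology of the sphere of dimension `n - 1 - |T|`. -/
structure HSphere (n : ℕ) (G : SimpleGraph V) : Prop where
  dim : G.CliqueFree (n + 1)
  acyc : ∀ T : Finset V, G.IsClique (T : Set V) → ∀ j : ℕ, j + T.card < n →
    ∀ a : (Fin j → V) → ℝ, LCycle G T a →
      ∃ b : (Fin (j + 1) → V) → ℝ, LChain G T b ∧ ∀ v, a v = ∑ x, b (Fin.cons x v)
  top : ∀ T : Finset V, G.IsClique (T : Set V) → ∀ j : ℕ, j + T.card = n →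
    ∃ a : (Fin j → V) → ℝ, LCycle G T a ∧ a ≠ 0 ∧
      ∀ a' : (Fin j → V) → ℝ, LCycle G T a' → ∃ c : ℝ, ∀ v, a' v = c * a v

variable {G : SimpleGraph V}

lemma sum_update_of_cons {n : ℕ} {a : (Fin (n + 1) → V) → ℝ} (ha : Alt a)
    (h : ∀ y, ∑ x, a (Fin.cons x y) = 0) (v : Fin (n + 1) → V) (i : Fin (n + 1)) :
    ∑ x, a (Function.update v i x) = 0 := by
  have h1 : ∀ x, a (Function.update v i x) = (-1 : ℝ) ^ (i : ℕ) *
      a (Fin.cons x (v ∘ i.succAbove)) := by
    intro x
    rw [ha.move _ i, smul_eq_mul]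
    congr 3
    · simp
    · funext k
      simp [Fin.succAbove_ne]
  rw [Finset.sum_congr rfl fun x _ => h1 x, ← Finset.mul_sum, h, mul_zero]

lemma cons_of_update {n : ℕ} {a : (Fin (n + 1) → V) → ℝ}
    (h : ∀ (v : Fin (n + 1) → V) (i : Fin (n + 1)), ∑ x, a (Function.update v i x) = 0)
    (y : Fin n → V) : ∑ x, a (Fin.cons x y) = 0 := by
  rcases isEmpty_or_nonempty V with hV | ⟨⟨x₀⟩⟩
  · simp
  · have := h (Fin.cons x₀ y) 0
    simpa using this

variable (G) in
/-- tuples of the link -/
def LT (T : Finset V) {m : ℕ} (s : Fin m → V) : Prop :=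
  (∀ i j, i ≠ j → G.Adj (s i) (s j)) ∧ ∀ i, ∀ u ∈ T, G.Adj u (s i)

lemma LT.swap {T : Finset V} {m : ℕ} (s : Fin m → V) (i j : Fin m) (h : LT G T s) :
    LT G T (s ∘ Equiv.swap i j) :=
  ⟨fun _ _ hkl => h.1 _ _ fun e => hkl ((Equiv.swap i j).injective e), fun _ => h.2 _⟩

lemma HSphere.exact {n : ℕ} (h : HSphere n G) {T : Finset V} (hT : Cq G T) {k : ℕ}
    (hk : k + 1 + T.card < n) {f : (Fin (k + 1) → V) → ℝ} (hf : Alt f)
    (hc : ∀ s : Fin (k + 2) → V, LT G T s → cobd f s = 0) :
    ∃ g : (Fin k → V) → ℝ, Alt g ∧ ∀ s : Fin (k + 1) → V, LT G T s → f s = cobd g s := by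
  refine dual1 (A := LT G T) (fun v i j h => LT.swap v i j h) hf fun a ha ha' ha0 => ?_
  obtain ⟨b, hb, hab⟩ := h.acyc T (fun x hx y hy => hT x hx y hy) (k + 1) hk a
    ⟨⟨ha, fun v hv => ha' v hv⟩, sum_update_of_cons ha ha0⟩
  have h1 := sum_cobd (K := b) (fun v i j hij => hb.alt v i j hij) f
  have h2 : ∑ v : Fin (k + 2) → V, b v * cobd f v = 0 := by
    refine Finset.sum_eq_zero fun v _ => ?_
    by_cases h0 : b v = 0
    · rw [h0, zero_mul]
    · rw [hc v (hb.supp v h0), mul_zero]
  rw [h2] at h1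
  have h3 : (((k + 1 : ℕ) : ℝ) + 1) ≠ 0 := by positivity
  have h4 := (mul_eq_zero.1 h1.symm).resolve_left h3
  rw [← h4]
  refine Finset.sum_congr rfl fun v _ => ?_
  rw [hab v, mul_comm]

lemma HSphere.exact_top {n : ℕ} (h : HSphere n G) {T : Finset V} (hT : Cq G T) {k : ℕ}
    (hk : k + 1 + T.card = n) {f ζ : (Fin (k + 1) → V) → ℝ} (hf : Alt f) (hζ : LCycle G T ζ)
    (hζ0 : ζ ≠ 0) (hp : ∑ s, ζ s * f s = 0) :
    ∃ g : (Fin k → V) → ℝ, Alt g ∧ ∀ s : Fin (k + 1) → V, LT G T s → f s = cobd g s := by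
  refine dual1 (A := LT G T) (fun v i j h => LT.swap v i j h) hf fun a ha ha' ha0 => ?_
  obtain ⟨a₀, _, _, h1⟩ := h.top T (fun x hx y hy => hT x hx y hy) (k + 1) hk
  obtain ⟨c, hc⟩ := h1 a ⟨⟨ha, fun v hv => ha' v hv⟩, sum_update_of_cons ha ha0⟩
  obtain ⟨c', hc'⟩ := h1 ζ hζ
  have hc0 : c' ≠ 0 := by
    rintro rfl
    apply hζ0
    funext v
    rw [hc' v, zero_mul]; rfl
  have h2 : ∀ v, f v * a v = c / c' * (ζ v * f v) := by
    intro v
    rw [hc v, hc' v]
    field_simp
  rw [Finset.sum_congr rfl fun v _ => h2 v, ← Finset.mul_sum, hp, mul_zero]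

/-! ### The top cycle -/

lemma nodup_of_pw {t : List V} (h : t.Pairwise G.Adj) : t.Nodup :=
  h.imp fun h => h.ne

lemma pw_ev {m : ℕ} {z : (Fin m → V) → ℝ} (hz : ∀ v, z v ≠ 0 → ∀ i j, i ≠ j → G.Adj (v i) (v j))
    {l : List V} (h : ev z l ≠ 0) : l.Pairwise G.Adj := by
  obtain ⟨y, rfl, hy⟩ := ev_ne h
  rw [List.pairwise_ofFn]
  exact fun i j hij => hz y hy _ _ hij.ne

lemma cq_of_pw : ∀ {t : List V}, t.Pairwise G.Adj → Cq G t.toFinset
  | [], _ => by
    intro a ha
    simp at ha
  | v :: t, h => by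
    rw [List.pairwise_cons] at h
    intro a ha b hb hab
    rw [List.toFinset_cons, Finset.mem_insert] at ha hb
    rcases ha with rfl | ha
    · rcases hb with rfl | hb
      · exact absurd rfl hab
      · exact h.1 b (List.mem_toFinset.1 hb)
    · rcases hb with rfl | hb
      · exact (h.1 a (List.mem_toFinset.1 ha)).symm
      · exact cq_of_pw h.2 a ha b hb hab

section

variable {n : ℕ} {z : (Fin n → V) → ℝ} (hz : LCycle G ∅ z)

include hz

lemma LCycle.alt' : Alt z := fun v i j hij => hz.alt v i j hij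

lemma LCycle.ev_cycle (t : List V) (k : ℕ) :
    LCycle G t.toFinset fun s : Fin k → V => ev z (t ++ List.ofFn s) := by
  have hsupp := fun v hv => (hz.supp v hv).1
  have halt : Alt fun s : Fin k → V => ev z (t ++ List.ofFn s) := hz.alt'.ev_ofFn t k
  refine ⟨⟨fun v i j hij => halt v i j hij, fun s hs => ?_⟩, ?_⟩
  · have h1 := List.pairwise_append.1 (pw_ev hsupp hs)
    refine ⟨fun i j hij => ?_, fun i u hu => ?_⟩
    · have h2 := h1.2.1
      rw [List.pairwise_ofFn] at h2
      rcases lt_or_gt_of_ne hij with h' | h'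
      · exact h2 h'
      · exact (h2 h').symm
    · exact h1.2.2 u (List.mem_toFinset.1 hu) (s i) (List.mem_ofFn.2 ⟨i, rfl⟩)
  · cases k with
    | zero => intro v i; exact i.elim0
    | succ k =>
      refine sum_update_of_cons halt fun y => ?_
      simp only [List.ofFn_cons]
      cases n with
      | zero =>
        refine Finset.sum_eq_zero fun x _ => ?_
        cases t <;> rfl
      | succ n => exact hz.alt'.ev_sum_zero (cons_of_update hz.cyc) t _

/-- the cycle does not vanish on the link -/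
def NZ {n : ℕ} (z : (Fin n → V) → ℝ) (t : List V) : Prop := ∃ l, ev z (t ++ l) ≠ 0

omit hz in
lemma ev_length {X : Type} {m : ℕ} {z : (Fin m → X) → ℝ} {l : List X} (h : ev z l ≠ 0) :
    l.length = m := by
  obtain ⟨y, rfl, _⟩ := ev_ne h
  simp

lemma LCycle.nz_tail {v : V} {t : List V} (h : NZ z (v :: t)) : NZ z t := by
  obtain ⟨l, hl⟩ := h
  refine ⟨v :: l, ?_⟩
  rw [hz.alt'.ev_move]
  exact smul_ne_zero (pow_ne_zero _ (by norm_num)) hl

lemma LCycle.nz_mid {v w : V} {t : List V} (h : NZ z (w :: v :: t)) : NZ z (w :: t) := by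
  obtain ⟨l, hl⟩ := h
  refine ⟨v :: l, ?_⟩
  rw [hz.alt'.ev_move]
  refine smul_ne_zero (pow_ne_zero _ (by norm_num)) ?_
  rw [List.cons_append, hz.alt'.ev_swap]
  exact neg_ne_zero.2 hl

omit hz in
lemma pw_card (hd : G.CliqueFree (n + 1)) {t : List V} (ht : t.Pairwise G.Adj) : t.length ≤ n := by
  by_contra h
  push Not at h
  have h1 : G.IsClique (t.toFinset : Set V) := fun x hx y hy => cq_of_pw ht x hx y hy
  have h2 : t.toFinset.card = t.length := List.toFinset_card_of_nodup (nodup_of_pw ht)
  obtain ⟨T, hT, hcard⟩ := Finset.exists_subset_card_eq (s := t.toFinset) (n := n + 1) (by omega)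
  exact hd T ⟨h1.subset (by exact_mod_cast hT), hcard⟩

theorem LCycle.nz_step (h : HSphere n G) : ∀ (m : ℕ) (t : List V), t.Pairwise G.Adj →
    t.length + m = n → NZ z t → ∀ v, (∀ u ∈ t, G.Adj u v) → NZ z (v :: t)
  | 0, t, ht, hm, _, v, hv => by
    exfalso
    have := pw_card h.dim (t := v :: t) (List.pairwise_cons.2 ⟨fun u hu => (hv u hu).symm, ht⟩)
    simp at this
    omega
  | m + 1, t, ht, hm, hnz, v, hv => by
    by_contra hcon
    have hsupp := fun v hv => (hz.supp v hv).1
    have hclq : G.IsClique (t.toFinset : Set V) := fun x hx y hy => cq_of_pw ht x hx y hy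
    have hcard : t.toFinset.card = t.length := List.toFinset_card_of_nodup (nodup_of_pw ht)
    obtain ⟨l, hl⟩ := hnz
    have hlen := ev_length hl
    rw [List.length_append] at hlen
    obtain ⟨x, l', rfl⟩ : ∃ x l', l = x :: l' := by
      cases l with
      | nil => simp at hlen; omega
      | cons x l' => exact ⟨x, l', rfl⟩
    have hx : ∀ u ∈ t, G.Adj u x := fun u hu =>
      (List.pairwise_append.1 (pw_ev hsupp hl)).2.2 u hu x List.mem_cons_self
    have hxnz : NZ z (x :: t) := by
      refine ⟨l', ?_⟩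
      rw [hz.alt'.ev_move] at hl
      exact right_ne_zero_of_smul hl
    have hxv : x ≠ v := by
      rintro rfl
      exact hcon hxnz
    -- the difference of the two points
    set δ : (Fin 1 → V) → ℝ := fun s => (if s 0 = x then 1 else 0) - if s 0 = v then 1 else 0
      with hδ
    have hδc : LCycle G t.toFinset δ := by
      refine ⟨⟨fun v i j hij => absurd (Subsingleton.elim i j) hij, fun s hs => ?_⟩, ?_⟩
      · refine ⟨fun i j hij => absurd (Subsingleton.elim i j) hij, fun i u hu => ?_⟩
        rw [Subsingleton.elim i 0]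
        have hu' := List.mem_toFinset.1 hu
        by_cases h1 : s 0 = x
        · rw [h1]; exact hx u hu'
        · by_cases h2 : s 0 = v
          · rw [h2]; exact hv u hu'
          · exfalso
            apply hs
            simp only [hδ]
            rw [if_neg h1, if_neg h2, sub_zero]
      · intro s i
        rw [Subsingleton.elim i 0]
        simp only [hδ, Function.update_self, Finset.sum_sub_distrib]
        simp
    cases m with
    | zero =>
      obtain ⟨a₀, _, _, h1⟩ := h.top t.toFinset hclq 1 (by omega)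
      obtain ⟨c, hc⟩ := h1 _ (hz.ev_cycle t 1)
      obtain ⟨c', hc'⟩ := h1 δ hδc
      have e1 := hc' fun _ => v
      have e2 := hc fun _ => v
      have e3 := hc fun _ => x
      have hl' : l' = [] := by
        rw [List.length_cons] at hlen
        exact List.length_eq_zero_iff.1 (by omega)
      subst hl'
      have e4 : ∀ y : V, List.ofFn (fun _ : Fin 1 => y) = [y] := by
        intro y; simp
      simp only [e4] at e2 e3
      simp only [hδ] at e1
      rw [if_neg (Ne.symm hxv), if_pos trivial, zero_sub] at e1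
      have h2 : c ≠ 0 := by
        rintro rfl
        rw [zero_mul] at e3
        exact hl e3
      have h3 : a₀ (fun _ => v) ≠ 0 := by
        intro h0
        rw [h0, mul_zero] at e1
        norm_num at e1
      apply hcon
      refine ⟨[], ?_⟩
      have h4 : ev z (t ++ v :: []) ≠ 0 := by
        rw [e2]
        exact mul_ne_zero h2 h3
      rw [hz.alt'.ev_move] at h4
      exact right_ne_zero_of_smul h4
    | succ m =>
      obtain ⟨b, hb, hbδ⟩ := h.acyc t.toFinset hclq 1 (by omega) δ hδc
      set N : Finset V := Finset.univ.filter fun y => (∀ u ∈ t, G.Adj u y) ∧ NZ z (y :: t) with hN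
      have hmN : ∀ y, y ∈ N ↔ (∀ u ∈ t, G.Adj u y) ∧ NZ z (y :: t) := fun y => by simp [hN]
      have hxN : x ∈ N := (hmN x).2 ⟨hx, hxnz⟩
      have hvN : v ∉ N := fun h' => hcon ((hmN v).1 h').2
      have hstep : ∀ y ∈ N, ∀ w, w ∉ N → b (Fin.cons w fun _ => y) = 0 := by
        intro y hy w hw
        by_contra h0
        obtain ⟨h1, h2⟩ := hb.supp _ h0
        have h3 : G.Adj w y := h1 0 1 (by simp)
        have h4 : ∀ u ∈ t, G.Adj u w := fun u hu => h2 0 u (List.mem_toFinset.2 hu)
        apply hw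
        refine (hmN w).2 ⟨h4, ?_⟩
        have hy' := (hmN y).1 hy
        refine hz.nz_mid (v := y) (LCycle.nz_step h (m + 1) (y :: t)
          (List.pairwise_cons.2 ⟨fun u hu => (hy'.1 u hu).symm, ht⟩) ?_ hy'.2 w ?_)
        · rw [List.length_cons]; omega
        · intro u hu
          rcases List.mem_cons.1 hu with rfl | hu
          · exact h3.symm
          · exact h4 u hu
      have h5 : ∑ y ∈ N, δ (fun _ => y) = 1 := by
        simp only [hδ, Finset.sum_sub_distrib]
        rw [Finset.sum_ite_eq' N x, Finset.sum_ite_eq' N v, if_pos hxN, if_neg hvN, sub_zero]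
      have h6 : ∑ y ∈ N, δ (fun _ => y) = ∑ y ∈ N, ∑ w ∈ N, b (Fin.cons w fun _ => y) := by
        refine Finset.sum_congr rfl fun y hy => ?_
        refine (hbδ fun _ => y).trans ?_
        symm
        refine Finset.sum_subset (Finset.subset_univ N) fun w _ hw => hstep y hy w hw
      have h7 : ∑ y ∈ N, ∑ w ∈ N, b (Fin.cons w fun _ => y) =
          - ∑ y ∈ N, ∑ w ∈ N, b (Fin.cons w fun _ => y) := by
        conv_rhs => rw [Finset.sum_comm]
        rw [← Finset.sum_neg_distrib]
        refine Finset.sum_congr rfl fun y _ => ?_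
        rw [← Finset.sum_neg_distrib]
        refine Finset.sum_congr rfl fun w _ => ?_
        have := hb.alt (Fin.cons y fun _ => w) 0 1 (by simp)
        rw [← this]
        congr 1
        have e := cons_cons_swap y w (Fin.elim0 : Fin 0 → V)
        have e1 : ∀ p : V, (fun _ : Fin 1 => p) = (Fin.cons p Fin.elim0 : Fin 1 → V) := by
          intro p
          funext i
          rw [Subsingleton.elim i 0]; rfl
        rw [e1 y, e1 w]
        exact e.symm
      linarith

/-- the top cycle does not vanish on the link of any simplex -/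
theorem LCycle.nz (h : HSphere n G) (hz0 : z ≠ 0) : ∀ t : List V, t.Pairwise G.Adj → NZ z t
  | [], _ => by
    obtain ⟨y, hy⟩ : ∃ y, z y ≠ 0 := by
      by_contra hc
      push Not at hc
      exact hz0 (funext hc)
    exact ⟨List.ofFn y, by rwa [List.nil_append, ev_ofFn]⟩
  | v :: t, ht => by
    have ht' := List.pairwise_cons.1 ht
    have := pw_card h.dim ht'.2
    exact hz.nz_step h (n - t.length) t ht'.2 (by omega) (LCycle.nz h hz0 t ht'.2) v
      fun u hu => (ht'.1 u hu).symm

end

end Pool.Agent.K4H70.SV
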