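import Pool.Agent.K4H70.SV.Clf

/-!
A model of the Clifford system, and the dimensions of the joint eigenspaces.
-/

set_option autoImplicit false
set_option linter.unusedSectionVars false

open scoped Classical

namespace Pool.Agent.K4H70.SV

variable {V : Type} [Fintype V] [LinearOrder V]

/-- the model -/
abbrev Mo (V : Type) : Type := (V → Bool) → ℝ

/-- change of one value -/
def tg (v : V) (A : V → Bool) : V → Bool := Function.update A v (!A v)

lemma tg_self (v : V) (A : V → Bool) : tg v A v = !A v := by simp [tg]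

lemma tg_ne {u v : V} (h : u ≠ v) (A : V → Bool) : tg v A u = A u := by simp [tg, h]

lemma tg_tg (v : V) (A : V → Bool) : tg v (tg v A) = A := by
  funext u
  by_cases h : u = v
  · subst h; rw [tg_self, tg_self, Bool.not_not]
  · rw [tg_ne h, tg_ne h]

lemma tg_comm (u v : V) (A : V → Bool) : tg u (tg v A) = tg v (tg u A) := by
  funext w
  by_cases huv : u = v
  · subst huv; rfl
  by_cases h : w = u
  · subst h
    rw [tg_self, tg_ne huv, tg_ne huv, tg_self]
  · rw [tg_ne h]
    by_cases h' : w = v
    · subst h'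
      rw [tg_self, tg_self, tg_ne h]
    · rw [tg_ne h', tg_ne h', tg_ne h]

/-- the sign of one value -/
def rho (b : Bool) : ℝ := if b then -1 else 1

lemma rho_not (b : Bool) : rho (!b) = - rho b := by cases b <;> simp [rho]

lemma rho_sq (b : Bool) : rho b * rho b = 1 := by cases b <;> simp [rho]

/-- the sign -/
noncomputable def sgm (G : SimpleGraph V) (v : V) (A : V → Bool) : ℝ :=
  ∏ u ∈ Finset.univ.filter (fun u => u < v ∧ ¬ G.Adj u v), rho (A u)

variable {G : SimpleGraph V}

lemma sgm_sq (v : V) (A : V → Bool) : sgm G v A * sgm G v A = 1 := by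
  unfold sgm
  rw [← Finset.prod_mul_distrib]
  exact Finset.prod_eq_one fun u _ => rho_sq _

lemma sgm_tg_of_not {u v : V} (h : ¬ (u < v ∧ ¬ G.Adj u v)) (A : V → Bool) :
    sgm G v (tg u A) = sgm G v A := by
  unfold sgm
  refine Finset.prod_congr rfl fun w hw => ?_
  rw [Finset.mem_filter] at hw
  have : w ≠ u := by
    rintro rfl
    exact h hw.2
  rw [tg_ne this]

lemma sgm_tg_of {u v : V} (h : u < v ∧ ¬ G.Adj u v) (A : V → Bool) :
    sgm G v (tg u A) = - sgm G v A := by
  unfold sgm
  have hu : u ∈ Finset.univ.filter (fun u => u < v ∧ ¬ G.Adj u v) := by simp [h.1, h.2]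
  rw [← Finset.mul_prod_erase _ _ hu, ← Finset.mul_prod_erase _ _ hu, tg_self, rho_not, neg_mul]
  congr 2
  refine Finset.prod_congr rfl fun w hw => ?_
  rw [tg_ne (Finset.ne_of_mem_erase hw)]

variable (G) in
/-- the involutions -/
noncomputable def Sm (v : V) : Mo V →ₗ[ℝ] Mo V where
  toFun m A := sgm G v A * m (tg v A)
  map_add' m m' := by
    funext A
    simp only [Pi.add_apply]
    ring
  map_smul' r m := by
    funext A
    simp only [Pi.smul_apply, smul_eq_mul, RingHom.id_apply]
    ring

lemma Sm_apply (v : V) (m : Mo V) (A : V → Bool) : Sm G v m A = sgm G v A * m (tg v A) := rfl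

theorem clf_model (G : SimpleGraph V) : Clf G (Sm G) := by
  have key : ∀ u v : V, u < v → ∀ m : Mo V, Sm G u (Sm G v m) =
      (if G.Adj u v then (1 : ℝ) else -1) • Sm G v (Sm G u m) := by
    intro u v huv m
    funext A
    rw [Pi.smul_apply, smul_eq_mul, Sm_apply, Sm_apply, Sm_apply, Sm_apply, tg_comm v u,
      sgm_tg_of_not (u := v) (v := u) (fun h => absurd huv (not_lt.2 h.1.le))]
    split_ifs with h
    · rw [sgm_tg_of_not (u := u) (v := v) (fun h' => h'.2 h)]
      ring
    · rw [sgm_tg_of (u := u) (v := v) ⟨huv, h⟩]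
      ring
  refine ⟨?_, ?_, ?_⟩
  · intro v m
    funext A
    rw [Sm_apply, Sm_apply, tg_tg, sgm_tg_of_not (fun h => absurd h.1 (lt_irrefl v)), ← mul_assoc,
      sgm_sq, one_mul]
  · intro u v m h
    rcases lt_trichotomy u v with h1 | h1 | h1
    · rw [key u v h1, if_pos h, one_smul]
    · exact absurd h1 h.ne
    · rw [key v u h1, if_pos h.symm, one_smul]
  · intro u v m hne h
    rcases lt_trichotomy u v with h1 | h1 | h1
    · rw [key u v h1, if_neg h, neg_smul, one_smul]
    · exact absurd h1 hne
    · rw [key v u h1, if_neg fun h' => h h'.symm, neg_smul, one_smul, neg_neg]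

/-- multiplication with the sign of one value -/
noncomputable def Rm (v : V) : Mo V →ₗ[ℝ] Mo V where
  toFun m A := rho (A v) * m A
  map_add' m m' := by
    funext A
    simp only [Pi.add_apply]
    ring
  map_smul' r m := by
    funext A
    simp only [Pi.smul_apply, smul_eq_mul, RingHom.id_apply]
    ring

lemma Rm_apply (v : V) (m : Mo V) (A : V → Bool) : Rm v m A = rho (A v) * m A := rfl

lemma Rm_sq (v : V) (m : Mo V) : Rm v (Rm v m) = m := by
  funext A
  rw [Rm_apply, Rm_apply, ← mul_assoc, rho_sq, one_mul]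

lemma Sm_Rm_self (v : V) (m : Mo V) : Sm G v (Rm v m) = - Rm v (Sm G v m) := by
  funext A
  rw [Pi.neg_apply, Sm_apply, Rm_apply, Rm_apply, Sm_apply, tg_self, rho_not]
  ring

lemma Sm_Rm_ne {u v : V} (h : v ≠ u) (m : Mo V) : Sm G u (Rm v m) = Rm v (Sm G u m) := by
  funext A
  rw [Sm_apply, Rm_apply, Rm_apply, Sm_apply, tg_ne h]
  ring

/-- the joint eigenspace -/
def NN {M : Type} [AddCommGroup M] [Module ℝ M] (S : V → M →ₗ[ℝ] M) (T : Finset V) :
    Submodule ℝ M where
  carrier := {m | ∀ v ∈ T, S v m = - m}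
  add_mem' := by
    intro a b ha hb v hv
    rw [map_add, ha v hv, hb v hv]
    abel
  zero_mem' := by
    intro v _
    simp
  smul_mem' := by
    intro r a ha v hv
    rw [map_smul, ha v hv, smul_neg]

lemma mem_NN {M : Type} [AddCommGroup M] [Module ℝ M] {S : V → M →ₗ[ℝ] M} {T : Finset V} {m : M} :
    m ∈ NN S T ↔ ∀ v ∈ T, S v m = - m := Iff.rfl

lemma finrank_insert {v : V} {T : Finset V} (hv : v ∉ T) (hT : Cq G (insert v T)) :
    Module.finrank ℝ (NN (Sm G) T) = 2 * Module.finrank ℝ (NN (Sm G) (insert v T)) := by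
  have hS := clf_model G
  have hadj : ∀ u ∈ T, G.Adj u v := fun u hu =>
    hT u (Finset.mem_insert_of_mem hu) v (Finset.mem_insert_self _ _) fun e => hv (e ▸ hu)
  have hne : ∀ u ∈ T, v ≠ u := fun u hu e => hv (by rw [e]; exact hu)
  let φ : (NN (Sm G) (insert v T) × NN (Sm G) (insert v T)) →ₗ[ℝ] NN (Sm G) T :=
    { toFun := fun p => ⟨p.1 + Rm v p.2, by
        intro u hu
        have h1 := p.1.2 u (Finset.mem_insert_of_mem hu)
        have h2 := p.2.2 u (Finset.mem_insert_of_mem hu)
        rw [map_add, Sm_Rm_ne (hne u hu), h1, h2, map_neg]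
        abel⟩
      map_add' := fun p q => by
        ext1
        simp only [Prod.fst_add, Prod.snd_add, Submodule.coe_add, map_add]
        abel
      map_smul' := fun r p => by
        ext1
        simp only [Prod.smul_fst, Prod.smul_snd, Submodule.coe_smul, map_smul, RingHom.id_apply,
          smul_add] }
  have hφ : Function.Bijective φ := by
    constructor
    · rw [← LinearMap.ker_eq_bot, LinearMap.ker_eq_bot']
      rintro ⟨a, b⟩ h
      have h1 : (a : Mo V) + Rm v b = 0 := congrArg Subtype.val h
      have ha : Sm G v a = - (a : Mo V) := a.2 v (Finset.mem_insert_self _ _)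
      have hb : Sm G v b = - (b : Mo V) := b.2 v (Finset.mem_insert_self _ _)
      have h2 : - (a : Mo V) + Rm v b = 0 := by
        have := congrArg (Sm G v) h1
        rw [map_add, map_zero, ha, Sm_Rm_self, hb, map_neg, neg_neg] at this
        exact this
      have h3 : (2 : ℝ) • (a : Mo V) = 0 := by
        have : (2 : ℝ) • (a : Mo V) = ((a : Mo V) + Rm v b) - (- (a : Mo V) + Rm v b) := by
          rw [two_smul]; abel
        rw [this, h1, h2, sub_zero]
      have h4 : (a : Mo V) = 0 := (smul_eq_zero.1 h3).resolve_left two_ne_zero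
      rw [h4, zero_add] at h1
      have h5 : (b : Mo V) = 0 := by
        rw [← Rm_sq v (b : Mo V), h1, map_zero]
      ext1
      · exact Subtype.ext h4
      · exact Subtype.ext h5
    · intro m
      have hm : ∀ u ∈ T, Sm G u (m : Mo V) = - (m : Mo V) := m.2
      have h1 : ∀ r : ℝ, ∀ u ∈ T, Sm G u (Pr (Sm G) r v (m : Mo V)) = - Pr (Sm G) r v (m : Mo V) := by
        intro r u hu
        rw [hS.S_Pr_comm (hadj u hu), hm u hu, map_neg]
      refine ⟨(⟨Pr (Sm G) (-1) v m, ?_⟩, ⟨Rm v (Pr (Sm G) 1 v m), ?_⟩), ?_⟩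
      · intro u hu
        rcases Finset.mem_insert.1 hu with rfl | hu
        · rw [hS.S_Pr (by norm_num), neg_smul, one_smul]
        · exact h1 _ u hu
      · intro u hu
        rcases Finset.mem_insert.1 hu with rfl | hu
        · rw [Sm_Rm_self, hS.S_Pr (by norm_num), one_smul]
        · rw [Sm_Rm_ne (hne u hu), h1 _ u hu, map_neg]
      · ext1
        change Pr (Sm G) (-1) v (m : Mo V) + Rm v (Rm v (Pr (Sm G) 1 v (m : Mo V))) = m
        rw [Rm_sq, add_comm]
        exact Pr_add v _
  have := (LinearEquiv.ofBijective φ hφ).finrank_eq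
  rw [Module.finrank_prod] at this
  omega

/-- the dimension of the joint eigenspace of a clique -/
theorem finrank_NN {T : Finset V} (hT : Cq G T) :
    2 ^ T.card * Module.finrank ℝ (NN (Sm G) T) = 2 ^ Fintype.card V := by
  induction T using Finset.induction_on with
  | empty =>
    have h : NN (Sm G) (∅ : Finset V) = ⊤ := by
      rw [eq_top_iff]
      intro m _ v hv
      exact absurd hv (Finset.notMem_empty v)
    rw [h, finrank_top, Finset.card_empty, pow_zero, one_mul, Module.finrank_fintype_fun_eq_card,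
      Fintype.card_fun, Fintype.card_bool]
  | insert v T hv ih =>
    rw [Finset.card_insert_of_notMem hv, pow_succ, mul_assoc, ← finrank_insert hv hT]
    exact ih fun a ha b hb => hT a (Finset.mem_insert_of_mem ha) b (Finset.mem_insert_of_mem hb)

end Pool.Agent.K4H70.SV
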