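import Pool.Agent.K4H70.SV.Sph
import Pool.Agent.K4H70.SV.Model

/-!
Exactness of the twisted cochain complex if the fundamental cycle is a boundary.
-/

set_option autoImplicit false
set_option linter.unusedSectionVars false

open scoped Classical

namespace Pool.Agent.K4H70.SV

open Pool.Agent.Q134.SV

variable {V : Type} [Fintype V] {Ω : Type} {G : SimpleGraph V}

section general

variable {M : Type} [AddCommGroup M] [Module ℝ M] {S : V → M →ₗ[ℝ] M}

/-- insertion of a vertex -/
noncomputable def Xo (v : V) : (Finset V → M) →ₗ[ℝ] (Finset V → M) where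
  toFun F τ := F (insert v τ)
  map_add' _ _ := rfl
  map_smul' _ _ := rfl

lemma Xo_comm (u v : V) (F : Finset V → M) : Xo u (Xo v F) = Xo v (Xo u F) := by
  funext τ
  change F (insert v (insert u τ)) = F (insert u (insert v τ))
  rw [Finset.insert_comm]

/-- the identity operators -/
noncomputable def Io (N : Type) [AddCommGroup N] [Module ℝ N] (_ : V) : N →ₗ[ℝ] N := LinearMap.id

lemma two_tc_zero {N : Type} [AddCommGroup N] {x : N} [Module ℝ N] (h : x + x = 0) : x = 0 := by
  rw [← two_smul ℝ] at h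
  exact (smul_eq_zero.1 h).resolve_left two_ne_zero

lemma tc_X_X {n : ℕ} (F : (Fin n → V) → Finset V → M) (s : Fin (n + 2) → V) :
    tc Xo (tc Xo F) s = 0 :=
  two_tc_zero (tc_tc Xo Xo F s fun _ _ _ _ => Xo_comm _ _ _)

lemma tc_I_X {n : ℕ} (F : (Fin n → V) → Finset V → M) (s : Fin (n + 2) → V) :
    tc (Io (Finset V → M)) (tc Xo F) s = - tc Xo (tc (Io (Finset V → M)) F) s :=
  eq_neg_of_add_eq_zero_left (tc_tc (Io (Finset V → M)) Xo F s fun _ _ _ _ => rfl)

lemma tc_I_apply {n : ℕ} (F : (Fin n → V) → Finset V → M) (s : Fin (n + 1) → V) (τ : Finset V) :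
    tc (Io (Finset V → M)) F s τ = tc (Io M) (fun s => F s τ) s := by
  unfold tc
  rw [Finset.sum_apply]
  rfl

lemma tc_X_apply {n : ℕ} (F : (Fin n → V) → Finset V → M) (s : Fin (n + 1) → V) (τ : Finset V) :
    tc Xo F s τ = ∑ i : Fin (n + 1), (-1 : ℝ) ^ (i : ℕ) • F (s ∘ i.succAbove) (insert (s i) τ) := by
  unfold tc
  rw [Finset.sum_apply]
  rfl

lemma LT.sub {T : Finset V} {m : ℕ} {s : Fin (m + 1) → V} (h : LT G T s) (i : Fin (m + 1)) :
    LT G (insert (s i) T) (s ∘ i.succAbove) := by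
  refine ⟨fun a b hab => h.1 _ _ fun e => hab (Fin.succAbove_right_injective e), fun a u hu => ?_⟩
  rcases Finset.mem_insert.1 hu with rfl | hu
  · exact h.1 _ _ (Fin.succAbove_ne i a).symm
  · exact h.2 _ u hu

lemma LT.sub' {T : Finset V} {m : ℕ} {s : Fin (m + 1) → V} (h : LT G T s) (i : Fin (m + 1)) :
    LT G T (s ∘ i.succAbove) :=
  ⟨(h.sub i).1, fun a u hu => (h.sub i).2 a u (Finset.mem_insert_of_mem hu)⟩

lemma LT.notMem {T : Finset V} {m : ℕ} {s : Fin m → V} (h : LT G T s) (i : Fin m) : s i ∉ T :=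
  fun h' => (h.2 i (s i) h').ne rfl

lemma LT.cq {T : Finset V} {m : ℕ} {s : Fin m → V} (h : LT G T s) (hT : Cq G T) (i : Fin m) :
    Cq G (insert (s i) T) := by
  intro a ha b hb hab
  rcases Finset.mem_insert.1 ha with rfl | ha
  · rcases Finset.mem_insert.1 hb with rfl | hb
    · exact absurd rfl hab
    · exact (h.2 i b hb).symm
  · rcases Finset.mem_insert.1 hb with rfl | hb
    · exact h.2 i a ha
    · exact hT a ha b hb hab

variable (S) in
/-- the first cochain of the zigzag -/
noncomputable def mm {k : ℕ} (α : (Fin k → V) → M) (s : Fin k → V) (τ : Finset V) : M :=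
  PF S 1 τ (α s)

lemma Clf.tc_mm (h : Clf G S) {k : ℕ} {α : (Fin k → V) → M}
    (hc : ∀ s : Fin (k + 1) → V, CT G s → tc (Pr S (-1)) α s = 0) {τ : Finset V} (hτ : Cq G τ)
    {s : Fin (k + 1) → V} (hs : LT G τ s) :
    tc (Io (Finset V → M)) (mm S α) s τ = tc Xo (mm S α) s τ := by
  rw [tc_I_apply, tc_X_apply]
  have h1 : tc (Io M) (fun s => mm S α s τ) s = PF S 1 τ (tc (Io M) α s) :=
    tc_comm (Io M) (PF S 1 τ) α s fun _ _ => rfl
  have h2 : tc (Io M) α s =
      ∑ i : Fin (k + 1), (-1 : ℝ) ^ (i : ℕ) • Pr S 1 (s i) (α (s ∘ i.succAbove)) := by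
    have h3 := hc s hs.1
    unfold tc at h3 ⊢
    rw [← add_zero (∑ i : Fin (k + 1), (-1 : ℝ) ^ (i : ℕ) • Pr S 1 (s i) (α (s ∘ i.succAbove))),
      ← h3, ← Finset.sum_add_distrib]
    refine Finset.sum_congr rfl fun i _ => ?_
    rw [← smul_add, Pr_add]
    rfl
  rw [h1, h2, map_sum]
  refine Finset.sum_congr rfl fun i _ => ?_
  rw [map_smul, PF_comm_of]
  · unfold mm
    rw [h.PF_insert 1 (hs.notMem i) (hs.cq hτ i)]
  · intro v hv m
    exact h.S_Pr_comm (hs.2 i v hv) 1 m

lemma Alt.comp_linear {X : Type} {N : Type} [AddCommGroup N] [Module ℝ N] {n : ℕ}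
    {F : (Fin n → X) → M} (hF : Alt F) (A : M →ₗ[ℝ] N) : Alt fun s => A (F s) := by
  intro v i j hij
  simp only
  rw [hF v i j hij, map_neg]

lemma Alt.add' {X : Type} {n : ℕ} {F F' : (Fin n → X) → M} (hF : Alt F) (hF' : Alt F') :
    Alt fun s => F s + F' s := by
  intro v i j hij
  simp only
  rw [hF v i j hij, hF' v i j hij]
  abel

lemma Alt.at {X : Type} {n : ℕ} {F : (Fin n → X) → Finset V → M} (hF : Alt F) (τ : Finset V) :
    Alt fun s => F s τ := by
  intro v i j hij
  simp only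
  rw [hF v i j hij]
  rfl

end general

/-- vector-valued exactness -/
lemma vexact {τ : Finset V} {k : ℕ} {f : (Fin (k + 1) → V) → Ω → ℝ}
    (h : ∀ ω, ∃ g : (Fin k → V) → ℝ, Alt g ∧ ∀ s : Fin (k + 1) → V, LT G τ s →
      f s ω = cobd g s) :
    ∃ g : (Fin k → V) → Ω → ℝ, Alt g ∧ ∀ s : Fin (k + 1) → V, LT G τ s →
      f s = tc (Io (Ω → ℝ)) g s := by
  choose g hg hg' using h
  refine ⟨fun s ω => g ω s, fun v i j hij => ?_, fun s hs => ?_⟩
  · funext ω
    exact hg ω v i j hij
  · funext ω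
    rw [hg' ω s hs]
    unfold tc
    rw [Finset.sum_apply]
    rfl

section

variable {S : V → (Ω → ℝ) →ₗ[ℝ] (Ω → ℝ)} (hS : Clf G S) {n : ℕ} (hn : HSphere n G)
  {z : (Fin n → V) → ℝ} (hz : LCycle G ∅ z) (hz0 : z ≠ 0)
  {B : (Fin (n + 1) → V ⊕ V × V) → ℝ} (hB : Alt B) (hB' : ∀ v, B v ≠ 0 → GT G v)
  (hzB : ∀ y, ∑ x, B (Fin.cons x y) = zh z y)
  {k : ℕ} {α : (Fin (k + 1) → V) → Ω → ℝ} (hα : Sec G S α)
  (hc : ∀ s : Fin (k + 2) → V, CT G s → tc (Pr S (-1)) α s = 0)

/-- the state of the zigzag at level `b` -/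
def Zst (G : SimpleGraph V) (S : V → (Ω → ℝ) →ₗ[ℝ] (Ω → ℝ)) {k : ℕ}
    (α : (Fin (k + 1) → V) → Ω → ℝ) (b : ℕ) : Prop :=
  ∃ p q : (Fin k → V) → Finset V → Ω → ℝ, Alt p ∧ Alt q ∧
    (∀ τ, Cq G τ → τ.card = b → ∀ s, ∀ v ∈ τ, S v (p s τ) = p s τ) ∧
    (∀ τ, Cq G τ → τ.card = b + 1 → ∀ s, ∀ v ∈ τ, S v (q s τ) = q s τ) ∧
    ∀ τ, Cq G τ → τ.card = b → ∀ s : Fin (k + 1) → V, LT G τ s →
      tc (Io (Finset V → Ω → ℝ)) p s τ = mm S α s τ + tc Xo q s τ

include hS in
/-- one step, given the scalar exactness -/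
lemma zig_step {b : ℕ} {q : (Fin k → V) → Finset V → Ω → ℝ} (hq : Alt q)
    (hqi : ∀ τ, Cq G τ → τ.card = b + 1 → ∀ s, ∀ v ∈ τ, S v (q s τ) = q s τ)
    (hαa : Alt α)
    (hex : ∀ τ, Cq G τ → τ.card = b → ∀ ω, ∃ g : (Fin k → V) → ℝ, Alt g ∧
      ∀ s : Fin (k + 1) → V, LT G τ s → (mm S α s τ + tc Xo q s τ) ω = cobd g s) :
    Zst G S α b := by
  have h1 : ∀ τ, Cq G τ → τ.card = b → ∃ g : (Fin k → V) → Ω → ℝ, Alt g ∧
      (∀ s, ∀ v ∈ τ, S v (g s) = g s) ∧ ∀ s : Fin (k + 1) → V, LT G τ s →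
      mm S α s τ + tc Xo q s τ = tc (Io (Ω → ℝ)) g s := by
    intro τ hτ hb
    obtain ⟨g, hg, hg'⟩ := vexact (hex τ hτ hb)
    refine ⟨fun s => PF S 1 τ (g s), hg.comp_linear _, fun s v hv => ?_, fun s hs => ?_⟩
    · rw [hS.S_PF (by norm_num) hτ hv, one_smul]
    · rw [tc_comm (Io (Ω → ℝ)) (PF S 1 τ) g s fun _ _ => rfl, ← hg' s hs]
      refine (PF_of (by norm_num) fun v hv => ?_).symm
      rw [map_add, smul_add, one_smul, one_smul, tc_X_apply, map_sum]
      congr 1
      · unfold mm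
        rw [hS.S_PF (by norm_num) hτ hv, one_smul]
      · refine Finset.sum_congr rfl fun i _ => ?_
        rw [map_smul, hqi _ (hs.cq hτ i) (by
          rw [Finset.card_insert_of_notMem (hs.notMem i), hb]) _ v (Finset.mem_insert_of_mem hv)]
  choose! g hg hgi hgs using h1
  refine ⟨fun s τ => if Cq G τ ∧ τ.card = b then g τ s else 0, q, ?_, hq, ?_, hqi, ?_⟩
  · intro v i j hij
    funext τ
    simp only [Pi.neg_apply]
    split_ifs with h
    · exact hg τ h.1 h.2 v i j hij
    · simp
  · intro τ hτ hb s v hv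
    simp only [if_pos (And.intro hτ hb)]
    exact hgi τ hτ hb s v hv
  · intro τ hτ hb s hs
    rw [tc_I_apply]
    simp only [if_pos (And.intro hτ hb)]
    exact (hgs τ hτ hb s hs).symm

include hS hα in
lemma zig_down (hn : HSphere n G) (hc : ∀ s : Fin (k + 2) → V, CT G s → tc (Pr S (-1)) α s = 0)
    {b : ℕ} (hb : k + 1 + b < n) (h : Zst G S α (b + 1)) : Zst G S α b := by
  obtain ⟨p, q, hp, hq, hpi, hqi, heq⟩ := h
  refine zig_step hS hp hpi hα.alt fun τ hτ hcard ω => ?_
  refine hn.exact hτ (by rw [hcard]; exact hb) ?_ fun s hs => ?_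
  · intro v i j hij
    have h1 : Alt (mm S α) := by
      intro v i j hij
      funext τ
      unfold mm
      rw [hα.alt v i j hij, map_neg]
      rfl
    have h2 : Alt (tc Xo p) := hp.tc _
    simp only
    rw [h1 v i j hij, h2 v i j hij]
    simp only [Pi.neg_apply, Pi.add_apply]
    ring
  · have h1 : cobd (fun s : Fin (k + 1) → V => (mm S α s τ + tc Xo p s τ) ω) s =
        (tc (Io (Finset V → Ω → ℝ)) (fun s => mm S α s + tc Xo p s) s) τ ω := by
      unfold cobd tc
      rw [Finset.sum_apply, Finset.sum_apply]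
      rfl
    rw [h1, tc_add, tc_I_X]
    have h2 : tc Xo (tc (Io (Finset V → Ω → ℝ)) p) s τ = tc Xo (mm S α) s τ := by
      have h3 : tc Xo (tc (Io (Finset V → Ω → ℝ)) p) s τ =
          tc Xo (fun s => mm S α s + tc Xo q s) s τ := by
        rw [tc_X_apply, tc_X_apply]
        refine Finset.sum_congr rfl fun i _ => ?_
        congr 1
        exact heq _ (hs.cq hτ i) (by
          rw [Finset.card_insert_of_notMem (hs.notMem i), hcard]) _ (hs.sub i)
      rw [h3, tc_add, tc_X_X, add_zero]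
    rw [Pi.add_apply, Pi.add_apply, hS.tc_mm hc hτ hs, Pi.neg_apply, Pi.neg_apply, h2]
    ring

lemma list_ofFn_of_length : ∀ {X : Type} {k : ℕ} (l : List X), l.length = k →
    ∃ s : Fin k → X, List.ofFn s = l := by
  rintro X _ l rfl
  exact ⟨l.get, List.ofFn_get l⟩

/-- the norm of the link cycle -/
noncomputable def Nz {n : ℕ} (z : (Fin n → V) → ℝ) (k : ℕ) (t : List V) : ℝ :=
  ∑ s : Fin k → V, ev z (t ++ List.ofFn s) * ev z (t ++ List.ofFn s)

include hn hz hz0 in
lemma Nz_ne {t : List V} (ht : t.Pairwise G.Adj) (hk : t.length + k = n) : Nz z k t ≠ 0 := by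
  obtain ⟨l, hl⟩ := hz.nz hn hz0 t ht
  have hlen := ev_length hl
  rw [List.length_append] at hlen
  obtain ⟨s, rfl⟩ := list_ofFn_of_length (k := k) l (by omega)
  refine ne_of_gt ?_
  exact Finset.sum_pos' (fun _ _ => mul_self_nonneg _) ⟨s, Finset.mem_univ _,
    lt_of_le_of_ne (mul_self_nonneg _) (Ne.symm (mul_self_ne_zero.2 hl))⟩

variable (S) in
/-- the starting cochain as a function of lists -/
noncomputable def st (G : SimpleGraph V) {n N : ℕ} (z : (Fin n → V) → ℝ)
    (B : (Fin N → V ⊕ V × V) → ℝ) {k : ℕ} (α : (Fin (k + 1) → V) → Ω → ℝ) (s : Fin k → V)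
    (t : List V) : Ω → ℝ :=
  ((Nz z k t)⁻¹ * ev z (t ++ List.ofFn s)) • bch G S B α t

include hS hz hB hB' in
lemma st_perm {s : Fin k → V} {t t' : List V} (ht : t.Perm t') :
    st S G z B α s t = st S G z B α s t' := by
  refine sym_of_swap' (fun p x y q => ?_) ht
  have h1 : ∀ l : List V, ev z ((p ++ x :: y :: q) ++ l) = - ev z ((p ++ y :: x :: q) ++ l) := by
    intro l
    have := hz.alt'.ev_swap' p x y (q ++ l)
    simpa using this
  unfold st Nz
  simp only [h1, neg_mul_neg]
  rw [hS.bch_swap hB hB', mul_neg, neg_smul, smul_neg, neg_neg]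

include hS hn hz hz0 hB hB' hzB hα hc in
/-- the start of the zigzag -/
theorem zig_start {l : ℕ} (hl : l + (k + 1) = n) : Zst G S α l := by
  set cst : ℝ := - (-1 : ℝ) ^ l / ((k : ℝ) + 1) with hcst
  have hk1 : ((k : ℝ) + 1) ≠ 0 := by positivity
  set q : (Fin k → V) → Finset V → Ω → ℝ := fun s τ =>
    cst • st S G z B α s τ.toList with hq
  have hqa : Alt q := by
    intro v i j hij
    funext τ
    have := (hz.alt'.ev_ofFn τ.toList k) v i j hij
    simp only at this
    simp only [hq, Pi.neg_apply]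
    unfold st
    rw [this, mul_neg, neg_smul, smul_neg]
  have hqi : ∀ τ, Cq G τ → τ.card = l + 1 → ∀ s, ∀ v ∈ τ, S v (q s τ) = q s τ := by
    intro τ _ _ s v hv
    simp only [hq]
    unfold st
    rw [map_smul, map_smul, hS.bch_pos hB' (Finset.mem_toList.2 hv)]
  refine zig_step hS hqa hqi hα.alt fun τ hτ hcard ω => ?_
  have hpw : τ.toList.Pairwise G.Adj := hτ.pairwise (List.Perm.refl _)
  have hlen : τ.toList.length = l := by rw [Finset.length_toList, hcard]
  have hζ := hz.ev_cycle τ.toList (k + 1)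
  rw [Finset.toList_toFinset] at hζ
  have hζ0 : (fun s : Fin (k + 1) → V => ev z (τ.toList ++ List.ofFn s)) ≠ 0 := by
    intro h0
    obtain ⟨l', hl'⟩ := hz.nz hn hz0 τ.toList hpw
    have hlen' := ev_length hl'
    rw [List.length_append] at hlen'
    obtain ⟨s, rfl⟩ := list_ofFn_of_length (k := k + 1) l' (by omega)
    exact hl' (congrFun h0 s)
  refine hn.exact_top hτ (by rw [hcard]; omega) ?_ hζ hζ0 ?_
  · intro v i j hij
    have h1 : Alt (mm S α) := by
      intro v i j hij
      funext τ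
      unfold mm
      rw [hα.alt v i j hij, map_neg]
      rfl
    have h2 : Alt (tc Xo q) := hqa.tc _
    simp only
    rw [h1 v i j hij, h2 v i j hij]
    simp only [Pi.neg_apply, Pi.add_apply]
    ring
  · -- the pairing
    have hζa : Alt fun s : Fin (k + 1) → V => ev z (τ.toList ++ List.ofFn s) :=
      hz.alt'.ev_ofFn _ _
    have h1 := hS.cap hz.alt' (fun v hv => (hz.supp v hv).1) hB hB' hzB hα hc τ.toList
    have h2 := sum_alt Xo hζa q
    have h3 := congrFun h2 τ
    have h4 : ∀ v : V, ∑ s : Fin k → V, ev z (τ.toList ++ List.ofFn (Fin.cons v s)) •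
        (Xo v (q s)) τ = (cst * (-1 : ℝ) ^ l) • bch G S B α (v :: τ.toList) := by
      intro v
      by_cases hv : (v :: τ.toList).Pairwise G.Adj
      · have hvT : v ∉ τ := by
          intro h'
          exact ((List.pairwise_cons.1 hv).1 v (Finset.mem_toList.2 h')).ne rfl
        have h5 : ∀ s : Fin k → V, (Xo v (q s)) τ = cst • st S G z B α s (v :: τ.toList) := by
          intro s
          change q s (insert v τ) = _
          simp only [hq]
          rw [st_perm hS hz hB hB' (Finset.toList_insert hvT)]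
        have h6 : ∀ s : Fin k → V, ev z (τ.toList ++ List.ofFn (Fin.cons v s)) =
            (-1 : ℝ) ^ l * ev z ((v :: τ.toList) ++ List.ofFn s) := by
          intro s
          rw [List.ofFn_cons, hz.alt'.ev_move, hlen]
          rfl
        simp only [h5, h6]
        unfold st
        have h7 : ∀ s : Fin k → V, ((-1 : ℝ) ^ l * ev z ((v :: τ.toList) ++ List.ofFn s)) •
            cst • ((Nz z k (v :: τ.toList))⁻¹ * ev z ((v :: τ.toList) ++ List.ofFn s)) •
            bch G S B α (v :: τ.toList) = (ev z ((v :: τ.toList) ++ List.ofFn s) *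
            ev z ((v :: τ.toList) ++ List.ofFn s)) • ((cst * (-1 : ℝ) ^ l *
            (Nz z k (v :: τ.toList))⁻¹) • bch G S B α (v :: τ.toList)) := by
          intro s
          rw [smul_smul, smul_smul, smul_smul]
          congr 1
          ring
        rw [Finset.sum_congr rfl fun s _ => h7 s, ← Finset.sum_smul, smul_smul]
        congr 1
        have h8 : Nz z k (v :: τ.toList) ≠ 0 :=
          Nz_ne hn hz hz0 hv (by rw [List.length_cons, hlen]; omega)
        have h9 : ∑ s : Fin k → V, ev z ((v :: τ.toList) ++ List.ofFn s) *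
            ev z ((v :: τ.toList) ++ List.ofFn s) = Nz z k (v :: τ.toList) := rfl
        rw [h9]
        field_simp
      · have h5 : ∀ s : Fin k → V, ev z (τ.toList ++ List.ofFn (Fin.cons v s)) = 0 := by
          intro s
          by_contra h0
          apply hv
          have h6 := pw_ev (fun v hv => (hz.supp v hv).1) h0
          rw [List.ofFn_cons, List.pairwise_append] at h6
          exact List.pairwise_cons.2 ⟨fun u hu => (h6.2.2 u hu v List.mem_cons_self).symm, hpw⟩
        have h6 : bch G S B α (v :: τ.toList) = 0 := by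
          unfold bch
          refine Finset.sum_eq_zero fun μ _ => ?_
          by_cases h0 : ev B ((v :: τ.toList).map Sum.inl ++ List.ofFn μ) = 0
          · rw [h0, zero_smul]
          · exact absurd (gl_of_ev hB' h0).left hv
        simp only [h5, zero_smul, Finset.sum_const_zero, h6, smul_zero]
    have h10 : ∑ s : Fin (k + 1) → V, ev z (τ.toList ++ List.ofFn s) •
        (mm S α s τ + tc Xo q s τ) = 0 := by
      simp only [smul_add, Finset.sum_add_distrib]
      have h11 : ∑ s : Fin (k + 1) → V, ev z (τ.toList ++ List.ofFn s) • mm S α s τ =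
          ∑ v, bch G S B α (v :: τ.toList) := by
        rw [← h1]
        refine Finset.sum_congr rfl fun s _ => ?_
        unfold mm
        rw [PF_apply]
      have h12 : ∑ s : Fin (k + 1) → V, ev z (τ.toList ++ List.ofFn s) • tc Xo q s τ =
          - ∑ v, bch G S B α (v :: τ.toList) := by
        have h13 : ∑ s : Fin (k + 1) → V, ev z (τ.toList ++ List.ofFn s) • tc Xo q s τ =
            (∑ s : Fin (k + 1) → V, ev z (τ.toList ++ List.ofFn s) • tc Xo q s) τ := by
          rw [Finset.sum_apply]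
          rfl
        rw [h13, h3, Pi.smul_apply, Finset.sum_apply]
        have h14 : ∀ v : V, (∑ s : Fin k → V, ev z (τ.toList ++ List.ofFn (Fin.cons v s)) •
            Xo v (q s)) τ = (cst * (-1 : ℝ) ^ l) • bch G S B α (v :: τ.toList) := by
          intro v
          rw [← h4 v, Finset.sum_apply]
          rfl
        rw [Finset.sum_congr rfl fun v _ => h14 v, ← Finset.smul_sum, smul_smul]
        have h15 : ((k : ℝ) + 1) * (cst * (-1 : ℝ) ^ l) = -1 := by
          have h16 : (-1 : ℝ) ^ l * (-1 : ℝ) ^ l = 1 := by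
            rw [← mul_pow]; simp
          rw [hcst]
          field_simp
          linarith
        rw [h15, neg_smul, one_smul]
      rw [h11, h12, add_neg_cancel]
    have h17 := congrFun h10 ω
    rw [Finset.sum_apply] at h17
    exact h17

include hS hn hz hz0 hB hB' hzB hα hc in
theorem zig_end (hk : k + 1 ≤ n) : Zst G S α 0 := by
  have key : ∀ j b : ℕ, b + j + (k + 1) = n → Zst G S α b := by
    intro j
    induction j with
    | zero =>
      intro b hb
      exact zig_start hS hn hz hz0 hB hB' hzB hα hc (by omega)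
    | succ j ih =>
      intro b hb
      exact zig_down hS hα hn hc (by omega) (ih (b + 1) (by omega))
  exact key (n - (k + 1)) 0 (by omega)

lemma image_succAbove {m : ℕ} (s : Fin (m + 1) → V) (i : Fin (m + 1)) :
    Finset.univ.image s = insert (s i) (Finset.univ.image (s ∘ i.succAbove)) := by
  ext v
  simp only [Finset.mem_image, Finset.mem_univ, true_and, Finset.mem_insert, Function.comp_apply]
  constructor
  · rintro ⟨j, rfl⟩
    by_cases hj : j = i
    · exact Or.inl (by rw [hj])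
    · obtain ⟨l, hl⟩ := Fin.exists_succAbove_eq hj
      exact Or.inr ⟨l, by rw [hl]⟩
  · rintro (rfl | ⟨l, rfl⟩)
    · exact ⟨i, rfl⟩
    · exact ⟨_, rfl⟩

lemma cq_image {m : ℕ} {s : Fin m → V} (hs : CT G s) : Cq G (Finset.univ.image s) := by
  intro a ha b hb hab
  rw [Finset.mem_image] at ha hb
  obtain ⟨i, _, rfl⟩ := ha
  obtain ⟨j, _, rfl⟩ := hb
  exact hs i j fun e => hab (by rw [e])

lemma image_swap {m : ℕ} (s : Fin m → V) (i j : Fin m) :
    Finset.univ.image (s ∘ Equiv.swap i j) = Finset.univ.image s := by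
  ext v
  simp only [Finset.mem_image, Finset.mem_univ, true_and, Function.comp_apply]
  constructor
  · rintro ⟨k, rfl⟩; exact ⟨_, rfl⟩
  · rintro ⟨k, rfl⟩; exact ⟨Equiv.swap i j k, by simp⟩

lemma ct_swap {m : ℕ} {s : Fin m → V} (i j : Fin m) : CT G (s ∘ Equiv.swap i j) ↔ CT G s := by
  constructor
  · intro h a b hab
    have := h (Equiv.swap i j a) (Equiv.swap i j b) fun e => hab ((Equiv.swap i j).injective e)
    simpa using this
  · intro h a b hab
    exact h _ _ fun e => hab ((Equiv.swap i j).injective e)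

include hS hn hz hz0 hB hB' hzB hα hc in
/-- exactness in positive degrees -/
theorem exact_pos (hk : k + 1 ≤ n) :
    ∃ γ : (Fin k → V) → Ω → ℝ, Sec G S γ ∧ ∀ s : Fin (k + 1) → V, CT G s →
      α s = tc (Pr S (-1)) γ s := by
  obtain ⟨p, q, hp, hq, _, hqi, heq⟩ := zig_end hS hn hz hz0 hB hB' hzB hα hc hk
  set γ : (Fin k → V) → Ω → ℝ := fun s =>
    if CT G s then PF S (-1) (Finset.univ.image s) (p s ∅) else 0 with hγ
  refine ⟨γ, ⟨?_, ?_, ?_⟩, ?_⟩
  · intro v i j hij
    simp only [hγ]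
    by_cases h : CT G v
    · rw [if_pos ((ct_swap i j).2 h), if_pos h, image_swap, hp v i j hij, Pi.neg_apply, map_neg]
    · rw [if_neg fun h' => h ((ct_swap i j).1 h'), if_neg h, neg_zero]
  · intro s hs
    by_contra h
    exact hs (if_neg h)
  · intro s i
    simp only [hγ]
    split_ifs with h
    · rw [hS.S_PF (by norm_num) (cq_image h) (Finset.mem_image_of_mem s (Finset.mem_univ i)),
        neg_smul, one_smul]
    · simp
  · intro s hs
    have h0 : Cq G (∅ : Finset V) := fun a ha => absurd ha (Finset.notMem_empty a)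
    have hLT : LT G ∅ s := ⟨hs, fun i u hu => absurd hu (Finset.notMem_empty u)⟩
    have h1 := heq ∅ h0 rfl s hLT
    unfold mm at h1
    rw [PF_empty] at h1
    have h2 : α s = tc (Io (Finset V → Ω → ℝ)) p s ∅ - tc Xo q s ∅ := by
      rw [h1]; abel
    have hC := cq_image hs
    have h3 : PF S (-1) (Finset.univ.image s) (α s) = α s := by
      refine PF_of (by norm_num) fun v hv => ?_
      obtain ⟨i, _, rfl⟩ := Finset.mem_image.1 hv
      rw [hα.neg, neg_smul, one_smul]
    rw [← h3, h2, map_sub, tc_X_apply, tc_I_apply, map_sum]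
    have h4 : ∑ i : Fin (k + 1), PF S (-1) (Finset.univ.image s)
        ((-1 : ℝ) ^ (i : ℕ) • q (s ∘ i.succAbove) (insert (s i) ∅)) = 0 := by
      refine Finset.sum_eq_zero fun i _ => ?_
      rw [map_smul, hS.PF_zero (by norm_num) hC (v := s i)
        (Finset.mem_image_of_mem s (Finset.mem_univ i)), smul_zero]
      rw [neg_neg, one_smul]
      refine hqi _ ?_ ?_ _ _ (Finset.mem_insert_self _ _)
      · exact hLT.cq h0 i
      · simp
    rw [h4, sub_zero]
    unfold tc
    rw [map_sum]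
    refine Finset.sum_congr rfl fun i _ => ?_
    rw [map_smul]
    congr 1
    have hsub : CT G (s ∘ i.succAbove) := fun a b hab =>
      hs _ _ fun e => hab (Fin.succAbove_right_injective e)
    have hni : s i ∉ Finset.univ.image (s ∘ i.succAbove) := by
      intro h'
      obtain ⟨j, _, hj⟩ := Finset.mem_image.1 h'
      exact (hs _ _ (Fin.succAbove_ne i j)).ne hj
    have e := image_succAbove s i
    rw [e, hS.PF_insert (-1) hni (by rw [← e]; exact hC)]
    simp only [hγ]
    rw [if_pos hsub]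
    rfl

end



end Pool.Agent.K4H70.SV
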