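import Pool.Agent.K4H70.SV.Alt

/-!
More on alternating functions: sums, compositions of twisted coboundaries, evaluation at lists.
-/

set_option autoImplicit false
set_option linter.unusedSectionVars false

open scoped Classical

namespace Pool.Agent.K4H70.SV

open Pool.Agent.Q134.SV

variable {X : Type} {M : Type} [AddCommGroup M] [Module ℝ M]

omit [Module ℝ M] in
lemma alt_of {n : ℕ} {F : (Fin (n + 2) → X) → M}
    (hs : ∀ (v : Fin (n + 2) → X) (i j : Fin (n + 1)), i ≠ j →
      F (v ∘ Equiv.swap i.succ j.succ) = - F v)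
    (h01 : ∀ v : Fin (n + 2) → X, F (v ∘ Equiv.swap 0 1) = - F v) : Alt F := by
  have key : ∀ (v : Fin (n + 2) → X) (j : Fin (n + 1)), F (v ∘ Equiv.swap 0 j.succ) = - F v := by
    intro v j
    by_cases hj : j = 0
    · subst hj; exact h01 v
    · have h0 : (0 : Fin (n + 1)) ≠ j := fun e => hj e.symm
      have e : Equiv.swap (0 : Fin (n + 2)) j.succ =
          Equiv.swap (Fin.succ 0) j.succ * (Equiv.swap 0 (Fin.succ 0) *
            Equiv.swap (Fin.succ 0) j.succ) := by
        rw [← mul_assoc, Equiv.swap_mul_swap_mul_swap (Fin.succ_ne_zero _).symm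
          (Fin.succ_ne_zero _).symm, Equiv.swap_comm]
      have e2 : v ∘ Equiv.swap (0 : Fin (n + 2)) j.succ =
          ((v ∘ Equiv.swap (Fin.succ 0) j.succ) ∘ Equiv.swap 0 1) ∘
            Equiv.swap (Fin.succ 0) j.succ := by
        rw [e]; rfl
      rw [e2, hs _ _ _ h0, h01, hs _ _ _ h0]
      abel
  intro v i j hij
  rcases Fin.eq_zero_or_eq_succ i with rfl | ⟨i, rfl⟩
  · rcases Fin.eq_zero_or_eq_succ j with rfl | ⟨j, rfl⟩
    · exact absurd rfl hij
    · exact key v j
  · rcases Fin.eq_zero_or_eq_succ j with rfl | ⟨j, rfl⟩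
    · rw [Equiv.swap_comm]; exact key v i
    · exact hs v i j fun e => hij (by rw [e])

lemma tc_add (P : X → M →ₗ[ℝ] M) {n : ℕ} (F F' : (Fin n → X) → M) (v : Fin (n + 1) → X) :
    tc P (fun y => F y + F' y) v = tc P F v + tc P F' v := by
  unfold tc
  rw [← Finset.sum_add_distrib]
  exact Finset.sum_congr rfl fun i _ => by rw [map_add, smul_add]

lemma tc_sub (P : X → M →ₗ[ℝ] M) {n : ℕ} (F F' : (Fin n → X) → M) (v : Fin (n + 1) → X) :
    tc P (fun y => F y - F' y) v = tc P F v - tc P F' v := by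
  unfold tc
  rw [← Finset.sum_sub_distrib]
  exact Finset.sum_congr rfl fun i _ => by rw [map_sub, smul_sub]

lemma tc_smul (P : X → M →ₗ[ℝ] M) {n : ℕ} (r : ℝ) (F : (Fin n → X) → M) (v : Fin (n + 1) → X) :
    tc P (fun y => r • F y) v = r • tc P F v := by
  unfold tc
  rw [Finset.smul_sum]
  exact Finset.sum_congr rfl fun i _ => by rw [map_smul, smul_comm]

lemma tc_congr (P : X → M →ₗ[ℝ] M) {n : ℕ} {F F' : (Fin n → X) → M} {v : Fin (n + 1) → X}
    (h : ∀ i : Fin (n + 1), F (v ∘ i.succAbove) = F' (v ∘ i.succAbove)) : tc P F v = tc P F' v := by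
  unfold tc
  exact Finset.sum_congr rfl fun i _ => by rw [h]

lemma tc_comm (P : X → M →ₗ[ℝ] M) (A : M →ₗ[ℝ] M) {n : ℕ} (F : (Fin n → X) → M)
    (v : Fin (n + 1) → X) (h : ∀ i m, P (v i) (A m) = A (P (v i) m)) :
    tc P (fun y => A (F y)) v = A (tc P F v) := by
  unfold tc
  rw [map_sum]
  exact Finset.sum_congr rfl fun i _ => by rw [map_smul, h]

/-- twisted coboundaries with commuting operators anticommute -/
theorem tc_tc (P Q : X → M →ₗ[ℝ] M) : ∀ {n : ℕ} (F : (Fin n → X) → M) (v : Fin (n + 2) → X),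
    (∀ i j, i ≠ j → ∀ m, P (v i) (Q (v j) m) = Q (v j) (P (v i) m)) →
    tc P (tc Q F) v + tc Q (tc P F) v = 0
  | 0, F, v, h => by
      obtain ⟨x, g, rfl⟩ : ∃ x g, v = (Fin.cons x g : Fin 2 → X) :=
        ⟨v 0, Fin.tail v, (Fin.cons_self_tail v).symm⟩
      have h3 := h 0 1 (by simp) (F Fin.elim0)
      have h4 := h 1 0 (by simp) (F Fin.elim0)
      have e : (Fin.cons x g : Fin 2 → X) 1 = g 0 := rfl
      rw [Fin.cons_zero, e] at h3 h4
      rw [tc_cons, tc_cons]
      simp only [tc_one, Fin.cons_zero]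
      rw [h3, h4]
      abel
  | n + 1, F, v, h => by
      obtain ⟨x, g, rfl⟩ : ∃ x g, v = (Fin.cons x g : Fin (n + 3) → X) :=
        ⟨v 0, Fin.tail v, (Fin.cons_self_tail v).symm⟩
      rw [tc_cons, tc_cons]
      have h1 : (fun g' : Fin (n + 1) → X => tc Q F (Fin.cons x g')) = fun g' =>
          Q x (F g') - tc Q (fun g'' => F (Fin.cons x g'')) g' := by
        funext g'
        exact tc_cons Q F x g'
      have h2 : (fun g' : Fin (n + 1) → X => tc P F (Fin.cons x g')) = fun g' =>
          P x (F g') - tc P (fun g'' => F (Fin.cons x g'')) g' := by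
        funext g'
        exact tc_cons P F x g'
      rw [h1, h2, tc_sub, tc_sub, tc_comm P (Q x), tc_comm Q (P x)]
      · have := tc_tc P Q (fun g'' => F (Fin.cons x g'')) g fun i j hij m => by
          have := h i.succ j.succ (fun e => hij (Fin.succ_injective _ e)) m
          simpa using this
        have e : ∀ a b c d e' f : M, e' + f = 0 → a - (b - e') + (c - (d - f)) = (a - d) + (c - b) := by
          intro a b c d e' f hef
          have : a - (b - e') + (c - (d - f)) = (a - d) + (c - b) + (e' + f) := by abel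
          rw [this, hef, add_zero]
        rw [e _ _ _ _ _ _ this, sub_self, sub_self, add_zero]
      · intro i m
        have := h 0 i.succ (Fin.succ_ne_zero _).symm m
        rw [Fin.cons_zero, Fin.cons_succ] at this
        exact this.symm
      · intro i m
        have := h i.succ 0 (Fin.succ_ne_zero _) m
        rw [Fin.cons_zero, Fin.cons_succ] at this
        exact this

/-- integration by parts -/
theorem sum_alt [Fintype X] (P : X → M →ₗ[ℝ] M) {n : ℕ} {K : (Fin (n + 1) → X) → ℝ} (hK : Alt K)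
    (F : (Fin n → X) → M) : ∑ v : Fin (n + 1) → X, K v • tc P F v =
      ((n : ℝ) + 1) • ∑ x : X, ∑ y : Fin n → X, K (Fin.cons x y) • P x (F y) := by
  have h1 : ∀ i : Fin (n + 1), ∑ v : Fin (n + 1) → X,
      K v • ((-1 : ℝ) ^ (i : ℕ) • P (v i) (F (v ∘ i.succAbove))) =
      ∑ x : X, ∑ y : Fin n → X, K (Fin.cons x y) • P x (F y) := by
    intro i
    rw [← Equiv.sum_comp (Fin.insertNthEquiv (fun _ : Fin (n + 1) => X) i),
      Fintype.sum_prod_type]
    refine Finset.sum_congr rfl fun x _ => Finset.sum_congr rfl fun y _ => ?_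
    have e1 : (Fin.insertNthEquiv (fun _ : Fin (n + 1) => X) i) (x, y) i = x := by simp
    have e2 : (Fin.insertNthEquiv (fun _ : Fin (n + 1) => X) i) (x, y) ∘ i.succAbove = y := by
      funext k
      simp
    rw [hK.move _ i, e1, e2, smul_eq_mul, smul_smul]
    congr 1
    rw [mul_comm, ← mul_assoc, ← mul_pow]
    simp
  unfold tc
  simp only [Finset.smul_sum]
  rw [Finset.sum_comm, Finset.sum_congr rfl fun i _ => h1 i, Finset.sum_const, Finset.card_univ,
    Fintype.card_fin, ← Nat.cast_smul_eq_nsmul ℝ]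
  push_cast
  simp only [Finset.smul_sum]

/-! ### Evaluation at lists -/

/-- the value at a list -/
def ev : ∀ {n : ℕ}, ((Fin n → X) → M) → List X → M
  | 0, z, [] => z Fin.elim0
  | 0, _, _ :: _ => 0
  | _ + 1, _, [] => 0
  | _ + 1, z, v :: l => ev (fun y => z (Fin.cons v y)) l

omit [Module ℝ M] in
lemma ev_cons {n : ℕ} (z : (Fin (n + 1) → X) → M) (v : X) (l : List X) :
    ev z (v :: l) = ev (fun y => z (Fin.cons v y)) l := rfl

omit [Module ℝ M] in
lemma ev_ofFn : ∀ {n : ℕ} (z : (Fin n → X) → M) (s : Fin n → X), ev z (List.ofFn s) = z s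
  | 0, z, s => by
    rw [List.ofFn_zero]
    exact congrArg z (Subsingleton.elim _ _)
  | n + 1, z, s => by
    rw [List.ofFn_succ, ev_cons, ev_ofFn]
    exact congrArg z (Fin.cons_self_tail s)

omit [Module ℝ M] in
lemma ev_ne : ∀ {n : ℕ} {z : (Fin n → X) → M} {l : List X}, ev z l ≠ 0 →
    ∃ y : Fin n → X, l = List.ofFn y ∧ z y ≠ 0
  | 0, z, [], h => ⟨Fin.elim0, by simp, h⟩
  | 0, z, _ :: _, h => absurd rfl h
  | n + 1, z, [], h => absurd rfl h
  | n + 1, z, v :: l, h => by
    obtain ⟨y, hy, hz⟩ := ev_ne (n := n) (z := fun y => z (Fin.cons v y)) (l := l) h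
    exact ⟨Fin.cons v y, by rw [List.ofFn_cons, hy], hz⟩

omit [Module ℝ M] in
lemma ev_neg : ∀ {n : ℕ} (z : (Fin n → X) → M) (l : List X), ev (fun y => - z y) l = - ev z l
  | 0, z, [] => rfl
  | 0, z, _ :: _ => by simp [ev]
  | n + 1, z, [] => by simp [ev]
  | n + 1, z, v :: l => by rw [ev_cons, ev_cons, ev_neg]

omit [Module ℝ M] in
lemma ev_sum [Fintype X] : ∀ {n : ℕ} (z : X → (Fin n → X) → M) (l : List X),
    ev (fun y => ∑ x, z x y) l = ∑ x, ev (z x) l
  | 0, z, [] => rfl
  | 0, z, _ :: _ => by simp [ev]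
  | n + 1, z, [] => by simp [ev]
  | n + 1, z, v :: l => by
    rw [ev_cons, ev_sum (fun x y => z x (Fin.cons v y))]
    rfl

lemma Alt.ev_swap {n : ℕ} {z : (Fin n → X) → M} (h : Alt z) (x y : X) (l : List X) :
    ev z (x :: y :: l) = - ev z (y :: x :: l) := by
  cases n with
  | zero => simp [ev]
  | succ n =>
    cases n with
    | zero => simp [ev]
    | succ n =>
      rw [ev_cons, ev_cons, ev_cons, ev_cons, ← ev_neg]
      congr 1
      funext w
      rw [← cons_cons_swap, h _ _ _ (by simp)]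

lemma Alt.ev_swap' {n : ℕ} {z : (Fin n → X) → M} (h : Alt z) (p : List X) (x y : X) (l : List X) :
    ev z (p ++ x :: y :: l) = - ev z (p ++ y :: x :: l) := by
  induction p generalizing n with
  | nil => exact h.ev_swap x y l
  | cons v p ih =>
    cases n with
    | zero => simp [ev]
    | succ n =>
      rw [List.cons_append, List.cons_append, ev_cons, ev_cons]
      exact ih (h.cons v)

lemma Alt.ev_move {n : ℕ} {z : (Fin n → X) → M} (h : Alt z) (p : List X) (x : X) (l : List X) :
    ev z (p ++ x :: l) = (-1 : ℝ) ^ p.length • ev z (x :: (p ++ l)) := by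
  induction p generalizing n with
  | nil => simp
  | cons v p ih =>
    cases n with
    | zero => simp [ev]
    | succ n =>
      rw [List.cons_append, ev_cons, ih (h.cons v), ← ev_cons, h.ev_swap, List.length_cons,
        pow_succ, smul_neg, List.cons_append, mul_neg, mul_one, neg_smul]

lemma Alt.ev_ofFn {n : ℕ} {z : (Fin n → X) → M} (h : Alt z) (t : List X) (k : ℕ) :
    Alt fun s : Fin k → X => ev z (t ++ List.ofFn s) := by
  induction t generalizing n with
  | nil =>
    by_cases hk : k = n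
    · subst hk
      intro v i j hij
      simp only [List.nil_append, Pool.Agent.K4H70.SV.ev_ofFn]
      exact h v i j hij
    · intro v i j hij
      have h0 : ∀ s : Fin k → X, ev z ([] ++ List.ofFn s) = 0 := by
        intro s
        by_contra h1
        obtain ⟨y, hy, _⟩ := ev_ne h1
        have := congrArg List.length hy
        simp at this
        exact hk this
      simp only [h0, neg_zero]
  | cons v t ih =>
    cases n with
    | zero =>
      intro v i j hij
      simp [ev]
    | succ n => exact ih (h.cons v)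

lemma Alt.ev_sum_zero [Fintype X] {n : ℕ} {z : (Fin (n + 1) → X) → M} (h : Alt z)
    (hc : ∀ y, ∑ x, z (Fin.cons x y) = 0) (t l : List X) : ∑ x, ev z (t ++ x :: l) = 0 := by
  have h1 : ∀ x, ev z (t ++ x :: l) =
      (-1 : ℝ) ^ t.length • ev (fun y => z (Fin.cons x y)) (t ++ l) := by
    intro x
    rw [h.ev_move, ev_cons]
  rw [Finset.sum_congr rfl fun x _ => h1 x, ← Finset.smul_sum, ← ev_sum]
  simp only [hc]
  have : ev (fun _ : Fin n → X => (0 : M)) (t ++ l) = 0 := by
    by_contra h2
    obtain ⟨y, _, hy⟩ := ev_ne h2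
    exact hy rfl
  rw [this, smul_zero]

/-- symmetric functions of lists -/
lemma sym_of_swap {N : Type} {F : List X → N} (h : ∀ p x y q, F (p ++ x :: y :: q) =
    F (p ++ y :: x :: q)) {l l' : List X} (hl : l.Perm l') (p : List X) :
    F (p ++ l) = F (p ++ l') := by
  induction hl generalizing p with
  | nil => rfl
  | cons x _ ih =>
    have := ih (p ++ [x])
    simpa using this
  | swap x y l => exact (h p x y l).symm
  | trans _ _ ih1 ih2 => exact (ih1 p).trans (ih2 p)

lemma sym_of_swap' {N : Type} {F : List X → N} (h : ∀ p x y q, F (p ++ x :: y :: q) =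
    F (p ++ y :: x :: q)) {l l' : List X} (hl : l.Perm l') : F l = F l' := by
  simpa using sym_of_swap h hl []

end Pool.Agent.K4H70.SV
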