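import Pool.Agent.K4H70.SV.Desc

/-!
Alternating functions with values in vector spaces, and twisted coboundaries.
-/

set_option autoImplicit false

open scoped Classical

namespace Pool.Agent.K4H70.SV

open Pool.Agent.Q134.SV

variable {X : Type} {M : Type} [AddCommGroup M] [Module ℝ M]

/-- alternating functions -/
def Alt {n : ℕ} (F : (Fin n → X) → M) : Prop :=
  ∀ (v : Fin n → X) (i j : Fin n), i ≠ j → F (v ∘ Equiv.swap i j) = - F v

lemma Alt.self {n : ℕ} {F : (Fin n → X) → M} (h : Alt F) (v : Fin n → X) {i j : Fin n}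
    (hij : i ≠ j) (he : v i = v j) : F v = 0 := by
  have h1 := h v i j hij
  have h2 : v ∘ Equiv.swap i j = v := by
    funext k
    simp only [Function.comp_apply]
    by_cases hk : k = i
    · subst hk; rw [Equiv.swap_apply_left, he]
    · by_cases hk' : k = j
      · subst hk'; rw [Equiv.swap_apply_right, he]
      · rw [Equiv.swap_apply_of_ne_of_ne hk hk']
  rw [h2] at h1
  have h3 : (2 : ℝ) • F v = 0 := by
    rw [two_smul]
    nth_rewrite 1 [h1]
    exact neg_add_cancel _
  exact (smul_eq_zero.1 h3).resolve_left (by norm_num)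

lemma Alt.perm {n : ℕ} {F : (Fin n → X) → M} (h : Alt F) (π : Equiv.Perm (Fin n))
    (v : Fin n → X) : F (v ∘ π) = ((Equiv.Perm.sign π : ℤ) : ℝ) • F v := by
  induction π using Equiv.Perm.swap_induction_on generalizing v with
  | one => simp
  | swap_mul σ x y hxy ih =>
    have : v ∘ ⇑(Equiv.swap x y * σ) = (v ∘ Equiv.swap x y) ∘ σ := rfl
    rw [this, ih, h _ _ _ hxy, Equiv.Perm.sign_mul, Equiv.Perm.sign_swap hxy]
    simp

lemma Alt.move {n : ℕ} {F : (Fin (n + 1) → X) → M} (h : Alt F) (v : Fin (n + 1) → X)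
    (k : Fin (n + 1)) :
    F v = (-1 : ℝ) ^ (k : ℕ) • F (Fin.cons (v k) (v ∘ k.succAbove)) := by
  have h1 : (Fin.cons (v k) (v ∘ k.succAbove) : Fin (n + 1) → X) ∘ k.cycleRange = v := by
    rw [Fin.cons_comp_cycleRange]
    exact Fin.insertNth_self_removeNth k v
  have h2 := h.perm k.cycleRange (Fin.cons (v k) (v ∘ k.succAbove))
  rw [h1, Fin.sign_cycleRange] at h2
  rw [h2]
  congr 1
  push_cast
  rfl

lemma cons_swap {n : ℕ} (x : X) (v : Fin n → X) (i j : Fin n) :
    (Fin.cons x v : Fin (n + 1) → X) ∘ Equiv.swap i.succ j.succ =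
      Fin.cons x (v ∘ Equiv.swap i j) := by
  funext k
  refine Fin.cases ?_ (fun k => ?_) k
  · simp only [Function.comp_apply, Fin.cons_zero]
    rw [Equiv.swap_apply_of_ne_of_ne (Fin.succ_ne_zero _).symm (Fin.succ_ne_zero _).symm,
      Fin.cons_zero]
  · simp only [Function.comp_apply, Fin.cons_succ]
    have : Equiv.swap i.succ j.succ k.succ = (Equiv.swap i j k).succ := by
      by_cases h1 : k = i
      · subst h1; simp
      · by_cases h2 : k = j
        · subst h2; simp
        · rw [Equiv.swap_apply_of_ne_of_ne h1 h2, Equiv.swap_apply_of_ne_of_ne]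
          · exact fun e => h1 (Fin.succ_injective _ e)
          · exact fun e => h2 (Fin.succ_injective _ e)
    rw [this, Fin.cons_succ]

lemma cons_cons_swap {n : ℕ} (x y : X) (v : Fin n → X) :
    (Fin.cons x (Fin.cons y v : Fin (n + 1) → X) : Fin (n + 2) → X) ∘ Equiv.swap 0 1 =
      Fin.cons y (Fin.cons x v : Fin (n + 1) → X) := by
  funext k
  refine Fin.cases ?_ (fun k => ?_) k
  · simp only [Function.comp_apply, Equiv.swap_apply_left, Fin.cons_zero]
    exact Fin.cons_succ (α := fun _ => X) x (Fin.cons y v) 0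
  · refine Fin.cases ?_ (fun k => ?_) k
    · simp only [Function.comp_apply]
      have : Equiv.swap (0 : Fin (n + 2)) 1 (Fin.succ 0) = 0 := Equiv.swap_apply_right _ _
      rw [this, Fin.cons_zero, Fin.cons_succ, Fin.cons_zero]
    · simp only [Function.comp_apply]
      have : Equiv.swap (0 : Fin (n + 2)) 1 k.succ.succ = k.succ.succ :=
        Equiv.swap_apply_of_ne_of_ne (Fin.succ_ne_zero _)
          (fun e => Fin.succ_ne_zero k (Fin.succ_injective _ e))
      rw [this]
      simp

omit [Module ℝ M] in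
lemma Alt.cons {n : ℕ} {F : (Fin (n + 1) → X) → M} (h : Alt F) (x : X) :
    Alt fun y => F (Fin.cons x y) := by
  intro v i j hij
  simp only
  rw [← cons_swap, h _ _ _ fun e => hij (Fin.succ_injective _ e)]

/-- the twisted coboundary -/
noncomputable def tc (P : X → M →ₗ[ℝ] M) {n : ℕ} (F : (Fin n → X) → M) (v : Fin (n + 1) → X) : M :=
  ∑ i : Fin (n + 1), (-1 : ℝ) ^ (i : ℕ) • P (v i) (F (v ∘ i.succAbove))

lemma tc_cons (P : X → M →ₗ[ℝ] M) {n : ℕ} (F : (Fin (n + 1) → X) → M) (x : X)
    (g : Fin (n + 1) → X) :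
    tc P F (Fin.cons x g) = P x (F g) - tc P (fun g' => F (Fin.cons x g')) g := by
  unfold tc
  rw [Fin.sum_univ_succ]
  simp only [Fin.val_zero, pow_zero, one_smul, Fin.cons_zero, cons_comp_zero, Fin.cons_succ,
    cons_comp_succ, Fin.val_succ, pow_succ, mul_neg, mul_one, neg_smul, Finset.sum_neg_distrib]
  rw [sub_eq_add_neg]

lemma tc_one (P : X → M →ₗ[ℝ] M) (F : (Fin 0 → X) → M) (v : Fin 1 → X) :
    tc P F v = P (v 0) (F Fin.elim0) := by
  unfold tc
  rw [Fin.sum_univ_one]
  simp only [Fin.val_zero, pow_zero, one_smul]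
  congr 2
  exact Subsingleton.elim _ _

theorem Alt.tc {n : ℕ} {F : (Fin n → X) → M} (h : Alt F) (P : X → M →ₗ[ℝ] M) :
    Alt (tc P F) := by
  induction n with
  | zero =>
    intro v i j hij
    exact absurd (Fin.ext (by omega)) hij
  | succ n ih =>
    have hs : ∀ (v : Fin (n + 2) → X) (i j : Fin (n + 1)), i ≠ j →
        Pool.Agent.K4H70.SV.tc P F (v ∘ Equiv.swap i.succ j.succ) =
          - Pool.Agent.K4H70.SV.tc P F v := by
      intro v i j hij
      obtain ⟨x, g, rfl⟩ : ∃ x g, v = (Fin.cons x g : Fin (n + 2) → X) :=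
        ⟨v 0, Fin.tail v, (Fin.cons_self_tail v).symm⟩
      rw [cons_swap, tc_cons, tc_cons, h _ _ _ hij, ih (h.cons x) _ _ _ hij, map_neg]
      abel
    have h01 : ∀ (v : Fin (n + 2) → X), Pool.Agent.K4H70.SV.tc P F (v ∘ Equiv.swap 0 1) =
          - Pool.Agent.K4H70.SV.tc P F v := by
      intro v
      obtain ⟨x, g, rfl⟩ : ∃ x g, v = (Fin.cons x g : Fin (n + 2) → X) :=
        ⟨v 0, Fin.tail v, (Fin.cons_self_tail v).symm⟩
      obtain ⟨y, w, rfl⟩ : ∃ y w, g = (Fin.cons y w : Fin (n + 1) → X) :=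
        ⟨g 0, Fin.tail g, (Fin.cons_self_tail g).symm⟩
      rw [cons_cons_swap, tc_cons, tc_cons]
      cases n with
      | zero =>
        rw [tc_one, tc_one, Subsingleton.elim w Fin.elim0]
        simp only [Fin.cons_zero]
        abel
      | succ n =>
        rw [tc_cons, tc_cons]
        have h3 : (fun g' : Fin n → X => F (Fin.cons y (Fin.cons x g' : Fin (n + 1) → X))) =
            fun g' => - F (Fin.cons x (Fin.cons y g' : Fin (n + 1) → X)) := by
          funext g'
          rw [← cons_cons_swap, h _ _ _ (by simp)]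
        rw [h3]
        have h4 : Pool.Agent.K4H70.SV.tc P
            (fun g' : Fin n → X => - F (Fin.cons x (Fin.cons y g' : Fin (n + 1) → X))) w =
            - Pool.Agent.K4H70.SV.tc P
            (fun g' : Fin n → X => F (Fin.cons x (Fin.cons y g' : Fin (n + 1) → X))) w := by
          unfold Pool.Agent.K4H70.SV.tc
          simp
        rw [h4]
        abel
    have key : ∀ (v : Fin (n + 2) → X) (j : Fin (n + 1)),
        Pool.Agent.K4H70.SV.tc P F (v ∘ Equiv.swap 0 j.succ) =
          - Pool.Agent.K4H70.SV.tc P F v := by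
      intro v j
      by_cases hj : j = 0
      · subst hj; exact h01 v
      · have h0 : (0 : Fin (n + 1)) ≠ j := fun e => hj e.symm
        have e : Equiv.swap (0 : Fin (n + 2)) j.succ =
            Equiv.swap (Fin.succ 0) j.succ * (Equiv.swap 0 (Fin.succ 0) *
              Equiv.swap (Fin.succ 0) j.succ) := by
          rw [← mul_assoc, Equiv.swap_mul_swap_mul_swap (Fin.succ_ne_zero _).symm
            (Fin.succ_ne_zero _).symm, Equiv.swap_comm]
        have e2 : v ∘ Equiv.swap (0 : Fin (n + 2)) j.succ =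
            ((v ∘ Equiv.swap (Fin.succ 0) j.succ) ∘ Equiv.swap 0 1) ∘
              Equiv.swap (Fin.succ 0) j.succ := by
          rw [e]; rfl
        rw [e2, hs _ _ _ h0, h01, hs _ _ _ h0]
        abel
    intro v i j hij
    rcases Fin.eq_zero_or_eq_succ i with rfl | ⟨i, rfl⟩
    · rcases Fin.eq_zero_or_eq_succ j with rfl | ⟨j, rfl⟩
      · exact absurd rfl hij
      · exact key v j
    · rcases Fin.eq_zero_or_eq_succ j with rfl | ⟨j, rfl⟩
      · rw [Equiv.swap_comm]; exact key v i
      · exact hs v i j fun e => hij (by rw [e])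

lemma cobd_eq_tc {n : ℕ} (b : (Fin n → X) → ℝ) (v : Fin (n + 1) → X) :
    cobd b v = tc (fun _ => LinearMap.id) b v := rfl

lemma Alt.cobd {n : ℕ} {b : (Fin n → X) → ℝ} (h : Alt b) : Alt (cobd b) :=
  fun v i j hij => h.tc (fun _ => LinearMap.id) v i j hij

end Pool.Agent.K4H70.SV
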