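import Pool.Agent.K4H70.SV.Alt

/-!
The operator which turns cochains of the labels into cochains of labelled sets.
-/

set_option autoImplicit false

open scoped Classical

namespace Pool.Agent.K4H70.SV

open Pool.Agent.Q134.SV

variable {Y Λ : Type} (lab : Set Y → Λ)

/-- the sum over all complete flags of subsets -/
noncomputable def Bop : ∀ n : ℕ, ((Fin n → Λ) → ℝ) → (Fin n → Y) → ℝ
  | 0, a, _ => a Fin.elim0
  | n + 1, a, ς => cobd (Bop n fun y => a (Fin.cons (lab (Set.range ς)) y)) ς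

lemma Bop_zero (a : (Fin 0 → Λ) → ℝ) (ς : Fin 0 → Y) : Bop lab 0 a ς = a Fin.elim0 := rfl

lemma Bop_succ (n : ℕ) (a : (Fin (n + 1) → Λ) → ℝ) (ς : Fin (n + 1) → Y) :
    Bop lab (n + 1) a ς = cobd (Bop lab n fun y => a (Fin.cons (lab (Set.range ς)) y)) ς := rfl

lemma cobd_zero_one {X : Type} (b : (Fin 0 → X) → ℝ) (v : Fin 1 → X) : cobd b v = b Fin.elim0 := by
  rw [cobd_eq_tc, tc_one]; rfl

lemma cobd_congr {X : Type} {n : ℕ} {b b' : (Fin n → X) → ℝ} {v : Fin (n + 1) → X}
    (h : ∀ i : Fin (n + 1), b (v ∘ i.succAbove) = b' (v ∘ i.succAbove)) : cobd b v = cobd b' v := by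
  unfold cobd
  exact Finset.sum_congr rfl fun i _ => by rw [h]

lemma Bop_sub : ∀ (n : ℕ) (a a' : (Fin n → Λ) → ℝ) (ς : Fin n → Y),
    Bop lab n (fun y => a y - a' y) ς = Bop lab n a ς - Bop lab n a' ς
  | 0, _, _, _ => rfl
  | n + 1, a, a', ς => by
    rw [Bop_succ, Bop_succ, Bop_succ, ← cobd_sub]
    refine cobd_congr fun i => ?_
    exact Bop_sub n _ _ _

theorem cobd_Bop : ∀ (n : ℕ) (a : (Fin n → Λ) → ℝ) (ς : Fin (n + 1) → Y),
    cobd (Bop lab n a) ς = Bop lab (n + 1) (cobd a) ς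
  | 0, a, ς => by
    rw [Bop_succ, cobd_zero_one, cobd_zero_one, Bop_zero, Bop_zero, cobd_zero_one]
  | n + 1, a, ς => by
    have h1 : (fun y => cobd a (Fin.cons (lab (Set.range ς)) y)) = fun y => a y -
        cobd (fun y' => a (Fin.cons (lab (Set.range ς)) y')) y := by
      funext y
      exact cobd_cons a _ y
    change cobd (Bop lab (n + 1) a) ς =
      cobd (Bop lab (n + 1) fun y => cobd a (Fin.cons (lab (Set.range ς)) y)) ς
    rw [h1]
    have h2 : Bop lab (n + 1) (fun y => a y -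
        cobd (fun y' => a (Fin.cons (lab (Set.range ς)) y')) y) = fun τ => Bop lab (n + 1) a τ -
        cobd (Bop lab n fun y' => a (Fin.cons (lab (Set.range ς)) y')) τ := by
      funext τ
      rw [Bop_sub, cobd_Bop n]
    rw [h2, cobd_sub, cobd_cobd, sub_zero]

lemma range_swap {n : ℕ} (ς : Fin n → Y) (i j : Fin n) :
    Set.range (ς ∘ Equiv.swap i j) = Set.range ς := by
  rw [Set.range_comp, Set.range_eq_univ.2 (Equiv.swap i j).surjective, Set.image_univ]

lemma Bop_alt (n : ℕ) (a : (Fin n → Λ) → ℝ) : Alt (Bop lab n a) := by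
  induction n with
  | zero => intro v i; exact i.elim0
  | succ n ih =>
    intro v i j hij
    rw [Bop_succ, Bop_succ, range_swap]
    exact (ih _).cobd v i j hij

/-- vanishing -/
theorem Bop_vanish {P : Set Y → Prop} {R : Λ → Λ → Prop} (hR : ∀ l l', R l l' → R l' l)
    (hP : ∀ X X', P X → X' ⊆ X → X'.Nonempty → P X')
    (hlab : ∀ X X', P X → X' ⊆ X → X'.Nonempty → R (lab X) (lab X')) :
    ∀ (m : ℕ) (b : (Fin m → Λ) → ℝ) (ς : Fin m → Y), P (Set.range ς) →
    (∀ y : Fin m → Λ, (∀ i j, i ≠ j → R (y i) (y j)) →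
      (∀ j, ∃ X', X' ⊆ Set.range ς ∧ X'.Nonempty ∧ y j = lab X') → b y = 0) → Bop lab m b ς = 0
  | 0, b, ς, _, hb => hb _ (fun i => i.elim0) fun i => i.elim0
  | 1, b, ς, hς, hb => by
    rw [Bop_succ, cobd_zero_one, Bop_zero]
    refine hb _ (fun i j hij => absurd (Subsingleton.elim i j) hij) fun j => ?_
    exact ⟨Set.range ς, subset_rfl, ⟨ς 0, 0, rfl⟩, by rw [Subsingleton.elim j 0]; rfl⟩
  | m + 2, b, ς, hς, hb => by
    rw [Bop_succ]
    unfold cobd
    refine Finset.sum_eq_zero fun i _ => ?_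
    have hsub : Set.range (ς ∘ i.succAbove) ⊆ Set.range ς := Set.range_comp_subset_range _ _
    have hne : (Set.range (ς ∘ i.succAbove)).Nonempty := ⟨_, 0, rfl⟩
    have := Bop_vanish hR hP hlab (m + 1) (fun y => b (Fin.cons (lab (Set.range ς)) y))
      (ς ∘ i.succAbove) (hP _ _ hς hsub hne) fun y hy hy' => by
        refine hb _ (fun i j hij => ?_) fun j => ?_
        · rcases Fin.eq_zero_or_eq_succ i with rfl | ⟨i, rfl⟩
          · rcases Fin.eq_zero_or_eq_succ j with rfl | ⟨j, rfl⟩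
            · exact absurd rfl hij
            · obtain ⟨X', h1, h2, h3⟩ := hy' j
              rw [Fin.cons_zero, Fin.cons_succ, h3]
              exact hlab _ _ hς (h1.trans hsub) h2
          · rcases Fin.eq_zero_or_eq_succ j with rfl | ⟨j, rfl⟩
            · obtain ⟨X', h1, h2, h3⟩ := hy' i
              rw [Fin.cons_zero, Fin.cons_succ, h3]
              exact hR _ _ (hlab _ _ hς (h1.trans hsub) h2)
            · rw [Fin.cons_succ, Fin.cons_succ]
              exact hy _ _ fun e => hij (by rw [e])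
        · rcases Fin.eq_zero_or_eq_succ j with rfl | ⟨j, rfl⟩
          · exact ⟨_, subset_rfl, ⟨_, 0, rfl⟩, by rw [Fin.cons_zero]⟩
          · obtain ⟨X', h1, h2, h3⟩ := hy' j
            exact ⟨X', h1.trans hsub, h2, by rw [Fin.cons_succ, h3]⟩
    rw [this, mul_zero]

/-- the value for labels which are minima -/
theorem Bop_min {V : Type} [LinearOrder V] (f : V → Λ) (m : Y → V) {P : Set Y → Prop}
    (hP : ∀ X X', P X → X' ⊆ X → X'.Nonempty → P X')
    (hlab : ∀ X, P X → X.Nonempty → ∃ y ∈ X, lab X = f (m y)) :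
    ∀ (n : ℕ) (a : (Fin n → Λ) → ℝ), Alt a → ∀ ς : Fin n → Y, P (Set.range ς) →
    Bop lab n a ς = a (f ∘ m ∘ ς)
  | 0, a, ha, ς, hς => by
    rw [Bop_zero]
    congr 1
    exact Subsingleton.elim _ _
  | n + 1, a, ha, ς, hς => by
    obtain ⟨_, ⟨k, rfl⟩, hk⟩ := hlab _ hς ⟨_, (0 : Fin (n + 1)), rfl⟩
    rw [Bop_succ]
    have h1 : cobd (Bop lab n fun y => a (Fin.cons (lab (Set.range ς)) y)) ς =
        cobd (fun τ => a (Fin.cons (lab (Set.range ς)) (f ∘ m ∘ τ))) ς := by
      refine cobd_congr fun i => ?_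
      cases n with
      | zero =>
        rw [Bop_zero]
        congr 2
        exact Subsingleton.elim _ _
      | succ n =>
        exact Bop_min f m hP hlab (n + 1) _ (ha.cons _) (ς ∘ i.succAbove)
          (hP _ _ hς (Set.range_comp_subset_range _ _) ⟨_, (0 : Fin (n + 1)), rfl⟩)
    rw [h1]
    unfold cobd
    rw [Finset.sum_eq_single k]
    · rw [ha.move (f ∘ m ∘ ς) k, hk, smul_eq_mul]
      rfl
    · intro i _ hik
      obtain ⟨l, hl⟩ := Fin.exists_succAbove_eq (Ne.symm hik)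
      change (-1 : ℝ) ^ (i : ℕ) *
        a (Fin.cons (lab (Set.range ς)) (f ∘ m ∘ ς ∘ i.succAbove)) = 0
      rw [ha.self _ (i := 0) (j := l.succ) (Fin.succ_ne_zero _).symm, mul_zero]
      rw [Fin.cons_zero, Fin.cons_succ, hk]
      simp only [Function.comp_apply, hl]
    · intro h; exact absurd (Finset.mem_univ _) h

end Pool.Agent.K4H70.SV
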