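import Pool.Agent.K4H70.SV.Alt2

/-!
Systems of involutions which commute for adjacent vertices and anticommute otherwise.
-/

set_option autoImplicit false
set_option linter.unusedSectionVars false

open scoped Classical

namespace Pool.Agent.K4H70.SV

variable {V : Type} {M : Type} [AddCommGroup M] [Module ℝ M]

/-- a Clifford system -/
structure Clf (G : SimpleGraph V) (S : V → M →ₗ[ℝ] M) : Prop where
  sq : ∀ v m, S v (S v m) = m
  comm : ∀ u v m, G.Adj u v → S u (S v m) = S v (S u m)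
  anti : ∀ u v m, u ≠ v → ¬ G.Adj u v → S u (S v m) = - S v (S u m)

/-- the projections -/
noncomputable def Pr (S : V → M →ₗ[ℝ] M) (r : ℝ) (v : V) : M →ₗ[ℝ] M :=
  (1 / 2 : ℝ) • (LinearMap.id + r • S v)

variable {G : SimpleGraph V} {S : V → M →ₗ[ℝ] M}

lemma Pr_apply (r : ℝ) (v : V) (m : M) : Pr S r v m = (1 / 2 : ℝ) • (m + r • S v m) := rfl

lemma Pr_comm_of {r : ℝ} {v : V} {A : M →ₗ[ℝ] M} (h : ∀ m, S v (A m) = A (S v m)) (m : M) :
    Pr S r v (A m) = A (Pr S r v m) := by
  rw [Pr_apply, Pr_apply, map_smul, map_add, map_smul, h]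

lemma Clf.Pr_comm (h : Clf G S) {u v : V} (huv : G.Adj u v) (r r' : ℝ) (m : M) :
    Pr S r u (Pr S r' v m) = Pr S r' v (Pr S r u m) := by
  refine Pr_comm_of (fun m => ?_) m
  refine (Pr_comm_of (fun m => ?_) m).symm
  exact h.comm v u m huv.symm

lemma Clf.S_Pr_comm (h : Clf G S) {u v : V} (huv : G.Adj u v) (r : ℝ) (m : M) :
    S u (Pr S r v m) = Pr S r v (S u m) :=
  (Pr_comm_of (fun m => h.comm v u m huv.symm) m).symm

lemma Clf.S_Pr (h : Clf G S) {r : ℝ} (hr : r * r = 1) (v : V) (m : M) :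
    S v (Pr S r v m) = r • Pr S r v m := by
  rw [Pr_apply, map_smul, map_add, map_smul, h.sq, smul_comm r, smul_add r, smul_smul r r, hr,
    one_smul, add_comm]

lemma Pr_of {r : ℝ} (hr : r * r = 1) {v : V} {m : M} (h : S v m = r • m) : Pr S r v m = m := by
  rw [Pr_apply, h, smul_smul, hr, one_smul, ← two_smul ℝ m, smul_smul]
  norm_num

lemma Pr_of_neg {r : ℝ} (hr : r * r = 1) {v : V} {m : M} (h : S v m = (-r) • m) :
    Pr S r v m = 0 := by
  rw [Pr_apply, h, smul_smul, mul_neg, hr, neg_smul, one_smul, add_neg_cancel, smul_zero]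

lemma Clf.Pr_orth (h : Clf G S) {r : ℝ} (hr : r * r = 1) (v : V) (m : M) :
    Pr S r v (Pr S (-r) v m) = 0 :=
  Pr_of_neg hr (h.S_Pr (by rw [neg_mul_neg, hr]) v m)

lemma Pr_add (v : V) (m : M) : Pr S 1 v m + Pr S (-1) v m = m := by
  rw [Pr_apply, Pr_apply, ← smul_add, one_smul, neg_smul, one_smul]
  have : m + S v m + (m + -S v m) = (2 : ℝ) • m := by
    rw [two_smul]; abel
  rw [this, smul_smul]
  norm_num

lemma Clf.ident (h : Clf G S) {f b : V} (hne : f ≠ b) (hadj : ¬ G.Adj f b) (m : M) :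
    (2 : ℝ) • Pr S 1 b (Pr S (-1) f m) + (2 : ℝ) • Pr S 1 f (Pr S (-1) b m) = m := by
  simp only [Pr_apply, map_smul, map_add, one_smul, neg_smul, map_neg]
  rw [h.anti f b m hne hadj]
  module

lemma Clf.split (h : Clf G S) {f b : V} (hne : f ≠ b) (hadj : ¬ G.Adj f b) {m : M}
    (hm : S f m = - m) : Pr S (-1) f ((2 : ℝ) • Pr S 1 b m) = m := by
  have h1 : S f (S b m) = S b m := by rw [h.anti f b m hne hadj, hm, map_neg, neg_neg]
  simp only [Pr_apply, map_smul, map_add, one_smul, neg_smul, h1, hm]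
  module

/-! ### Products -/

/-- the product of the projections of a list -/
noncomputable def PL (S : V → M →ₗ[ℝ] M) (r : ℝ) : List V → M → M
  | [], m => m
  | v :: l, m => Pr S r v (PL S r l m)

lemma PL_cons (r : ℝ) (v : V) (l : List V) (m : M) : PL S r (v :: l) m = Pr S r v (PL S r l m) :=
  rfl

lemma PL_linear (r : ℝ) (l : List V) : ∃ A : M →ₗ[ℝ] M, ∀ m, A m = PL S r l m := by
  induction l with
  | nil => exact ⟨LinearMap.id, fun _ => rfl⟩
  | cons v l ih =>
    obtain ⟨A, hA⟩ := ih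
    exact ⟨(Pr S r v).comp A, fun m => by rw [LinearMap.comp_apply, hA, PL_cons]⟩

lemma PL_comm_of {r : ℝ} {A : M →ₗ[ℝ] M} (l : List V)
    (h : ∀ v ∈ l, ∀ m, S v (A m) = A (S v m)) (m : M) : PL S r l (A m) = A (PL S r l m) := by
  induction l with
  | nil => rfl
  | cons v l ih =>
    rw [PL_cons, PL_cons, ih fun w hw => h w (List.mem_cons_of_mem _ hw),
      Pr_comm_of (h v List.mem_cons_self)]

lemma Clf.PL_perm (h : Clf G S) (r : ℝ) {l l' : List V} (hl : l.Perm l')
    (hp : l.Pairwise G.Adj) (m : M) : PL S r l m = PL S r l' m := by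
  induction hl with
  | nil => rfl
  | cons x _ ih =>
    rw [PL_cons, PL_cons, ih (List.pairwise_cons.1 hp).2]
  | swap x y l =>
    simp only [PL_cons]
    rw [List.pairwise_cons] at hp
    exact h.Pr_comm (hp.1 x List.mem_cons_self) _ _ _
  | trans h1 _ ih1 ih2 =>
    rw [ih1 hp, ih2 ((h1.pairwise_iff fun h => h.symm).1 hp)]

/-- the product of the projections of a set -/
noncomputable def PF (S : V → M →ₗ[ℝ] M) (r : ℝ) (T : Finset V) : M →ₗ[ℝ] M :=
  (PL_linear (S := S) r T.toList).choose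

lemma PF_apply (r : ℝ) (T : Finset V) (m : M) : PF S r T m = PL S r T.toList m :=
  (PL_linear (S := S) r T.toList).choose_spec m

lemma PF_empty (r : ℝ) (m : M) : PF S r ∅ m = m := by
  rw [PF_apply, Finset.toList_empty]; rfl

/-- pairwise adjacent -/
def Cq (G : SimpleGraph V) (T : Finset V) : Prop := ∀ a ∈ T, ∀ b ∈ T, a ≠ b → G.Adj a b

lemma Cq.pairwise {T : Finset V} (h : Cq G T) {l : List V} (hl : l.Perm T.toList) :
    l.Pairwise G.Adj := by
  refine ((hl.symm.pairwise_iff fun h => h.symm).1) ?_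
  have h1 := T.nodup_toList
  rw [List.Nodup] at h1
  refine (List.Pairwise.imp_of_mem (fun {a b} ha hb hab => ?_) h1)
  exact h a (Finset.mem_toList.1 ha) b (Finset.mem_toList.1 hb) hab

lemma Clf.PF_insert (h : Clf G S) (r : ℝ) {v : V} {T : Finset V} (hv : v ∉ T)
    (hT : Cq G (insert v T)) (m : M) : PF S r (insert v T) m = Pr S r v (PF S r T m) := by
  rw [PF_apply, PF_apply, ← PL_cons]
  exact h.PL_perm r (Finset.toList_insert hv) (hT.pairwise (List.Perm.refl _)) m

lemma PF_comm_of {r : ℝ} {A : M →ₗ[ℝ] M} (T : Finset V)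
    (h : ∀ v ∈ T, ∀ m, S v (A m) = A (S v m)) (m : M) : PF S r T (A m) = A (PF S r T m) := by
  rw [PF_apply, PF_apply]
  exact PL_comm_of _ (fun v hv => h v (Finset.mem_toList.1 hv)) m

lemma Clf.S_PF (h : Clf G S) {r : ℝ} (hr : r * r = 1) {T : Finset V} (hT : Cq G T) {v : V}
    (hv : v ∈ T) (m : M) : S v (PF S r T m) = r • PF S r T m := by
  have h1 := h.PF_insert r (Finset.notMem_erase v T) (by rwa [Finset.insert_erase hv]) m
  rw [Finset.insert_erase hv] at h1
  rw [h1, h.S_Pr hr]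

lemma PF_of {r : ℝ} (hr : r * r = 1) {T : Finset V} {m : M} (h : ∀ v ∈ T, S v m = r • m) :
    PF S r T m = m := by
  rw [PF_apply]
  have : ∀ l : List V, (∀ v ∈ l, S v m = r • m) → PL S r l m = m := by
    intro l
    induction l with
    | nil => intro _; rfl
    | cons v l ih =>
      intro hl
      rw [PL_cons, ih fun w hw => hl w (List.mem_cons_of_mem _ hw)]
      exact Pr_of hr (hl v List.mem_cons_self)
  exact this _ fun v hv => h v (Finset.mem_toList.1 hv)

/-- a projection kills -/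
lemma Clf.PF_zero (h : Clf G S) {r : ℝ} (hr : r * r = 1) {T : Finset V} (hT : Cq G T) {v : V}
    (hv : v ∈ T) {m : M} (hm : S v m = (-r) • m) : PF S r T m = 0 := by
  have h1 : ∀ w ∈ T, ∀ m, S w (S v m) = S v (S w m) := by
    intro w hw m
    by_cases hwv : w = v
    · rw [hwv]
    · exact h.comm w v m (hT w hw v hv hwv)
  have h2 := PF_comm_of (r := r) T h1 m
  rw [hm, map_smul, h.S_PF hr hT hv] at h2
  have h3 : (2 * r) • PF S r T m = 0 := by
    rw [two_mul, add_smul]
    nth_rewrite 1 [← h2]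
    rw [neg_smul]
    exact neg_add_cancel _
  have hr0 : r ≠ 0 := by
    rintro rfl
    norm_num at hr
  exact (smul_eq_zero.1 h3).resolve_left (mul_ne_zero two_ne_zero hr0)

end Pool.Agent.K4H70.SV
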