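import Pool.Agent.K4H70.SV.Desc

/-!
Evaluation of the descent cochains on the cubes.
-/

set_option autoImplicit false

open scoped Classical

namespace Pool.Agent.K4H70.SV

open Pool.Agent.W907.SG (W cox)
open Pool.Agent.Q134.SV

set_option linter.unusedSectionVars false

variable {V : Type} [Fintype V] {G : SimpleGraph V}

variable (G) in
/-- special subgroups -/
noncomputable def WT (T : Set V) : Subgroup (W G) := Subgroup.closure (gen G '' T)

lemma gen_inv (v : V) : (gen G v)⁻¹ = gen G v := inv_eq_of_mul_eq_one_left (gen_sq G v)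

lemma gen_mem_WT {T : Set V} {t : V} (ht : t ∈ T) : gen G t ∈ WT G T :=
  Subgroup.subset_closure ⟨t, ht, rfl⟩

lemma WT_induction {T : Set V} {p : W G → Prop} (h1 : p 1)
    (h2 : ∀ t ∈ T, ∀ w, p w → p (gen G t * w)) {w : W G} (hw : w ∈ WT G T) : p w := by
  refine Subgroup.closure_induction_left (p := fun w _ => p w) h1 ?_ ?_ hw
  · rintro _ ⟨t, ht, rfl⟩ y _ hy
    exact h2 t ht y hy
  · rintro _ ⟨t, ht, rfl⟩ y _ hy
    rw [gen_inv]
    exact h2 t ht y hy

lemma rep_WT {T : Set V} {w : W G} (hw : w ∈ WT G T) (y : V → ℤ) {u : V} (hu : u ∉ T) :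
    rep G w y u = y u := by
  refine WT_induction (p := fun w => rep G w y u = y u) ?_ ?_ hw
  · rw [rep_one]
  · intro t ht w hw
    rw [rep_mul, rep_gen, rf_apply]
    simp only [Pi.sub_apply, Pi.smul_apply]
    rw [ee_ne (fun e => hu (by rw [e]; exact ht)), smul_zero, sub_zero, hw]

lemma D_WT {T : Set V} {w : W G} (hw : w ∈ WT G T) {d : V} (hd : d ∈ D G w) : d ∈ T := by
  by_contra h
  have h1 := mem_D.1 hd d
  rw [rep_WT ((WT G T).inv_mem hw) _ h, ee_self] at h1
  simp at h1

theorem coset {T : Set V} (hT : ∀ s ∈ T, ∀ t ∈ T, s ≠ t → G.Adj s t) (n : ℕ) : ∀ y : W G,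
    (cs G).length y = n → (∃ u, ∀ w ∈ WT G T, u ∈ D G (y * w)) ∨ y ∈ WT G T := by
  induction n using Nat.strong_induction_on with
  | _ n ih =>
  intro y hn
  by_cases h : ∃ t ∈ T, (cs G).IsRightDescent y t
  · obtain ⟨t, ht, htd⟩ := h
    have hlen : (cs G).length (y * gen G t) + 1 = (cs G).length y :=
      (cs G).isRightDescent_iff.1 htd
    have hyy : y = (y * gen G t) * gen G t := by rw [mul_assoc, gen_sq, mul_one]
    rcases ih _ (by omega) (y * gen G t) rfl with ⟨u, hu⟩ | h1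
    · refine Or.inl ⟨u, fun w hw => ?_⟩
      rw [hyy, mul_assoc]
      exact hu _ ((WT G T).mul_mem (gen_mem_WT ht) hw)
    · refine Or.inr ?_
      rw [hyy]
      exact (WT G T).mul_mem h1 (gen_mem_WT ht)
  · push Not at h
    by_cases h1 : y = 1
    · exact Or.inr (by rw [h1]; exact (WT G T).one_mem)
    obtain ⟨u, hu⟩ := D_nonempty h1
    refine Or.inl ⟨u, ?_⟩
    have hγ : 0 ≤ - rep G y⁻¹ (ee u) := neg_nonneg.2 (mem_D.1 hu)
    have hroot : IsRoot G (- rep G y⁻¹ (ee u)) := ((isRoot_ee G u).rep y⁻¹).neg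
    have hbase : ∀ t ∈ T, - rep G y⁻¹ (ee u) ≠ ee t := by
      intro t ht e
      have h2 : 0 ≤ rep G y (ee t) := (tits G _ y rfl).1 t (h t ht)
      rw [← e, map_neg, rep_self_inv] at h2
      have := h2 u
      simp [ee_self] at this
    have key : ∀ w ∈ WT G T, 0 ≤ rep G w (- rep G y⁻¹ (ee u)) ∧
        ∀ t ∈ T, rep G w (- rep G y⁻¹ (ee u)) ≠ ee t := by
      intro w hw
      refine WT_induction (p := fun w => 0 ≤ rep G w (- rep G y⁻¹ (ee u)) ∧
        ∀ t ∈ T, rep G w (- rep G y⁻¹ (ee u)) ≠ ee t) ?_ ?_ hw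
      · rw [rep_one]
        exact ⟨hγ, hbase⟩
      · rintro t ht w ⟨h3, h4⟩
        rw [rep_mul, rep_gen]
        refine ⟨(hroot.rep w).rf_nonneg h3 (h4 t ht), fun t' ht' e => ?_⟩
        have e2 := congrArg (rf G t) e
        rw [rf_rf] at e2
        by_cases htt : t = t'
        · subst htt
          rw [rf_self] at e2
          rw [e2] at h3
          have := h3 t
          simp [ee_self] at this
        · rw [rf_adj G (hT t ht t' ht' htt)] at e2
          exact h4 t' ht' e2
    intro w hw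
    rw [mem_D, mul_inv_rev, rep_mul]
    have h5 := (key w⁻¹ ((WT G T).inv_mem hw)).1
    rw [map_neg] at h5
    exact neg_nonneg.1 h5

section

variable {n : ℕ} {s : Fin n → V} (hs : ∀ i j, i ≠ j → G.Adj (s i) (s j))

variable (G) in
/-- the corners of the cube -/
noncomputable def xx (s : Fin n → V) (j : Fin (n + 1)) : W G := Fin.partialProd (gen G ∘ s) j

lemma xx_zero : xx G s 0 = 1 := Fin.partialProd_zero _

lemma xx_succ (j : Fin n) : xx G s j.succ = xx G s j.castSucc * gen G (s j) :=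
  Fin.partialProd_succ _ _

lemma xx_mem (j : Fin (n + 1)) : xx G s j ∈ WT G (Set.range s) := by
  refine Fin.induction ?_ (fun i hi => ?_) j
  · rw [xx_zero]; exact (WT G _).one_mem
  · rw [xx_succ]
    exact (WT G _).mul_mem hi (gen_mem_WT ⟨i, rfl⟩)

lemma eps_xx [LinearOrder V] (j : Fin (n + 1)) : eps G (xx G s j) = (-1) ^ (j : ℕ) := by
  refine Fin.induction ?_ (fun i hi => ?_) j
  · rw [xx_zero]; simp [eps]
  · rw [xx_succ, eps_mul, hi, eps_gen, Fin.val_succ, pow_succ, Fin.val_castSucc]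

include hs

lemma rep_xx (j : Fin (n + 1)) : ∀ i : Fin n,
    rep G (xx G s j) (ee (s i)) = if i.castSucc < j then - ee (s i) else ee (s i) := by
  refine Fin.induction ?_ (fun j hj => ?_) j
  · intro i
    rw [xx_zero, rep_one, if_neg (Fin.not_lt_zero _)]
  · intro i
    rw [xx_succ, rep_mul, rep_gen]
    by_cases hij : i = j
    · subst hij
      rw [rf_self, map_neg, hj, if_neg (lt_irrefl _), if_pos Fin.castSucc_lt_succ]
    · rw [rf_adj G (hs j i (Ne.symm hij)), hj]
      have : i.castSucc < j.castSucc ↔ i.castSucc < j.succ := by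
        rw [Fin.lt_def, Fin.lt_def, Fin.val_succ, Fin.val_castSucc, Fin.val_castSucc]
        have : (i : ℕ) ≠ (j : ℕ) := fun e => hij (Fin.ext e)
        omega
      simp only [this]

lemma rep_xx_inv (j : Fin (n + 1)) (i : Fin n) :
    rep G (xx G s j)⁻¹ (ee (s i)) = if i.castSucc < j then - ee (s i) else ee (s i) := by
  have h := rep_xx hs j i
  have h2 := congrArg (rep G (xx G s j)⁻¹) h
  rw [rep_inv_self] at h2
  split_ifs at h2 ⊢ with h3
  · rw [map_neg] at h2
    exact (neg_eq_iff_eq_neg.2 h2).symm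
  · exact h2.symm

lemma mem_D_xx (j k : Fin (n + 1)) (i : Fin n) :
    s i ∈ D G ((xx G s j)⁻¹ * xx G s k) ↔ ¬ (i.castSucc < j ↔ i.castSucc < k) := by
  rw [mem_D, mul_inv_rev, inv_inv, rep_mul, rep_xx hs]
  have hp : ¬ (ee (s i) ≤ 0) := by
    intro h
    have := h (s i)
    simp [ee_self] at this
  have hq : - ee (s i) ≤ 0 := neg_nonpos.2 (ee_nonneg _)
  split_ifs with h1
  · rw [map_neg, rep_xx_inv hs]
    split_ifs with h2
    · simp [h1, h2, hp]
    · simp [h1, h2, hq]
  · rw [rep_xx_inv hs]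
    split_ifs with h2
    · simp [h1, h2, hq]
    · simp [h1, h2, hp]

lemma self_mem_D_xx (j : Fin (n + 1)) (k : Fin n) :
    s k ∈ D G ((xx G s j)⁻¹ * xx G s (j.succAbove k)) := by
  rw [mem_D_xx hs]
  by_cases h : k.castSucc < j
  · rw [Fin.succAbove_of_castSucc_lt _ _ h]
    simp [h]
  · rw [Fin.succAbove_of_le_castSucc _ _ (not_lt.1 h)]
    simp [h]

lemma xx_inj : Function.Injective (xx G s) := by
  intro j k hjk
  by_contra hne
  obtain ⟨i, hi⟩ := Fin.exists_succAbove_eq (Ne.symm hne)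
  have h1 := self_mem_D_xx (G := G) hs j i
  rw [hi, ← hjk, inv_mul_cancel, D_one] at h1
  exact Finset.notMem_empty _ h1

end

/-! ### The value -/

/-- the pieces `s_0 < ⋯ < s_{j-1}`, `s_j > ⋯ > s_{n-1}` -/
def ok {X : Type} [LE X] {n : ℕ} (s : Fin n → X) (j : Fin (n + 1)) : Prop :=
  ∀ k i : Fin n, ¬ (i.castSucc < j ↔ i.castSucc < j.succAbove k) → s k ≤ s i

/-- the number of the good places -/
noncomputable def kap {X : Type} [LE X] {n : ℕ} (s : Fin n → X) : ℕ :=
  (Finset.univ.filter (ok s)).card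

variable [LinearOrder V]

lemma eq_of_le_perm {n : ℕ} {s : Fin n → V} {π : Fin n → Fin n} (hπ : Function.Injective π)
    (h : ∀ k, s (π k) ≤ s k) (k : Fin n) : s (π k) = s k := by
  let e : V ≃o Fin (Fintype.card V) := (Fintype.orderIsoFinOfCardEq V rfl).symm
  have hb : Function.Bijective π := Finite.injective_iff_bijective.1 hπ
  have h1 : ∑ k, ((e (s (π k)) : Fin _) : ℕ) = ∑ k, ((e (s k) : Fin _) : ℕ) :=
    hb.sum_comp fun k => ((e (s k) : Fin _) : ℕ)
  have h2 := (Finset.sum_eq_sum_iff_of_le (s := Finset.univ)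
    (f := fun k => ((e (s (π k)) : Fin _) : ℕ)) (g := fun k => ((e (s k) : Fin _) : ℕ))
    (fun k _ => Fin.le_def.1 (e.monotone (h k)))).1 h1 k (Finset.mem_univ k)
  exact e.injective (Fin.ext h2)

section

variable {n : ℕ} {s : Fin n → V} (hs : ∀ i j, i ≠ j → G.Adj (s i) (s j))
  {a : (Fin n → V) → ℝ} (alt : ∀ (v : Fin n → V) (i j : Fin n), i ≠ j →
    a (v ∘ Equiv.swap i j) = - a v)

include hs alt

lemma th_xx (j : Fin (n + 1)) :
    th a (fun k => D G ((xx G s j)⁻¹ * xx G s (j.succAbove k))) = if ok s j then a s else 0 := by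
  have hne : ∀ k, (D G ((xx G s j)⁻¹ * xx G s (j.succAbove k))).Nonempty :=
    fun k => ⟨_, self_mem_D_xx hs j k⟩
  rw [th_pos a _ hne]
  set m : Fin n → V := fun k => (D G ((xx G s j)⁻¹ * xx G s (j.succAbove k))).min' (hne k) with hm
  have hmk : ∀ k, m k ≤ s k := fun k => Finset.min'_le _ _ (self_mem_D_xx hs j k)
  have hmD : ∀ k, m k ∈ D G ((xx G s j)⁻¹ * xx G s (j.succAbove k)) :=
    fun k => Finset.min'_mem _ _
  have hmi : ∀ k i, ¬ (i.castSucc < j ↔ i.castSucc < j.succAbove k) → m k ≤ s i :=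
    fun k i h => Finset.min'_le _ _ ((mem_D_xx hs _ _ _).2 h)
  have hms : ∀ k, ∃ i, s i = m k := by
    intro k
    exact D_WT ((WT G _).mul_mem ((WT G _).inv_mem (xx_mem j)) (xx_mem _)) (hmD k)
  split_ifs with hok
  · congr 1
    funext k
    obtain ⟨i, hi⟩ := hms k
    refine le_antisymm (hmk k) ?_
    rw [← hi]
    refine hok k i ?_
    rw [← mem_D_xx hs, hi]
    exact hmD k
  · by_contra h0
    have hinj : Function.Injective m := by
      intro k l hkl
      by_contra hne'
      exact h0 (alt_self alt m hne' hkl)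
    choose π hπ using hms
    have hπi : Function.Injective π := by
      intro k l hkl
      apply hinj
      rw [← hπ, ← hπ, hkl]
    have h1 : ∀ k, s (π k) = s k := eq_of_le_perm hπi fun k => by rw [hπ]; exact hmk k
    apply hok
    intro k i hi
    rw [← h1 k, hπ]
    exact hmi k i hi

lemma ter_xx (j : Fin (n + 1)) :
    eps G (xx G s j) * ter G a (xx G s) (xx G s j) = if ok s j then a s else 0 := by
  unfold ter
  rw [cobd_th_empty a _ (j := j) (by rw [inv_mul_cancel, D_one]), eps_xx, ← mul_assoc, ← mul_pow]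
  simp only [neg_mul_neg, mul_one, one_pow, one_mul]
  exact th_xx hs alt j

end

lemma ter_xx_zero {n : ℕ} {s : Fin (n + 1) → V} (hs : ∀ i j, i ≠ j → G.Adj (s i) (s j))
    {a : (Fin (n + 1) → V) → ℝ} (hloc : ∀ v : Fin (n + 2) → V, Small G v → cobd a v = 0)
    {v : W G} (hv : ∀ j, v ≠ xx G s j) : ter G a (xx G s) v = 0 := by
  have hne : ∀ j, (D G (v⁻¹ * xx G s j)).Nonempty := by
    intro j
    refine D_nonempty fun h => hv j ?_
    exact (inv_mul_eq_one.1 h)
  unfold ter
  rw [cobd_th a _ hne]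
  refine hloc _ ?_
  have hT : ∀ x ∈ Set.range s, ∀ y ∈ Set.range s, x ≠ y → G.Adj x y := by
    rintro _ ⟨i, rfl⟩ _ ⟨j, rfl⟩ h
    exact hs i j (fun e => h (by rw [e]))
  rcases coset hT _ v⁻¹ rfl with ⟨u, hu⟩ | h
  · exact small_of_mem (fun i => rfl) hne fun i => hu _ (xx_mem i)
  · refine Or.inl ⟨s 0, fun i => ?_⟩
    obtain ⟨k, hk⟩ : (D G (v⁻¹ * xx G s i)).min' (hne i) ∈ Set.range s :=
      D_WT ((WT G _).mul_mem h (xx_mem i)) (Finset.min'_mem _ _)
    change (D G (v⁻¹ * xx G s i)).min' (hne i) = s 0 ∨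
      G.Adj (s 0) ((D G (v⁻¹ * xx G s i)).min' (hne i))
    rw [← hk]
    by_cases h0 : k = 0
    · exact Or.inl (by rw [h0])
    · exact Or.inr (hs 0 k (Ne.symm h0))

/-- the value of the descent cochain on a cube -/
theorem cc_xx {n : ℕ} {s : Fin (n + 1) → V} (hs : ∀ i j, i ≠ j → G.Adj (s i) (s j))
    {a : (Fin (n + 1) → V) → ℝ}
    (alt : ∀ (v : Fin (n + 1) → V) (i j : Fin (n + 1)), i ≠ j → a (v ∘ Equiv.swap i j) = - a v)
    (hloc : ∀ v : Fin (n + 2) → V, Small G v → cobd a v = 0) :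
    cc G a (xx G s) = kap s * a s := by
  unfold cc
  rw [finsum_eq_sum_of_support_subset (s := Finset.univ.image (xx G s)),
    Finset.sum_image fun i _ j _ h => xx_inj hs h, Finset.sum_congr rfl fun j _ => ter_xx hs alt j,
    ← Finset.sum_filter, Finset.sum_const, nsmul_eq_mul]
  · rfl
  · intro v hv
    by_contra hc
    simp only [Finset.coe_image, Finset.coe_univ, Set.image_univ, Set.mem_range, not_exists] at hc
    apply hv
    simp only
    rw [ter_xx_zero hs hloc fun j e => hc j e.symm, mul_zero]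

/-! ### The pairing -/

lemma kap_comp {n : ℕ} {s : Fin n → V} (hs : StrictMono s) (π : Fin n → Fin n) :
    kap (s ∘ π) = kap π := by
  unfold kap
  congr 1
  refine Finset.filter_congr fun j _ => ?_
  simp only [ok, Function.comp_apply, hs.le_iff_le]

/-- the sum over all permutations -/
noncomputable def Kn (n : ℕ) : ℕ := ∑ π : Equiv.Perm (Fin n), kap (π : Fin n → Fin n)

lemma Kn_pos (n : ℕ) : 0 < Kn n := by
  have h : 0 < kap ((1 : Equiv.Perm (Fin n)) : Fin n → Fin n) := by
    unfold kap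
    rw [Finset.card_pos]
    refine ⟨Fin.last n, ?_⟩
    simp only [Finset.mem_filter, Finset.mem_univ, true_and]
    intro k i h
    simp only [Equiv.Perm.coe_one, id_eq]
    rw [Fin.succAbove_last] at h
    simp only [Fin.castSucc_lt_last, true_iff, not_lt] at h
    rwa [Fin.castSucc_le_castSucc_iff] at h
  exact lt_of_lt_of_le h (Finset.single_le_sum (f := fun π : Equiv.Perm (Fin n) =>
    kap (π : Fin n → Fin n)) (fun _ _ => Nat.zero_le _) (Finset.mem_univ 1))

lemma sum_kap {n : ℕ} {s : Fin n → V} (hs : Function.Injective s) :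
    ∑ π : Equiv.Perm (Fin n), kap (s ∘ π) = Kn n := by
  have h1 : StrictMono (s ∘ Tuple.sort s) :=
    (Tuple.monotone_sort s).strictMono_of_injective (hs.comp (Tuple.sort s).injective)
  unfold Kn
  rw [← Equiv.sum_comp (Equiv.mulLeft (Tuple.sort s)) fun π : Equiv.Perm (Fin n) => kap (s ∘ π)]
  refine Finset.sum_congr rfl fun π _ => ?_
  rw [← kap_comp h1 π]
  rfl

lemma sgn_perm {n : ℕ} {F : (Fin n → V) → ℝ}
    (h : ∀ (v : Fin n → V) (i j : Fin n), i ≠ j → F (v ∘ Equiv.swap i j) = F v)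
    (π : Equiv.Perm (Fin n)) (v : Fin n → V) : F (v ∘ π) = F v := by
  induction π using Equiv.Perm.swap_induction_on generalizing v with
  | one => rfl
  | swap_mul σ x y hxy ih =>
    have : v ∘ ⇑(Equiv.swap x y * σ) = (v ∘ Equiv.swap x y) ∘ σ := rfl
    rw [this, ih, h _ _ _ hxy]

theorem pair_cc {n : ℕ} {z a : (Fin (n + 1) → V) → ℝ} (hz : IsCyc (n + 1) G z)
    (alt : ∀ (v : Fin (n + 1) → V) (i j : Fin (n + 1)), i ≠ j → a (v ∘ Equiv.swap i j) = - a v)
    (hloc : ∀ v : Fin (n + 2) → V, Small G v → cobd a v = 0) :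
    ((n + 1).factorial : ℝ) * pair (gen G) z (cc G a) =
      Kn (n + 1) * ∑ s : Fin (n + 1) → V, z s * a s := by
  have h1 : pair (gen G) z (cc G a) = ∑ s : Fin (n + 1) → V, z s * a s * kap s := by
    unfold pair
    refine Finset.sum_congr rfl fun s _ => ?_
    by_cases h0 : z s = 0
    · rw [h0]; ring
    · have : cc G a (Fin.partialProd (gen G ∘ s)) = kap s * a s := cc_xx (hz.supp s h0) alt hloc
      rw [this]; ring
  have hsym : ∀ (π : Equiv.Perm (Fin (n + 1))) (s : Fin (n + 1) → V),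
      z (s ∘ π) * a (s ∘ π) = z s * a s := by
    intro π s
    refine sgn_perm (F := fun s => z s * a s) ?_ π s
    intro v i j hij
    simp only [hz.alt v i j hij, alt v i j hij]
    ring
  have h2 : ∀ π : Equiv.Perm (Fin (n + 1)), ∑ s : Fin (n + 1) → V, z s * a s * kap s =
      ∑ s : Fin (n + 1) → V, z s * a s * kap (s ∘ π) := by
    intro π
    rw [← Equiv.sum_comp (Equiv.arrowCongr π.symm (Equiv.refl V))]
    refine Finset.sum_congr rfl fun s _ => ?_
    have : (Equiv.arrowCongr π.symm (Equiv.refl V)) s = s ∘ π := by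
      funext l
      simp [Equiv.arrowCongr]
    rw [this, hsym]
  rw [h1]
  have h3 : ((n + 1).factorial : ℝ) * ∑ s : Fin (n + 1) → V, z s * a s * kap s =
      ∑ π : Equiv.Perm (Fin (n + 1)), ∑ s : Fin (n + 1) → V, z s * a s * kap (s ∘ π) := by
    rw [← Finset.sum_congr rfl fun π _ => h2 π, Finset.sum_const, nsmul_eq_mul, Finset.card_univ,
      Fintype.card_perm, Fintype.card_fin]
  rw [h3, Finset.sum_comm, Finset.mul_sum]
  refine Finset.sum_congr rfl fun s _ => ?_
  rw [← Finset.mul_sum]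
  by_cases h0 : z s = 0
  · rw [h0]; ring
  · have hinj : Function.Injective s := by
      intro i j hij
      by_contra hne
      exact (hz.supp s h0 i j hne).ne hij
    rw [← Nat.cast_sum, sum_kap hinj]
    ring

omit [LinearOrder V] in
/-- A cochain of the vertices which is closed on the small tuples and pairs nontrivially with the
cycle gives a bounded cocycle which pairs nontrivially. -/
theorem exists_good {n : ℕ} {z a : (Fin (n + 1) → V) → ℝ} (hz : IsCyc (n + 1) G z)
    (alt : ∀ (v : Fin (n + 1) → V) (i j : Fin (n + 1)), i ≠ j → a (v ∘ Equiv.swap i j) = - a v)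
    (hloc : ∀ v : Fin (n + 2) → V, Small G v → cobd a v = 0)
    (hne : ∑ s : Fin (n + 1) → V, z s * a s ≠ 0) :
    ∃ c, Good G (n + 1) c ∧ pair (gen G) z c ≠ 0 := by
  let _ : LinearOrder V := LinearOrder.lift' (Fintype.equivFin V) (Fintype.equivFin V).injective
  refine ⟨cc G a, cc_good alt hloc, fun h => ?_⟩
  have h1 := pair_cc hz alt hloc
  rw [h, mul_zero] at h1
  rcases mul_eq_zero.1 h1.symm with h2 | h2
  · have := Kn_pos (n + 1)
    rw [Nat.cast_eq_zero] at h2
    omega
  · exact hne h2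

end Pool.Agent.K4H70.SV
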