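import Pool.Agent.K4H70.SV.Lab
import Pool.Agent.K4H70.SV.Eval

/-!
The descent sets of two different translates of a tuple are aligned.
-/

set_option autoImplicit false

open scoped Classical

namespace Pool.Agent.K4H70.SV

open Pool.Agent.W907.SG (W cox)
open Pool.Agent.Q134.SV

set_option linter.unusedSectionVars false

variable {V : Type} [Fintype V] {G : SimpleGraph V}

theorem desc_prod (n : ℕ) : ∀ w : W G, (cs G).length w = n → ∀ β : V → ℤ, IsRoot G β → 0 ≤ β →
    rep G w⁻¹ β ≤ 0 → ∃ e ∈ D G w, 1 ≤ BB G (ee e) β := by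
  induction n using Nat.strong_induction_on with
  | _ n ih =>
  intro w hn β hβ h0 hw
  by_cases h1 : w = 1
  · exfalso
    subst h1
    rw [inv_one, rep_one] at hw
    exact hβ.ne_zero (le_antisymm hw h0)
  by_contra hc
  push Not at hc
  obtain ⟨e, he⟩ := (cs G).exists_leftDescent_of_ne_one h1
  have heD : rep G w⁻¹ (ee e) ≤ 0 := by
    refine nonpos_of_desc G ?_
    rw [(cs G).isRightDescent_inv_iff]
    exact he
  have hlen : (cs G).length (gen G e * w) < (cs G).length w := he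
  have h2 : BB G (ee e) β = 0 := by
    refine le_antisymm (by have := hc e (mem_D.2 heD); omega) ?_
    by_contra h3
    refine no_cross_aux (isRoot_ee G e) hβ (by omega) (p := 1) (q := w⁻¹) ?_ ?_ heD hw
    · rw [rep_one]; exact ee_nonneg e
    · rw [rep_one]; exact h0
  have h3 : rf G e β = β := by rw [rf_apply, h2]; simp
  obtain ⟨e', he', h4⟩ := ih _ (by omega) (gen G e * w) rfl β hβ h0 (by
    rw [mul_inv_rev, gen_inv, rep_mul, rep_gen, h3]; exact hw)
  have h5 : e' ∉ D G w := fun h => by have := hc e' h; omega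
  refine no_cross_aux (isRoot_ee G e').neg hβ (by rw [map_neg, LinearMap.neg_apply]; omega)
    (p := gen G e') (q := w⁻¹) ?_ ?_ ?_ hw
  · rw [map_neg, rep_gen, rf_self, neg_neg]; exact ee_nonneg e'
  · rw [rep_gen]
    refine hβ.rf_nonneg h0 fun e6 => h5 (mem_D.2 ?_)
    rw [← e6]; exact hw
  · rw [map_neg]; exact neg_nonpos.2 (not_mem_D.1 h5)

/-- each member meets the descents of `g` and of its inverse -/
theorem meets {g h h' : W G} (hg : g ≠ 1) (hh : h = g * h') (hD : D G h = D G h') :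
    ∃ e ∈ D G h, e ∈ D G g ∨ e ∈ D G g⁻¹ := by
  obtain ⟨r, hr⟩ := D_nonempty hg
  by_cases h1 : r ∈ D G h
  · exact ⟨r, h1, Or.inl hr⟩
  have h2 : rep G h'⁻¹ (- rep G g⁻¹ (ee r)) ≤ 0 := by
    rw [map_neg, ← rep_mul, ← mul_inv_rev, ← hh]
    exact neg_nonpos.2 (not_mem_D.1 h1)
  obtain ⟨e, he, h3⟩ := desc_prod _ h' rfl _ ((isRoot_ee G r).rep g⁻¹).neg
    (neg_nonneg.2 (mem_D.1 hr)) h2
  refine ⟨e, by rw [hD]; exact he, ?_⟩
  by_contra h4
  push Not at h4
  have heD : e ∈ D G h := by rw [hD]; exact he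
  have h5 := neutral_fixed hh h4.1 h4.2 heD he
  have h6 := neutral_adj hh h4.1 h4.2 heD he (Or.inl hr)
  have h7 : BB G (ee e) (rep G g⁻¹ (ee r)) = 0 := by
    rw [← BB_rep G g, rep_self_inv, h5, BB_ee, bb_adj G h6.symm]
  rw [map_neg, h7] at h3
  omega

variable [LinearOrder V]

/-- The new data lemma. -/
theorem data_ali {n : ℕ} {h h' : Fin (n + 1) → W G} {g : W G} (hg : g ≠ 1)
    (hh : ∀ i, h i = g * h' i) (hd : ∀ i, D G (h i) = D G (h' i)) :
    (∀ i, (D G (h i)).Nonempty) ∧ Ali G (Set.range fun i => D G (h i)) := by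
  have hne : ∀ i, (D G (h i)).Nonempty := by
    intro i
    obtain ⟨e, he, _⟩ := meets hg (hh i) (hd i)
    exact ⟨e, he⟩
  refine ⟨hne, ?_⟩
  set X : Set (Finset V) := Set.range fun i => D G (h i) with hX
  have hC : Cli G X := by
    rintro _ ⟨i, rfl⟩ a ha b hb hab
    exact D_clique ha hb hab
  refine ⟨hC, ?_⟩
  have hXi : ∀ i, D G (h i) ∈ X := fun i => ⟨i, rfl⟩
  by_cases hu : ∃ u, ∀ i, u ∈ D G (h i)
  · obtain ⟨u, hu⟩ := hu
    refine Or.inr ?_
    rintro _ ⟨i, rfl⟩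
    refine ⟨u, hu i, mem_cen_of_common hC (mem_un_of_mem (hXi i) (hu i)) ?_⟩
    rintro _ ⟨k, rfl⟩
    exact hu k
  push Not at hu
  have hU : ∀ d, d ∈ un X ↔ ∃ i, d ∈ D G (h i) := by
    intro d
    rw [mem_un]
    constructor
    · rintro ⟨_, ⟨i, rfl⟩, hi⟩; exact ⟨i, hi⟩
    · rintro ⟨i, hi⟩; exact ⟨_, hXi i, hi⟩
  have hex : ∀ d ∈ un X, d ∈ D G g → d ∈ D G g⁻¹ → False := by
    intro d hd' h1 h2
    obtain ⟨i, hi⟩ := (hU d).1 hd'
    obtain ⟨k, hk⟩ := hu d
    exact not_two_sided (hh i) (hh k) h1 h2 hi (by rwa [← hd]) hk (by rwa [← hd])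
  have hneu : ∀ d ∈ un X, d ∉ D G g → d ∉ D G g⁻¹ → ∀ r, r ∈ D G g ∨ r ∈ D G g⁻¹ →
      G.Adj r d := by
    intro d hd' h1 h2 r hr
    obtain ⟨i, hi⟩ := (hU d).1 hd'
    exact neutral_adj (hh i) h1 h2 hi (by rwa [← hd]) hr
  have hone : ∀ f b, f ∈ D G g → b ∈ D G g⁻¹ → f ≠ b → ¬ G.Adj f b → ∀ k,
      (f ∈ D G (h k) ↔ b ∉ D G (h k)) := by
    intro f b h1 h2 hne' h3 k
    constructor
    · intro h4 h5
      exact h3 (D_clique h4 h5 hne')
    · intro h4
      by_contra h5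
      exact exactly_one (hh k) h1 h2 hne' h3 h5 (by rwa [← hd])
  by_cases hp : ∃ f ∈ un X, ∃ b ∈ un X, f ∈ D G g ∧ b ∈ D G g⁻¹ ∧ ¬ G.Adj f b
  · refine Or.inl ?_
    obtain ⟨f, hf, b, hb, hfg, hbg, hfb⟩ := hp
    have hne' : f ≠ b := by
      rintro rfl
      exact hex f hf hfg hbg
    have hanti : anti X f b := by
      rintro _ ⟨k, rfl⟩
      exact hone f b hfg hbg hne' hfb k
    refine ⟨f, hf, ?_, b, ?_, hanti⟩
    · set K : Finset V := (un X).filter fun y =>
        (y ∈ D G g ∧ tie X f y) ∨ (y ∈ D G g⁻¹ ∧ anti X f y) with hK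
      have hmK : ∀ y, y ∈ K ↔ y ∈ un X ∧ ((y ∈ D G g ∧ tie X f y) ∨ (y ∈ D G g⁻¹ ∧ anti X f y)) :=
        fun y => by rw [hK, Finset.mem_filter]
      have hClo : Clo G (un X) K := by
        refine ⟨Finset.filter_subset _ _, fun y hy w hw hwK => ?_⟩
        rw [hmK] at hy
        have hyw : y ≠ w := by
          rintro rfl
          exact hwK ((hmK y).2 hy)
        obtain ⟨hyU, hy⟩ := hy
        by_cases hw1 : w ∈ D G g
        · rcases hy with ⟨hy1, hy2⟩ | ⟨hy1, hy2⟩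
          · exact D_clique hy1 hw1 hyw
          · by_contra hadj
            apply hwK
            refine (hmK w).2 ⟨hw, Or.inl ⟨hw1, ?_⟩⟩
            rintro _ ⟨k, rfl⟩
            have e1 := hone w y hw1 hy1 hyw.symm (fun h => hadj h.symm) k
            have e2 := hy2 _ (hXi k)
            tauto
        · by_cases hw2 : w ∈ D G g⁻¹
          · rcases hy with ⟨hy1, hy2⟩ | ⟨hy1, hy2⟩
            · by_contra hadj
              apply hwK
              refine (hmK w).2 ⟨hw, Or.inr ⟨hw2, ?_⟩⟩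
              rintro _ ⟨k, rfl⟩
              have e1 := hone y w hy1 hw2 hyw hadj k
              have e2 := hy2 _ (hXi k)
              tauto
            · exact D_clique hy1 hw2 hyw
          · exact hneu w hw hw1 hw2 y (hy.imp (fun h => h.1) fun h => h.1)
      have hfK : f ∈ K := (hmK f).2 ⟨hf, Or.inl ⟨hfg, fun σ _ => Iff.rfl⟩⟩
      intro y hy
      rcases ((hmK y).1 (co_subset hClo hfK hy)).2 with h1 | h1
      · exact Or.inl h1.2
      · exact Or.inr h1.2
    · refine mem_co.2 ⟨hb, fun K hK hfK => ?_⟩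
      by_contra hbK
      exact hfb (hK.2 f hfK b hb hbK)
  · push Not at hp
    refine Or.inr ?_
    rintro _ ⟨i, rfl⟩
    obtain ⟨e, he, he'⟩ := meets hg (hh i) (hd i)
    have heU := mem_un_of_mem (hXi i) he
    refine ⟨e, he, mem_cen.2 ⟨heU, fun y hy hne' => ?_⟩⟩
    by_cases hy1 : y ∈ D G g
    · rcases he' with h1 | h1
      · exact D_clique h1 hy1 hne'.symm
      · exact (hp y hy e heU hy1 h1).symm
    · by_cases hy2 : y ∈ D G g⁻¹
      · rcases he' with h1 | h1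
        · exact hp e heU y hy h1 hy2
        · exact D_clique h1 hy2 hne'.symm
      · exact hneu y hy hy1 hy2 e he'

end Pool.Agent.K4H70.SV
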