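import Pool.Agent.K4H70.SV.Root

/-!
Descent cochains of right-angled Coxeter groups.
-/

set_option autoImplicit false

open scoped Classical

namespace Pool.Agent.K4H70.SV

open Pool.Agent.W907.SG (W cox)
open Pool.Agent.Q134.SV

set_option linter.unusedSectionVars false

theorem cobd_cobd {X : Type} : ∀ {n : ℕ} (b : (Fin n → X) → ℝ) (g : Fin (n + 2) → X),
    cobd (cobd b) g = 0
  | 0, b, g => by
      have h1 : ∀ h : Fin 1 → X, cobd b h = b Fin.elim0 := by
        intro h
        unfold cobd
        rw [Fin.sum_univ_one]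
        simp only [Fin.val_zero, pow_zero, one_mul]
        exact congrArg b (Subsingleton.elim _ _)
      have h2 : cobd (cobd b) g = cobd b (g ∘ Fin.succAbove 0) - cobd b (g ∘ Fin.succAbove 1) := by
        change ∑ i : Fin 2, (-1 : ℝ) ^ (i : ℕ) * cobd b (g ∘ i.succAbove) = _
        rw [Fin.sum_univ_two]
        simp only [Fin.val_zero, pow_zero, one_mul, Fin.val_one, pow_one, neg_mul]
        ring
      rw [h2, h1, h1, sub_self]
  | n + 1, b, g => by
      obtain ⟨x, g', rfl⟩ : ∃ x g', g = (Fin.cons x g' : Fin (n + 3) → X) :=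
        ⟨g 0, Fin.tail g, (Fin.cons_self_tail g).symm⟩
      rw [cobd_cons]
      have h1 : (fun g' : Fin (n + 1) → X => cobd b (Fin.cons x g')) = fun g' =>
          b g' - cobd (fun g'' => b (Fin.cons x g'')) g' := by
        funext g'
        exact cobd_cons b x g'
      rw [h1, cobd_sub, cobd_cobd (fun g'' => b (Fin.cons x g''))]
      ring

variable {V : Type} [Fintype V] [LinearOrder V] {G : SimpleGraph V}

/-- the function of sets given by the least elements -/
noncomputable def th {n : ℕ} (a : (Fin n → V) → ℝ) (σ : Fin n → Finset V) : ℝ :=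
  if h : ∀ i, (σ i).Nonempty then a (fun i => (σ i).min' (h i)) else 0

lemma th_pos {n : ℕ} (a : (Fin n → V) → ℝ) (σ : Fin n → Finset V) (h : ∀ i, (σ i).Nonempty) :
    th a σ = a (fun i => (σ i).min' (h i)) := dif_pos h

lemma th_neg {n : ℕ} (a : (Fin n → V) → ℝ) (σ : Fin n → Finset V) {i : Fin n} (h : σ i = ∅) :
    th a σ = 0 := dif_neg fun h' => by
      have := h' i
      rw [h] at this
      exact Finset.not_nonempty_empty this

lemma cobd_th {n : ℕ} (a : (Fin n → V) → ℝ) (σ : Fin (n + 1) → Finset V)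
    (h : ∀ i, (σ i).Nonempty) : cobd (th a) σ = cobd a (fun i => (σ i).min' (h i)) := by
  unfold cobd
  refine Finset.sum_congr rfl fun i _ => ?_
  rw [th_pos a (σ ∘ i.succAbove) fun k => h _]
  rfl

lemma cobd_th_empty {n : ℕ} (a : (Fin n → V) → ℝ) (σ : Fin (n + 1) → Finset V) {j : Fin (n + 1)}
    (h : σ j = ∅) : cobd (th a) σ = (-1 : ℝ) ^ (j : ℕ) * th a (σ ∘ j.succAbove) := by
  unfold cobd
  rw [Finset.sum_eq_single j]
  · intro i _ hij
    obtain ⟨k, hk⟩ := Fin.exists_succAbove_eq hij.symm
    rw [th_neg a (σ ∘ i.succAbove) (i := k), mul_zero]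
    rw [Function.comp_apply, hk, h]
  · intro h'; exact absurd (Finset.mem_univ _) h'

/-- The entries of the tuple lie in a closed star, or in the union of two nonadjacent vertices and
their common neighbours. -/
def Small {V : Type} (G : SimpleGraph V) {m : ℕ} (v : Fin m → V) : Prop :=
  (∃ r, ∀ i, v i = r ∨ G.Adj r (v i)) ∨
  ∃ t t', t ≠ t' ∧ ¬ G.Adj t t' ∧ ∀ i, v i = t ∨ v i = t' ∨ (G.Adj t (v i) ∧ G.Adj t' (v i))

lemma small_of_mem {n : ℕ} {h : Fin n → W G} {σ : Fin n → Finset V} (hσ : ∀ i, σ i = D G (h i))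
    (hne : ∀ i, (σ i).Nonempty) {u : V} (hu : ∀ i, u ∈ σ i) :
    Small G fun i => (σ i).min' (hne i) := by
  refine Or.inl ⟨u, fun i => ?_⟩
  by_cases h1 : (σ i).min' (hne i) = u
  · exact Or.inl h1
  · refine Or.inr (D_clique (h := h i) ?_ ?_ (Ne.symm h1))
    · rw [← hσ]; exact hu i
    · rw [← hσ]; exact Finset.min'_mem _ _

/-- The data lemma. -/
theorem data {n : ℕ} {h h' : Fin (n + 1) → W G} {g : W G} (hg : g ≠ 1)
    (hh : ∀ i, h i = g * h' i) (hd : ∀ i, D G (h i) = D G (h' i)) :
    ∃ hne : ∀ i, (D G (h i)).Nonempty, Small G fun i => (D G (h i)).min' (hne i) := by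
  have hne : ∀ i, (D G (h i)).Nonempty := by
    intro i
    by_contra hc
    have h1 : h i = 1 := by
      by_contra h2
      exact hc (D_nonempty h2)
    have h3 : h' i = 1 := by
      by_contra h2
      rw [hd] at hc
      exact hc (D_nonempty h2)
    have := hh i
    rw [h1, h3, mul_one] at this
    exact hg this.symm
  refine ⟨hne, ?_⟩
  set s : Fin (n + 1) → V := fun i => (D G (h i)).min' (hne i) with hs
  have hsm : ∀ i, s i ∈ D G (h i) := fun i => Finset.min'_mem _ _
  have hsm' : ∀ i, s i ∈ D G (h' i) := fun i => by rw [← hd]; exact hsm i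
  by_cases hu : ∃ u, ∀ i, u ∈ D G (h i)
  · obtain ⟨u, hu⟩ := hu
    exact small_of_mem (fun i => rfl) hne hu
  push Not at hu
  -- types
  have hex : ∀ i, ¬ (s i ∈ D G g ∧ s i ∈ D G g⁻¹) := by
    rintro i ⟨h1, h2⟩
    obtain ⟨k, hk⟩ := hu (s i)
    exact not_two_sided (hh i) (hh k) h1 h2 (hsm i) (hsm' i) hk (by rwa [← hd])
  have hneu : ∀ i, s i ∉ D G g → s i ∉ D G g⁻¹ → ∀ r, r ∈ D G g ∨ r ∈ D G g⁻¹ → G.Adj r (s i) :=
    fun i h1 h2 r hr => neutral_adj (hh i) h1 h2 (hsm i) (hsm' i) hr
  have hone : ∀ i j, s i ∈ D G g → s j ∈ D G g⁻¹ → ¬ G.Adj (s i) (s j) → ∀ k,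
      (s i ∈ D G (h k) ↔ s j ∉ D G (h k)) := by
    intro i j h1 h2 h3 k
    have hij : s i ≠ s j := by
      intro e
      exact hex i ⟨h1, by rw [e]; exact h2⟩
    constructor
    · intro h4 h5
      exact h3 (D_clique h4 h5 hij)
    · intro h4
      by_contra h5
      exact exactly_one (hh k) h1 h2 hij h3 h5 (by rwa [← hd])
  obtain ⟨r, hr⟩ := D_nonempty hg
  by_cases hp : ∃ i j, s i ∈ D G g ∧ s j ∈ D G g⁻¹ ∧ ¬ G.Adj (s i) (s j)
  · obtain ⟨p, q, hp, hq, hpq⟩ := hp
    have hpq' : s p ≠ s q := by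
      intro e
      exact hex p ⟨hp, by rw [e]; exact hq⟩
    refine Or.inr ⟨s p, s q, hpq', hpq, fun i => ?_⟩
    have hmin : ∀ i j k, s i ∈ D G g → s j ∈ D G g⁻¹ → ¬ G.Adj (s i) (s j) → s k ∈ D G g →
        ¬ G.Adj (s k) (s j) → s i = s k := by
      intro i j k hi hj hij hk hkj
      have h1 : s k ∈ D G (h i) := by
        rw [hone k j hk hj hkj i, ← hone i j hi hj hij i]; exact hsm i
      have h2 : s i ∈ D G (h k) := by
        rw [hone i j hi hj hij k, ← hone k j hk hj hkj k]; exact hsm k
      exact le_antisymm (Finset.min'_le _ _ h1) (Finset.min'_le _ _ h2)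
    have hmin' : ∀ i j k, s i ∈ D G g → s j ∈ D G g⁻¹ → ¬ G.Adj (s i) (s j) → s k ∈ D G g⁻¹ →
        ¬ G.Adj (s i) (s k) → s j = s k := by
      intro i j k hi hj hij hk hik
      have e1 := fun l => not_iff_not.2 (hone i j hi hj hij l)
      have e2 := fun l => not_iff_not.2 (hone i k hi hk hik l)
      have h1 : s k ∈ D G (h j) := by
        have := (e2 j).symm.trans (e1 j)
        rw [not_not, not_not] at this
        exact this.2 (hsm j)
      have h2 : s j ∈ D G (h k) := by
        have := (e2 k).symm.trans (e1 k)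
        rw [not_not, not_not] at this
        exact this.1 (hsm k)
      exact le_antisymm (Finset.min'_le _ _ h1) (Finset.min'_le _ _ h2)
    by_cases h1 : s i ∈ D G g
    · by_cases h2 : G.Adj (s i) (s q)
      · by_cases h3 : s i = s p
        · exact Or.inl h3
        · refine Or.inr (Or.inr ⟨?_, h2.symm⟩)
          exact D_clique hp h1 (Ne.symm h3)
      · exact Or.inl (hmin p q i hp hq hpq h1 h2).symm
    · by_cases h2 : s i ∈ D G g⁻¹
      · by_cases h3 : G.Adj (s p) (s i)
        · by_cases h4 : s i = s q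
          · exact Or.inr (Or.inl h4)
          · refine Or.inr (Or.inr ⟨h3, ?_⟩)
            exact D_clique hq h2 (Ne.symm h4)
        · exact Or.inr (Or.inl (hmin' p q i hp hq hpq h2 h3).symm)
      · exact Or.inr (Or.inr ⟨hneu i h1 h2 _ (Or.inl hp), hneu i h1 h2 _ (Or.inr hq)⟩)
  · push Not at hp
    refine Or.inl ?_
    by_cases h1 : ∃ i, s i ∈ D G g
    · obtain ⟨i, hi⟩ := h1
      refine ⟨s i, fun k => ?_⟩
      by_cases hk : s k ∈ D G g
      · by_cases e : s k = s i
        · exact Or.inl e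
        · exact Or.inr (D_clique hi hk (Ne.symm e))
      · by_cases hk' : s k ∈ D G g⁻¹
        · exact Or.inr (hp i k hi hk')
        · exact Or.inr (hneu k hk hk' _ (Or.inl hi))
    · push Not at h1
      by_cases h2 : ∃ i, s i ∈ D G g⁻¹
      · obtain ⟨i, hi⟩ := h2
        refine ⟨s i, fun k => ?_⟩
        by_cases hk' : s k ∈ D G g⁻¹
        · by_cases e : s k = s i
          · exact Or.inl e
          · exact Or.inr (D_clique hi hk' (Ne.symm e))
        · exact Or.inr (hneu k (h1 k) hk' _ (Or.inr hi))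
      · push Not at h2
        exact ⟨r, fun k => Or.inr (hneu k (h1 k) (h2 k) _ (Or.inl hr))⟩

variable (G) in
/-- the cochain -/
noncomputable def ter {n : ℕ} (a : (Fin n → V) → ℝ) (x : Fin (n + 1) → W G) (v : W G) : ℝ :=
  cobd (th a) fun i => D G (v⁻¹ * x i)

variable (G) in
/-- the sign -/
noncomputable def eps (v : W G) : ℝ := ((par G v : ℤ) : ℝ)

lemma eps_mul (v w : W G) : eps G (v * w) = eps G v * eps G w := by
  unfold eps
  rw [map_mul]; push_cast; rfl

lemma eps_gen (v : V) : eps G (gen G v) = -1 := by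
  unfold eps
  rw [par_gen]; simp

lemma abs_eps (v : W G) : |eps G v| = 1 := by
  unfold eps
  rcases Int.units_eq_one_or (par G v) with h | h <;> rw [h] <;> simp

variable (G) in
/-- the descent cochain -/
noncomputable def cc {n : ℕ} (a : (Fin n → V) → ℝ) (x : Fin (n + 1) → W G) : ℝ :=
  ∑ᶠ v, eps G v * ter G a x v

section

variable {n : ℕ} {a : (Fin n → V) → ℝ} (hloc : ∀ v : Fin (n + 1) → V, Small G v → cobd a v = 0)

include hloc

lemma ter_inj (x : Fin (n + 1) → W G) :
    Set.InjOn (fun (v : W G) (i : Fin (n + 1)) => D G (v⁻¹ * x i))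
      (Function.support (ter G a x)) := by
  intro v hv w _ hvw
  by_contra hne
  apply hv
  have hg : v⁻¹ * w ≠ 1 := fun e => hne (by
    have := congrArg (fun y => v * y) e
    simpa using this.symm)
  obtain ⟨h1, h2⟩ := data (h := fun i => v⁻¹ * x i) (h' := fun i => w⁻¹ * x i) hg
    (fun i => by group) (fun i => congrFun hvw i)
  unfold ter
  rw [cobd_th a _ h1]
  exact hloc _ h2

lemma ter_fin (x : Fin (n + 1) → W G) : (Function.support (ter G a x)).Finite :=
  Set.Finite.of_finite_image (Set.toFinite _) (ter_inj hloc x)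

lemma eter_fin (x : Fin (n + 1) → W G) :
    (Function.support fun v => eps G v * ter G a x v).Finite :=
  (ter_fin hloc x).subset fun v hv => by
    intro h
    apply hv
    simp only
    rw [h, mul_zero]

lemma cc_bdd : ∃ C : ℝ, ∀ x : Fin (n + 1) → W G, |cc G a x| ≤ C := by
  obtain ⟨M, hM⟩ : ∃ M : ℝ, ∀ σ : Fin (n + 1) → Finset V, |cobd (th a) σ| ≤ M :=
    ⟨∑ σ : Fin (n + 1) → Finset V, |cobd (th a) σ|, fun σ =>
      Finset.single_le_sum (f := fun σ => |cobd (th a) σ|) (fun _ _ => abs_nonneg _)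
        (Finset.mem_univ σ)⟩
  have hM0 : 0 ≤ M := (abs_nonneg _).trans (hM fun _ => ∅)
  refine ⟨Fintype.card (Fin (n + 1) → Finset V) * M, fun x => ?_⟩
  have h1 : cc G a x = ∑ v ∈ (ter_fin hloc x).toFinset, eps G v * ter G a x v := by
    unfold cc
    refine finsum_eq_sum_of_support_subset _ ?_
    intro v hv
    simp only [Set.Finite.coe_toFinset, Function.mem_support]
    intro h
    apply hv
    simp only
    rw [h, mul_zero]
  rw [h1]
  calc |∑ v ∈ (ter_fin hloc x).toFinset, eps G v * ter G a x v|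
      ≤ ∑ v ∈ (ter_fin hloc x).toFinset, |eps G v * ter G a x v| := Finset.abs_sum_le_sum_abs _ _
    _ ≤ ∑ v ∈ (ter_fin hloc x).toFinset, M := by
        refine Finset.sum_le_sum fun v _ => ?_
        rw [abs_mul, abs_eps, one_mul]
        exact hM _
    _ = ((ter_fin hloc x).toFinset.card : ℝ) * M := by rw [Finset.sum_const, nsmul_eq_mul]
    _ ≤ Fintype.card (Fin (n + 1) → Finset V) * M := by
        refine mul_le_mul_of_nonneg_right ?_ hM0
        rw [Nat.cast_le]
        refine Finset.card_le_card_of_injOn (fun (v : W G) (i : Fin (n + 1)) => D G (v⁻¹ * x i))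
          (fun _ _ => Finset.mem_univ _) ?_
        simp only [Set.Finite.coe_toFinset]
        exact ter_inj hloc x

lemma cc_coc (x : Fin (n + 2) → W G) : cobd (cc G a) x = 0 := by
  have h1 : ∀ i : Fin (n + 2), (-1 : ℝ) ^ (i : ℕ) * cc G a (x ∘ i.succAbove) =
      ∑ᶠ v, (-1 : ℝ) ^ (i : ℕ) * (eps G v * ter G a (x ∘ i.succAbove) v) := by
    intro i
    unfold cc
    exact mul_finsum _ _
  unfold cobd
  rw [Finset.sum_congr rfl fun i _ => h1 i, ← finsum_sum_comm]
  · rw [← finsum_zero (α := W G)]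
    congr 1
    funext v
    have h2 := cobd_cobd (th a) fun i => D G (v⁻¹ * x i)
    calc ∑ i : Fin (n + 2), (-1 : ℝ) ^ (i : ℕ) * (eps G v * ter G a (x ∘ i.succAbove) v)
        = eps G v * ∑ i : Fin (n + 2), (-1 : ℝ) ^ (i : ℕ) * ter G a (x ∘ i.succAbove) v := by
          rw [Finset.mul_sum]
          exact Finset.sum_congr rfl fun i _ => by ring
      _ = 0 := by
          have h3 : ∑ i : Fin (n + 2), (-1 : ℝ) ^ (i : ℕ) * ter G a (x ∘ i.succAbove) v =
            cobd (cobd (th a)) fun i => D G (v⁻¹ * x i) := rfl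
          rw [h3, h2, mul_zero]
  · intro i _
    refine (ter_fin hloc (x ∘ i.succAbove)).subset fun v hv => ?_
    intro h
    apply hv
    simp only
    rw [h, mul_zero, mul_zero]

end

lemma cc_gen {n : ℕ} (a : (Fin n → V) → ℝ) (u : V) (x : Fin (n + 1) → W G) :
    cc G a (fun i => gen G u * x i) = - cc G a x := by
  unfold cc
  have h1 : ∀ v : W G, eps G (gen G u * v) * ter G a (fun i => gen G u * x i) (gen G u * v) =
      - (eps G v * ter G a x v) := by
    intro v
    have h2 : ter G a (fun i => gen G u * x i) (gen G u * v) = ter G a x v := by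
      unfold ter
      congr 1
      funext i
      congr 1
      group
    rw [h2, eps_mul, eps_gen]
    ring
  rw [← finsum_comp_equiv (Equiv.mulLeft (gen G u))]
  simp only [Equiv.coe_mulLeft, h1]
  exact finsum_neg_distrib _

lemma cc_nrm {n : ℕ} {a : (Fin n → V) → ℝ}
    (alt : ∀ (v : Fin n → V) (i j : Fin n), i ≠ j → a (v ∘ Equiv.swap i j) = - a v)
    (x : Fin (n + 1) → W G) (k : Fin n) (hk : x k.castSucc = x k.succ) : cc G a x = 0 := by
  have h0 : ∀ v : W G, ter G a x v = 0 := by
    intro v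
    unfold ter
    set σ : Fin (n + 1) → Finset V := fun i => D G (v⁻¹ * x i) with hσ
    have hσk : σ k.castSucc = σ k.succ := by simp only [hσ, hk]
    have hth : ∀ (τ : Fin n → Finset V) (p q : Fin n), p ≠ q → τ p = τ q → th a τ = 0 := by
      intro τ p q hpq h
      unfold th
      split_ifs with h1
      · refine alt_self alt _ hpq ?_
        simp only [h]
      · rfl
    unfold cobd
    rw [Fintype.sum_eq_add k.castSucc k.succ (Fin.castSucc_lt_succ).ne]
    · have e1 : σ ∘ (k.castSucc).succAbove = σ ∘ (k.succ).succAbove := by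
        funext l
        simp only [Function.comp_apply]
        rcases lt_trichotomy l k with h | h | h
        · rw [Fin.succAbove_of_castSucc_lt _ _ (by rwa [Fin.castSucc_lt_castSucc_iff]),
            Fin.succAbove_of_castSucc_lt _ _ (by
              rw [Fin.lt_def] at h ⊢
              simp only [Fin.val_castSucc, Fin.val_succ]
              omega)]
        · subst h
          rw [Fin.succAbove_castSucc_self, Fin.succAbove_succ_self, hσk]
        · rw [Fin.succAbove_of_le_castSucc _ _ (by
              rw [Fin.le_def]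
              rw [Fin.lt_def] at h
              simp only [Fin.val_castSucc]
              omega),
            Fin.succAbove_of_le_castSucc _ _ (by
              rw [Fin.le_def]
              rw [Fin.lt_def] at h
              simp only [Fin.val_castSucc, Fin.val_succ]
              omega)]
      rw [e1]
      simp only [Fin.val_castSucc, Fin.val_succ, pow_succ]
      ring
    · rintro i ⟨h1, h2⟩
      obtain ⟨p, hp⟩ := Fin.exists_succAbove_eq h1.symm
      obtain ⟨q, hq⟩ := Fin.exists_succAbove_eq h2.symm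
      rw [hth (σ ∘ i.succAbove) p q, mul_zero]
      · intro e
        rw [e, hq] at hp
        exact (Fin.castSucc_lt_succ (i := k)).ne hp.symm
      · simp only [Function.comp_apply, hp, hq, hσk]
  unfold cc
  rw [← finsum_zero (α := W G)]
  congr 1
  funext v
  rw [h0 v, mul_zero]

/-- the descent cochain is a bounded cocycle -/
theorem cc_good {n : ℕ} {a : (Fin n → V) → ℝ}
    (alt : ∀ (v : Fin n → V) (i j : Fin n), i ≠ j → a (v ∘ Equiv.swap i j) = - a v)
    (hloc : ∀ v : Fin (n + 1) → V, Small G v → cobd a v = 0) : Good G n (cc G a) :=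
  ⟨fun x g => cc_gen a x g, cc_coc hloc, cc_bdd hloc, cc_nrm alt⟩

end Pool.Agent.K4H70.SV
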