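import Pool.Agent.K4H70.SV.Bop

/-!
Labels of aligned families of cliques.
-/

set_option autoImplicit false

open scoped Classical

namespace Pool.Agent.K4H70.SV

open Pool.Agent.W907.SG (W cox)
open Pool.Agent.Q134.SV

set_option linter.unusedSectionVars false

variable {V : Type} [Fintype V] [LinearOrder V] (G : SimpleGraph V)

/-- the union -/
noncomputable def un (X : Set (Finset V)) : Finset V := Finset.univ.filter fun v => ∃ σ ∈ X, v ∈ σ

lemma mem_un {X : Set (Finset V)} {v : V} : v ∈ un X ↔ ∃ σ ∈ X, v ∈ σ := by simp [un]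

lemma un_mono {X X' : Set (Finset V)} (h : X' ⊆ X) : un X' ⊆ un X := by
  intro v hv
  rw [mem_un] at hv ⊢
  obtain ⟨σ, hσ, hv⟩ := hv
  exact ⟨σ, h hσ, hv⟩

/-- there are no nonadjacent pairs between `K` and its complement in `U` -/
def Clo (U K : Finset V) : Prop := K ⊆ U ∧ ∀ x ∈ K, ∀ y ∈ U, y ∉ K → G.Adj x y

/-- the component of the nonadjacency graph -/
noncomputable def co (U : Finset V) (x : V) : Finset V :=
  U.filter fun y => ∀ K, Clo G U K → x ∈ K → y ∈ K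

/-- tied -/
def tie (X : Set (Finset V)) (x y : V) : Prop := ∀ σ ∈ X, (x ∈ σ ↔ y ∈ σ)

/-- complementary -/
def anti (X : Set (Finset V)) (x y : V) : Prop := ∀ σ ∈ X, (x ∈ σ ↔ y ∉ σ)

/-- the component of `x` is split -/
def Spl (X : Set (Finset V)) (x : V) : Prop :=
  x ∈ un X ∧ (∀ y ∈ co G (un X) x, tie X x y ∨ anti X x y) ∧ ∃ y ∈ co G (un X) x, anti X x y

/-- the central elements -/
noncomputable def cen (U : Finset V) : Finset V := U.filter fun z => ∀ y ∈ U, y ≠ z → G.Adj z y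

/-- the members are cliques -/
def Cli (X : Set (Finset V)) : Prop := ∀ σ ∈ X, ∀ a ∈ σ, ∀ b ∈ σ, a ≠ b → G.Adj a b

/-- aligned -/
def Ali (X : Set (Finset V)) : Prop :=
  Cli G X ∧ ((∃ x, Spl G X x) ∨ ∀ σ ∈ X, ∃ z ∈ σ, z ∈ cen G (un X))

variable {G}

lemma mem_cen {U : Finset V} {z : V} : z ∈ cen G U ↔ z ∈ U ∧ ∀ y ∈ U, y ≠ z → G.Adj z y := by
  simp [cen]

lemma Clo.compl {U K : Finset V} (h : Clo G U K) : Clo G U (U \ K) := by
  refine ⟨Finset.sdiff_subset, fun x hx y hy hyK => ?_⟩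
  rw [Finset.mem_sdiff] at hx
  have : y ∈ K := by
    by_contra h'
    exact hyK (Finset.mem_sdiff.2 ⟨hy, h'⟩)
  exact (h.2 y this x hx.1 hx.2).symm

lemma mem_co {U : Finset V} {x y : V} :
    y ∈ co G U x ↔ y ∈ U ∧ ∀ K, Clo G U K → x ∈ K → y ∈ K := by simp [co]

lemma self_mem_co {U : Finset V} {x : V} (h : x ∈ U) : x ∈ co G U x :=
  mem_co.2 ⟨h, fun _ _ h => h⟩

lemma clo_co (U : Finset V) (x : V) : Clo G U (co G U x) := by
  refine ⟨Finset.filter_subset _ _, fun y hy z hz hzc => ?_⟩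
  rw [mem_co] at hzc
  push Not at hzc
  obtain ⟨K, hK, hxK, hzK⟩ := hzc hz
  exact hK.2 y ((mem_co.1 hy).2 K hK hxK) z hz hzK

lemma co_subset {U K : Finset V} {x : V} (h : Clo G U K) (hx : x ∈ K) : co G U x ⊆ K :=
  fun _ hy => (mem_co.1 hy).2 K h hx

lemma co_symm {U : Finset V} {x y : V} (hx : x ∈ U) (h : y ∈ co G U x) : x ∈ co G U y := by
  refine mem_co.2 ⟨hx, fun K hK hy => ?_⟩
  by_contra hxK
  have := (mem_co.1 h).2 _ hK.compl (Finset.mem_sdiff.2 ⟨hx, hxK⟩)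
  exact (Finset.mem_sdiff.1 this).2 hy

lemma co_eq {U : Finset V} {x y : V} (hx : x ∈ U) (h : y ∈ co G U x) : co G U y = co G U x :=
  Finset.Subset.antisymm (co_subset (clo_co U x) h) (co_subset (clo_co U y) (co_symm hx h))


lemma Cli.mono {X X' : Set (Finset V)} (h : Cli G X) (h' : X' ⊆ X) : Cli G X' :=
  fun σ hσ => h σ (h' hσ)

lemma mem_cen_of_common {X : Set (Finset V)} (h : Cli G X) {x : V} (hx : x ∈ un X)
    (hc : ∀ σ ∈ X, x ∈ σ) : x ∈ cen G (un X) := by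
  refine mem_cen.2 ⟨hx, fun y hy hne => ?_⟩
  obtain ⟨σ, hσ, hyσ⟩ := mem_un.1 hy
  exact h σ hσ x (hc σ hσ) y hyσ hne.symm

lemma tie_or_anti_trans {X : Set (Finset V)} {x y w : V} (h1 : tie X x y ∨ anti X x y)
    (h2 : tie X x w ∨ anti X x w) : tie X y w ∨ anti X y w := by
  rcases h1 with h1 | h1 <;> rcases h2 with h2 | h2
  · exact Or.inl fun σ hσ => (h1 σ hσ).symm.trans (h2 σ hσ)
  · exact Or.inr fun σ hσ => (h1 σ hσ).symm.trans (h2 σ hσ)
  · refine Or.inr fun σ hσ => ?_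
    have := h1 σ hσ
    have := h2 σ hσ
    tauto
  · refine Or.inl fun σ hσ => ?_
    have := h1 σ hσ
    have := h2 σ hσ
    tauto

lemma Spl.mem {X : Set (Finset V)} {x : V} (h : Spl G X x) : x ∈ un X := h.1

lemma Spl.transfer {X : Set (Finset V)} {x y : V} (h : Spl G X x) (hy : y ∈ co G (un X) x) :
    Spl G X y := by
  have hco := co_eq h.1 hy
  refine ⟨(mem_co.1 hy).1, fun w hw => ?_, ?_⟩
  · rw [hco] at hw
    exact tie_or_anti_trans (h.2.1 y hy) (h.2.1 w hw)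
  · rw [hco]
    rcases h.2.1 y hy with h1 | h1
    · obtain ⟨b, hb, hxb⟩ := h.2.2
      exact ⟨b, hb, fun σ hσ => (h1 σ hσ).symm.trans (hxb σ hσ)⟩
    · refine ⟨x, self_mem_co h.1, fun σ hσ => ?_⟩
      have := h1 σ hσ
      tauto

/-- the two cases of a subfamily -/
lemma Spl.cases {X X' : Set (Finset V)} {x : V} (h : Spl G X x) (hX : X' ⊆ X) :
    (co G (un X') x = co G (un X) x ∧ Spl G X' x) ∨
      ∀ y ∈ co G (un X) x, y ∈ un X' → ∀ σ ∈ X', y ∈ σ := by
  by_cases h1 : ∃ σ ∈ X', x ∈ σ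
  · by_cases h2 : ∃ σ ∈ X', x ∉ σ
    · left
      obtain ⟨σ, hσ, hxσ⟩ := h1
      obtain ⟨τ, hτ, hxτ⟩ := h2
      have hK : co G (un X) x ⊆ un X' := by
        intro y hy
        rcases h.2.1 y hy with h3 | h3
        · exact mem_un.2 ⟨σ, hσ, (h3 σ (hX hσ)).1 hxσ⟩
        · refine mem_un.2 ⟨τ, hτ, ?_⟩
          by_contra h4
          exact hxτ ((h3 τ (hX hτ)).2 h4)
      have hU : un X' ⊆ un X := un_mono hX
      have hx : x ∈ un X' := hK (self_mem_co h.1)
      have hC : Clo G (un X') (co G (un X) x) :=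
        ⟨hK, fun a ha b hb hbK => (clo_co (un X) x).2 a ha b (hU hb) hbK⟩
      have e : co G (un X') x = co G (un X) x := by
        refine Finset.Subset.antisymm (co_subset hC (self_mem_co h.1)) fun y hy => ?_
        refine mem_co.2 ⟨hK hy, fun K' hK' hxK' => ?_⟩
        have h5 : Clo G (un X) (K' ∩ co G (un X) x) := by
          refine ⟨fun a ha => hU (hK (Finset.mem_inter.1 ha).2), fun a ha b hb hbK => ?_⟩
          rw [Finset.mem_inter] at ha
          by_cases h6 : b ∈ co G (un X) x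
          · refine hK'.2 a ha.1 b (hK h6) fun h7 => hbK (Finset.mem_inter.2 ⟨h7, h6⟩)
          · exact (clo_co (un X) x).2 a ha.2 b hb h6
        exact (Finset.mem_inter.1 ((mem_co.1 hy).2 _ h5
          (Finset.mem_inter.2 ⟨hxK', self_mem_co h.1⟩))).1
      refine ⟨e, hx, ?_, ?_⟩
      · rw [e]
        intro y hy
        rcases h.2.1 y hy with h3 | h3
        · exact Or.inl fun σ hσ => h3 σ (hX hσ)
        · exact Or.inr fun σ hσ => h3 σ (hX hσ)
      · rw [e]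
        obtain ⟨b, hb, hxb⟩ := h.2.2
        exact ⟨b, hb, fun σ hσ => hxb σ (hX hσ)⟩
    · right
      push Not at h2
      intro y hy hyU σ hσ
      rcases h.2.1 y hy with h3 | h3
      · exact (h3 σ (hX hσ)).1 (h2 σ hσ)
      · exfalso
        obtain ⟨τ, hτ, hyτ⟩ := mem_un.1 hyU
        exact (h3 τ (hX hτ)).1 (h2 τ hτ) hyτ
  · right
    push Not at h1
    intro y hy hyU σ hσ
    rcases h.2.1 y hy with h3 | h3
    · exfalso
      obtain ⟨τ, hτ, hyτ⟩ := mem_un.1 hyU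
      exact h1 τ hτ ((h3 τ (hX hτ)).2 hyτ)
    · by_contra h4
      exact h1 σ hσ ((h3 σ (hX hσ)).2 h4)

lemma mem_un_of_mem {X : Set (Finset V)} {σ : Finset V} (hσ : σ ∈ X) {x : V} (hx : x ∈ σ) :
    x ∈ un X := mem_un.2 ⟨σ, hσ, hx⟩

/-- the property is hereditary -/
theorem Ali.mono {X X' : Set (Finset V)} (h : Ali G X) (hX : X' ⊆ X) : Ali G X' := by
  refine ⟨h.1.mono hX, ?_⟩
  rcases h.2 with ⟨x, hx⟩ | h2
  · rcases hx.cases hX with h1 | h1
    · exact Or.inl ⟨x, h1.2⟩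
    · refine Or.inr fun σ hσ => ?_
      obtain ⟨b, hb, hxb⟩ := hx.2.2
      by_cases h3 : x ∈ σ
      · have h4 := mem_un_of_mem hσ h3
        exact ⟨x, h3, mem_cen_of_common (h.1.mono hX) h4 (h1 x (self_mem_co hx.1) h4)⟩
      · have h5 : b ∈ σ := by
          by_contra h6
          exact h3 ((hxb σ (hX hσ)).2 h6)
        have h4 := mem_un_of_mem hσ h5
        exact ⟨b, h5, mem_cen_of_common (h.1.mono hX) h4 (h1 b hb h4)⟩
  · refine Or.inr fun σ hσ => ?_
    obtain ⟨z, hz, hzc⟩ := h2 σ (hX hσ)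
    refine ⟨z, hz, mem_cen.2 ⟨mem_un_of_mem hσ hz, fun y hy hne => ?_⟩⟩
    exact (mem_cen.1 hzc).2 y (un_mono hX hy) hne

variable (G) in
/-- the label of a family with split components -/
def LS (X : Set (Finset V)) (x b : V) : Prop :=
  Spl G X x ∧ (∀ y, Spl G X y → x ≤ y) ∧ b ∈ co G (un X) x ∧ anti X x b ∧
    ∀ y ∈ co G (un X) x, anti X x y → b ≤ y

variable (G) in
/-- the label of a family without split components -/
def LC (X : Set (Finset V)) (z : V) : Prop :=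
  (¬ ∃ x, Spl G X x) ∧ z ∈ cen G (un X) ∧ ∀ y ∈ cen G (un X), z ≤ y

lemma LS.unique {X : Set (Finset V)} {x b x' b' : V} (h : LS G X x b) (h' : LS G X x' b') :
    x = x' ∧ b = b' := by
  have h1 : x = x' := le_antisymm (h.2.1 _ h'.1) (h'.2.1 _ h.1)
  subst h1
  exact ⟨rfl, le_antisymm (h.2.2.2.2 _ h'.2.2.1 h'.2.2.2.1) (h'.2.2.2.2 _ h.2.2.1 h.2.2.2.1)⟩

lemma LC.unique {X : Set (Finset V)} {z z' : V} (h : LC G X z) (h' : LC G X z') : z = z' :=
  le_antisymm (h.2.2 _ h'.2.1) (h'.2.2 _ h.2.1)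

lemma exists_min_of {p : V → Prop} (h : ∃ x, p x) : ∃ x, p x ∧ ∀ y, p y → x ≤ y := by
  have h1 : (Finset.univ.filter p).Nonempty := by
    obtain ⟨x, hx⟩ := h
    exact ⟨x, by simp [hx]⟩
  refine ⟨_, (Finset.mem_filter.1 (Finset.min'_mem _ h1)).2, fun y hy => ?_⟩
  exact Finset.min'_le _ _ (by simp [hy])

lemma exists_LS {X : Set (Finset V)} (h : ∃ x, Spl G X x) : ∃ x b, LS G X x b := by
  obtain ⟨x, hx, hmin⟩ := exists_min_of h
  obtain ⟨b, hb, hmin'⟩ := exists_min_of (p := fun b => b ∈ co G (un X) x ∧ anti X x b) hx.2.2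
  exact ⟨x, b, hx, hmin, hb.1, hb.2, fun y hy hy' => hmin' y ⟨hy, hy'⟩⟩

lemma exists_L {X : Set (Finset V)} (h : Ali G X) (hne : X.Nonempty) :
    (∃ x b, LS G X x b) ∨ ∃ z, LC G X z := by
  by_cases h1 : ∃ x, Spl G X x
  · exact Or.inl (exists_LS h1)
  · refine Or.inr ?_
    have h2 := h.2.resolve_left h1
    obtain ⟨σ, hσ⟩ := hne
    obtain ⟨z, _, hz⟩ := h2 σ hσ
    obtain ⟨z, hz, hmin⟩ := exists_min_of (p := fun z => z ∈ cen G (un X)) ⟨z, hz⟩
    exact ⟨z, h1, hz, hmin⟩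

/-! ### Labels -/

/-- the label of two elements -/
noncomputable def jun (G : SimpleGraph V) (x b : V) : V ⊕ V × V :=
  if G.Adj x b then Sum.inl x else Sum.inr (x, b)

/-- admissible labels: vertices, and ordered pairs of nonadjacent vertices -/
def Va (G : SimpleGraph V) : V ⊕ V × V → Prop
  | Sum.inl _ => True
  | Sum.inr p => p.1 ≠ p.2 ∧ ¬ G.Adj p.1 p.2

/-- adjacency of labels -/
def LA (G : SimpleGraph V) : V ⊕ V × V → V ⊕ V × V → Prop
  | Sum.inl u, Sum.inl w => G.Adj u w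
  | Sum.inl u, Sum.inr p => u = p.1 ∨ u = p.2 ∨ (G.Adj u p.1 ∧ G.Adj u p.2)
  | Sum.inr p, Sum.inl u => u = p.1 ∨ u = p.2 ∨ (G.Adj u p.1 ∧ G.Adj u p.2)
  | Sum.inr p, Sum.inr q => G.Adj p.1 q.1 ∧ G.Adj p.1 q.2 ∧ G.Adj p.2 q.1 ∧ G.Adj p.2 q.2

/-- equal or adjacent -/
def RL (G : SimpleGraph V) (l l' : V ⊕ V × V) : Prop := l = l' ∨ LA G l l'

lemma LA.symm {l l' : V ⊕ V × V} (h : LA G l l') : LA G l' l := by
  rcases l with u | p <;> rcases l' with w | q
  · exact SimpleGraph.Adj.symm h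
  · exact h
  · exact h
  · exact ⟨h.1.symm, h.2.2.1.symm, h.2.1.symm, h.2.2.2.symm⟩

lemma RL.symm {l l' : V ⊕ V × V} (h : RL G l l') : RL G l' l := by
  rcases h with h | h
  · exact Or.inl h.symm
  · exact Or.inr h.symm

lemma LA_jun_jun {x b y c : V} (h1 : G.Adj x y) (h2 : G.Adj x c) (h3 : G.Adj b y)
    (h4 : G.Adj b c) : LA G (jun G x b) (jun G y c) := by
  unfold jun
  split_ifs
  · exact h1
  · exact Or.inr (Or.inr ⟨h1, h2⟩)
  · exact Or.inr (Or.inr ⟨h1.symm, h3.symm⟩)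
  · exact ⟨h1, h2, h3, h4⟩

lemma LA_jun_inl {x b z : V} (h1 : G.Adj x z) (h2 : G.Adj b z) :
    LA G (jun G x b) (Sum.inl z) := by
  unfold jun
  split_ifs
  · exact h1
  · exact Or.inr (Or.inr ⟨h1.symm, h2.symm⟩)

lemma RL_jun_left (x b : V) : RL G (jun G x b) (Sum.inl x) := by
  unfold jun
  split_ifs
  · exact Or.inl rfl
  · exact Or.inr (Or.inl rfl)

lemma RL_jun_right (x b : V) : RL G (jun G x b) (Sum.inl b) := by
  unfold jun
  split_ifs with h
  · exact Or.inr h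
  · exact Or.inr (Or.inr (Or.inl rfl))

lemma va_jun {x b : V} (h : x ≠ b) : Va G (jun G x b) := by
  unfold jun
  split_ifs with h1
  · exact trivial
  · exact ⟨h, h1⟩

lemma not_anti_self {X : Set (Finset V)} (hne : X.Nonempty) (x : V) : ¬ anti X x x := by
  obtain ⟨σ, hσ⟩ := hne
  intro h
  have := h σ hσ
  tauto

lemma not_tie_anti {X : Set (Finset V)} (hne : X.Nonempty) {x y : V} (h1 : tie X x y)
    (h2 : anti X x y) : False := by
  obtain ⟨σ, hσ⟩ := hne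
  have := h1 σ hσ
  have := h2 σ hσ
  tauto

/-- compatibility -/
theorem compat_SS {X X' : Set (Finset V)} (hX : X' ⊆ X) (hne : X'.Nonempty) {x b y c : V}
    (h : LS G X x b) (h' : LS G X' y c) : RL G (jun G x b) (jun G y c) := by
  by_cases hd : ∃ w, w ∈ co G (un X') y ∧ w ∈ co G (un X) x
  · obtain ⟨w, hw, hw'⟩ := hd
    have hU : w ∈ un X' := (mem_co.1 hw).1
    have hsw := h.1.transfer hw'
    have hsw' := h'.1.transfer hw
    rcases hsw.cases hX with h1 | h1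
    · -- two-sided
      have e1 : co G (un X) x = co G (un X') y := by
        rw [← co_eq h.1.1 hw', ← h1.1, co_eq h'.1.1 hw]
      have hx : Spl G X' x := by
        refine hsw'.transfer ?_
        rw [h1.1, co_eq h.1.1 hw']
        exact self_mem_co h.1.1
      have hy : Spl G X y := by
        refine h.1.transfer ?_
        rw [e1]
        exact self_mem_co h'.1.1
      have hxy : x = y := le_antisymm (h.2.1 y hy) (h'.2.1 x hx)
      subst hxy
      have hanti : ∀ z ∈ co G (un X) x, anti X' x z → anti X x z := by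
        intro z hz hz'
        rcases h.1.2.1 z hz with h2 | h2
        · exact absurd hz' fun h3 => not_tie_anti hne (fun σ hσ => h2 σ (hX hσ)) h3
        · exact h2
      have hbc : b = c := by
        refine le_antisymm (h.2.2.2.2 c ?_ (hanti c ?_ h'.2.2.2.1)) (h'.2.2.2.2 b ?_ ?_)
        · rw [e1]; exact h'.2.2.1
        · rw [e1]; exact h'.2.2.1
        · rw [← e1]; exact h.2.2.1
        · exact fun σ hσ => h.2.2.2.1 σ (hX hσ)
      subst hbc
      exact Or.inl rfl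
    · exfalso
      obtain ⟨d, hd, hwd⟩ := hsw'.2.2
      have h2 := h1 w (self_mem_co hsw.1) hU
      obtain ⟨σ, hσ, hdσ⟩ := mem_un.1 (mem_co.1 hd).1
      exact (hwd σ hσ).1 (h2 σ hσ) hdσ
  · push Not at hd
    refine Or.inr ?_
    have hadj : ∀ u ∈ co G (un X) x, ∀ w ∈ co G (un X') y, G.Adj u w := fun u hu w hw =>
      (clo_co (un X) x).2 u hu w (un_mono hX (mem_co.1 hw).1) (hd w hw)
    exact LA_jun_jun (hadj _ (self_mem_co h.1.1) _ (self_mem_co h'.1.1))
      (hadj _ (self_mem_co h.1.1) _ h'.2.2.1) (hadj _ h.2.2.1 _ (self_mem_co h'.1.1))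
      (hadj _ h.2.2.1 _ h'.2.2.1)

theorem compat_SC {X X' : Set (Finset V)} (hX : X' ⊆ X) (hC : Cli G X') (hne : X'.Nonempty)
    {x b z : V} (h : LS G X x b) (h' : LC G X' z) : RL G (jun G x b) (Sum.inl z) := by
  have hzU : z ∈ un X' := (mem_cen.1 h'.2.1).1
  by_cases hz : z ∈ co G (un X) x
  · rcases h.1.cases hX with h1 | h1
    · exact absurd ⟨x, h1.2⟩ h'.1
    · have h2 := h1 z hz hzU
      obtain ⟨σ₀, hσ₀⟩ := hne
      rcases h.1.2.1 z hz with h3 | h3
      · have h4 : ∀ σ ∈ X', x ∈ σ := fun σ hσ => (h3 σ (hX hσ)).2 (h2 σ hσ)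
        have h5 : z ≤ x := h'.2.2 x (mem_cen_of_common hC (mem_un_of_mem hσ₀ (h4 _ hσ₀)) h4)
        have h6 : x = z := le_antisymm (h.2.1 z (h.1.transfer hz)) h5
        subst h6
        exact RL_jun_left x b
      · have h4 : ∀ σ ∈ X', b ∈ σ := by
          intro σ hσ
          have e1 := h3 σ (hX hσ)
          have e2 := h.2.2.2.1 σ (hX hσ)
          have e3 := h2 σ hσ
          tauto
        have h5 : z ≤ b := h'.2.2 b (mem_cen_of_common hC (mem_un_of_mem hσ₀ (h4 _ hσ₀)) h4)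
        have h6 : b = z := le_antisymm (h.2.2.2.2 z hz h3) h5
        subst h6
        exact RL_jun_right x b
  · have hadj : ∀ u ∈ co G (un X) x, G.Adj u z := fun u hu =>
      (clo_co (un X) x).2 u hu z (un_mono hX hzU) hz
    exact Or.inr (LA_jun_inl (hadj _ (self_mem_co h.1.1)) (hadj _ h.2.2.1))

lemma RL_of_central {U : Finset V} {z : V} (hz : z ∈ cen G U) :
    (∀ w ∈ U, RL G (Sum.inl z) (Sum.inl w)) ∧
      ∀ x ∈ U, ∀ b ∈ U, RL G (Sum.inl z) (jun G x b) := by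
  have h1 : ∀ w ∈ U, RL G (Sum.inl z) (Sum.inl w) := by
    intro w hw
    by_cases h : w = z
    · exact Or.inl (by rw [h])
    · exact Or.inr ((mem_cen.1 hz).2 w hw h)
  refine ⟨h1, fun x hx b hb => ?_⟩
  unfold jun
  split_ifs with h2
  · exact h1 x hx
  · refine Or.inr ?_
    by_cases h3 : x = z
    · exact Or.inl h3.symm
    · by_cases h4 : b = z
      · exact Or.inr (Or.inl h4.symm)
      · exact Or.inr (Or.inr ⟨(mem_cen.1 hz).2 x hx h3, (mem_cen.1 hz).2 b hb h4⟩)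

variable (G) in
/-- the label of a family -/
noncomputable def lab [Nonempty V] (X : Set (Finset V)) : V ⊕ V × V :=
  if h : ∃ p : V × V, LS G X p.1 p.2 then jun G h.choose.1 h.choose.2
  else if h : ∃ z, LC G X z then Sum.inl h.choose else Sum.inl (Classical.arbitrary V)

variable [Nonempty V]

lemma lab_LS {X : Set (Finset V)} {x b : V} (h : LS G X x b) : lab G X = jun G x b := by
  have h1 : ∃ p : V × V, LS G X p.1 p.2 := ⟨(x, b), h⟩
  unfold lab
  rw [dif_pos h1]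
  obtain ⟨e1, e2⟩ := h1.choose_spec.unique h
  rw [e1, e2]

lemma lab_LC {X : Set (Finset V)} {z : V} (h : LC G X z) : lab G X = Sum.inl z := by
  have h1 : ¬ ∃ p : V × V, LS G X p.1 p.2 := fun ⟨p, hp⟩ => h.1 ⟨_, hp.1⟩
  have h2 : ∃ z, LC G X z := ⟨z, h⟩
  unfold lab
  rw [dif_neg h1, dif_pos h2, h2.choose_spec.unique h]

theorem lab_compat {X X' : Set (Finset V)} (h : Ali G X) (hX : X' ⊆ X) (hne : X'.Nonempty) :
    RL G (lab G X) (lab G X') := by
  have hX' := h.mono hX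
  rcases exists_L h (hne.mono hX) with ⟨x, b, h1⟩ | ⟨z, h1⟩
  · rcases exists_L hX' hne with ⟨y, c, h2⟩ | ⟨w, h2⟩
    · rw [lab_LS h1, lab_LS h2]
      exact compat_SS hX hne h1 h2
    · rw [lab_LS h1, lab_LC h2]
      exact compat_SC hX hX'.1 hne h1 h2
  · obtain ⟨h3, h4⟩ := RL_of_central h1.2.1
    have hU := un_mono hX
    rcases exists_L hX' hne with ⟨y, c, h2⟩ | ⟨w, h2⟩
    · rw [lab_LC h1, lab_LS h2]
      exact h4 y (hU h2.1.1) c (hU (mem_co.1 h2.2.2.1).1)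
    · rw [lab_LC h1, lab_LC h2]
      exact h3 w (hU (mem_cen.1 h2.2.1).1)

lemma lab_va {X : Set (Finset V)} (h : Ali G X) (hne : X.Nonempty) : Va G (lab G X) := by
  rcases exists_L h hne with ⟨x, b, h1⟩ | ⟨z, h1⟩
  · rw [lab_LS h1]
    refine va_jun ?_
    rintro rfl
    exact not_anti_self hne x h1.2.2.2.1
  · rw [lab_LC h1]
    exact trivial

/-- families of subsets of a clique -/
lemma lab_clique {X : Set (Finset V)} (hU : ∀ a ∈ un X, ∀ b ∈ un X, a ≠ b → G.Adj a b)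
    (hX : ∀ σ ∈ X, σ.Nonempty) (hne : X.Nonempty) :
    Ali G X ∧ ∃ σ, ∃ hσ : σ ∈ X, lab G X = Sum.inl (σ.min' (hX σ hσ)) := by
  have hcen : ∀ x ∈ un X, x ∈ cen G (un X) := fun x hx =>
    mem_cen.2 ⟨hx, fun y hy h => hU x hx y hy h.symm⟩
  have hA : Ali G X := by
    refine ⟨fun σ hσ a ha b hb h => hU a (mem_un_of_mem hσ ha) b (mem_un_of_mem hσ hb) h,
      Or.inr fun σ hσ => ?_⟩
    obtain ⟨z, hz⟩ := hX σ hσ
    exact ⟨z, hz, hcen z (mem_un_of_mem hσ hz)⟩
  refine ⟨hA, ?_⟩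
  have hns : ¬ ∃ x, Spl G X x := by
    rintro ⟨x, hx⟩
    obtain ⟨b, hb, hxb⟩ := hx.2.2
    have h1 : Clo G (un X) {x} := by
      refine ⟨by simpa using hx.1, fun a ha y hy hya => ?_⟩
      rw [Finset.mem_singleton] at ha
      subst ha
      exact hU a hx.1 y hy fun e => hya (by rw [e]; simp)
    have h2 := (mem_co.1 hb).2 _ h1 (Finset.mem_singleton_self x)
    rw [Finset.mem_singleton] at h2
    subst h2
    exact not_anti_self hne _ hxb
  obtain ⟨z, hz⟩ := (exists_L hA hne).resolve_left (fun ⟨x, b, h⟩ => hns ⟨x, h.1⟩)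
  obtain ⟨σ, hσ, hzσ⟩ := mem_un.1 (mem_cen.1 hz.2.1).1
  refine ⟨σ, hσ, ?_⟩
  rw [lab_LC hz]
  congr 1
  refine le_antisymm (hz.2.2 _ (hcen _ (mem_un_of_mem hσ (Finset.min'_mem _ _)))) ?_
  exact Finset.min'_le _ _ hzσ

end Pool.Agent.K4H70.SV
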