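import Pool.Agent.Q134.SV.Rac

/-!
Roots of right-angled Coxeter groups over the integers.
-/

set_option autoImplicit false

open scoped Classical

namespace Pool.Agent.K4H70.SV

open Pool.Agent.W907.SG (W cox)
open Pool.Agent.Q134.SV

set_option linter.unusedSectionVars false

variable {V : Type} [Fintype V] (G : SimpleGraph V)

/-- the entries of the Tits form -/
noncomputable def bb (u v : V) : ℤ := if u = v then 1 else if G.Adj u v then 0 else -1

lemma bb_symm (u v : V) : bb G u v = bb G v u := by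
  unfold bb
  by_cases h : u = v
  · subst h; rfl
  · rw [if_neg h, if_neg (Ne.symm h)]
    simp only [G.adj_comm]

lemma bb_self (u : V) : bb G u u = 1 := by simp [bb]

lemma bb_adj {u v : V} (h : G.Adj u v) : bb G u v = 0 := by simp [bb, h, h.ne]

lemma bb_nonadj {u v : V} (h : ¬ G.Adj u v) (hne : u ≠ v) : bb G u v = -1 := by simp [bb, h, hne]

/-- the basis vectors -/
noncomputable def ee (v : V) : V → ℤ := Pi.single v 1

omit [Fintype V] in
lemma ee_self (v : V) : ee v v = 1 := by simp [ee]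

omit [Fintype V] in
lemma ee_ne {u v : V} (h : u ≠ v) : ee v u = 0 := by simp [ee, h]

omit [Fintype V] in
lemma ee_nonneg (v : V) : 0 ≤ ee v := by
  intro u
  by_cases h : u = v
  · subst h; simp [ee]
  · simp [ee_ne h]

omit [Fintype V] in
lemma ee_inj {u v : V} (h : ee u = ee v) : u = v := by
  by_contra hne
  have := congrFun h u
  rw [ee_self, ee_ne hne] at this
  exact one_ne_zero this

/-- the Tits form -/
noncomputable def BB : (V → ℤ) →ₗ[ℤ] (V → ℤ) →ₗ[ℤ] ℤ :=
  LinearMap.mk₂ ℤ (fun x y => ∑ u, ∑ v, x u * bb G u v * y v)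
    (fun x x' y => by simp [add_mul, Finset.sum_add_distrib])
    (fun c x y => by simp [mul_assoc, Finset.mul_sum])
    (fun x y y' => by simp [mul_add, Finset.sum_add_distrib])
    (fun c x y => by
      simp only [Pi.smul_apply, smul_eq_mul, Finset.mul_sum]
      exact Finset.sum_congr rfl fun u _ => Finset.sum_congr rfl fun v _ => by ring)

lemma BB_apply (x y : V → ℤ) : BB G x y = ∑ u, ∑ v, x u * bb G u v * y v := rfl

lemma BB_symm (x y : V → ℤ) : BB G x y = BB G y x := by
  rw [BB_apply, BB_apply, Finset.sum_comm]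
  refine Finset.sum_congr rfl fun u _ => Finset.sum_congr rfl fun v _ => ?_
  rw [bb_symm G v u]; ring

lemma BB_ee (u v : V) : BB G (ee u) (ee v) = bb G u v := by
  rw [BB_apply, Finset.sum_eq_single u, Finset.sum_eq_single v]
  · simp [ee_self]
  · intro w _ hw; simp [ee_ne hw]
  · intro h; exact absurd (Finset.mem_univ _) h
  · intro w _ hw
    refine Finset.sum_eq_zero fun w' _ => ?_
    simp [ee_ne hw]
  · intro h; exact absurd (Finset.mem_univ _) h

/-- the reflections -/
noncomputable def rf (v : V) : Module.End ℤ (V → ℤ) :=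
  LinearMap.id - (2 : ℤ) • (BB G (ee v)).smulRight (ee v)

lemma rf_apply (v : V) (x : V → ℤ) : rf G v x = x - (2 * BB G (ee v) x) • ee v := by
  simp [rf, mul_smul]

lemma rf_self (v : V) : rf G v (ee v) = - ee v := by
  rw [rf_apply, BB_ee, bb_self]
  simp only [mul_one, two_smul]
  abel

lemma rf_adj {u v : V} (h : G.Adj u v) : rf G u (ee v) = ee v := by
  rw [rf_apply, BB_ee, bb_adj G h]
  simp

lemma rf_rf (v : V) (x : V → ℤ) : rf G v (rf G v x) = x := by
  rw [rf_apply G v (rf G v x), rf_apply G v x]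
  simp only [map_sub, map_smul, smul_eq_mul, BB_ee, bb_self, mul_one]
  rw [sub_sub, ← add_smul]
  have : 2 * BB G (ee v) x + 2 * (BB G (ee v) x - 2 * BB G (ee v) x) = 0 := by ring
  rw [this, zero_smul, sub_zero]

lemma rf_comm {u v : V} (h : G.Adj u v) (x : V → ℤ) : rf G u (rf G v x) = rf G v (rf G u x) := by
  rw [rf_apply G v x, map_sub, map_smul, rf_adj G h, rf_apply G u x, map_sub, map_smul,
    rf_adj G h.symm, rf_apply G v x]
  abel

lemma BB_rf (v : V) (x y : V → ℤ) : BB G (rf G v x) (rf G v y) = BB G x y := by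
  simp only [rf_apply, map_sub, map_smul, LinearMap.sub_apply, LinearMap.smul_apply, smul_eq_mul,
    BB_ee, bb_self, BB_symm G x (ee v)]
  ring

/-- the Tits representation -/
noncomputable def rep : W G →* Module.End ℤ (V → ℤ) :=
  lft G (rf G) (fun v => LinearMap.ext fun x => rf_rf G v x)
    (fun _ _ h => LinearMap.ext fun x => rf_comm G h x)

lemma rep_gen (v : V) : rep G (gen G v) = rf G v := lft_gen _ _ _ _ _

lemma rep_one (x : V → ℤ) : rep G 1 x = x := by rw [map_one]; rfl

lemma rep_mul (w w' : W G) (x : V → ℤ) : rep G (w * w') x = rep G w (rep G w' x) := by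
  rw [map_mul]; rfl

lemma rep_inv_self (w : W G) (x : V → ℤ) : rep G w⁻¹ (rep G w x) = x := by
  rw [← rep_mul, inv_mul_cancel, rep_one]

lemma rep_self_inv (w : W G) (x : V → ℤ) : rep G w (rep G w⁻¹ x) = x := by
  rw [← rep_mul, mul_inv_cancel, rep_one]

lemma rep_inj (w : W G) {x y : V → ℤ} (h : rep G w x = rep G w y) : x = y := by
  rw [← rep_inv_self G w x, h, rep_inv_self]

lemma BB_rep (w : W G) (x y : V → ℤ) : BB G (rep G w x) (rep G w y) = BB G x y := by
  refine gen_induction G (p := fun w => BB G (rep G w x) (rep G w y) = BB G x y) w ?_ ?_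
  · rw [rep_one, rep_one]
  · intro w v hw
    rw [rep_mul, rep_mul, rep_gen, BB_rf, hw]

lemma rep_even (w : W G) (x : V → ℤ) (u : V) : (2 : ℤ) ∣ rep G w x u - x u := by
  refine gen_induction G (p := fun w => (2 : ℤ) ∣ rep G w x u - x u) w ?_ ?_
  · rw [rep_one]; simp
  · intro w v hw
    rw [rep_mul, rep_gen, rf_apply]
    simp only [Pi.sub_apply, Pi.smul_apply, smul_eq_mul]
    obtain ⟨k, hk⟩ := hw
    refine ⟨k - BB G (ee v) (rep G w x) * ee v u, ?_⟩
    linarith

lemma BB_even (w : W G) (x y : V → ℤ) : (2 : ℤ) ∣ BB G x (rep G w y) - BB G x y := by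
  rw [BB_apply, BB_apply, ← Finset.sum_sub_distrib]
  refine Finset.dvd_sum fun u _ => ?_
  rw [← Finset.sum_sub_distrib]
  refine Finset.dvd_sum fun v _ => ?_
  obtain ⟨k, hk⟩ := rep_even G w y v
  refine ⟨x u * bb G u v * k, ?_⟩
  rw [← mul_sub, hk]; ring

lemma rep_ee_type {w : W G} {u v : V} (h : rep G w (ee u) = ee v ∨ rep G w (ee u) = - ee v) :
    u = v := by
  by_contra hne
  obtain ⟨k, hk⟩ := rep_even G w (ee u) u
  rcases h with h | h
  · rw [h, ee_ne hne, ee_self] at hk; omega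
  · rw [h, Pi.neg_apply, ee_ne hne, ee_self] at hk; omega

/-- the Coxeter system -/
noncomputable abbrev cs : CoxeterSystem (cox G) (W G) := (cox G).toCoxeterSystem

lemma simple_eq (v : V) : (cs G).simple v = gen G v := rfl

lemma rep_mul_gen (w : W G) (v : V) : rep G (w * gen G v) (ee v) = - rep G w (ee v) := by
  rw [rep_mul, rep_gen, rf_self, map_neg]

theorem tits (n : ℕ) : ∀ w : W G, (cs G).length w = n →
    (∀ d, ¬ (cs G).IsRightDescent w d → 0 ≤ rep G w (ee d)) ∧
    (∀ t d, t ≠ d → ¬ G.Adj t d → 0 ≤ rep G w (ee t + ee d)) := by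
  induction n using Nat.strong_induction_on with
  | _ n ih =>
  intro w hn
  have h1 : ∀ d, ¬ (cs G).IsRightDescent w d → 0 ≤ rep G w (ee d) := by
    intro d hd
    by_cases hw : w = 1
    · subst hw
      rw [rep_one]; exact ee_nonneg d
    obtain ⟨t, ht⟩ := (cs G).exists_rightDescent_of_ne_one hw
    have hlen : (cs G).length (w * gen G t) + 1 = (cs G).length w := (cs G).isRightDescent_iff.1 ht
    have hnt : ¬ (cs G).IsRightDescent (w * gen G t) t :=
      (cs G).isRightDescent_iff_not_isRightDescent_mul.1 ht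
    have hww : w = (w * gen G t) * gen G t := by rw [mul_assoc, gen_sq, mul_one]
    have IH := ih _ (by omega) (w * gen G t) rfl
    have htd : t ≠ d := by rintro rfl; exact hd ht
    by_cases hadj : G.Adj t d
    · have e1 : rep G w (ee d) = rep G (w * gen G t) (ee d) := by
        rw [rep_mul, rep_gen, rf_adj G hadj]
      rw [e1]
      refine IH.1 d fun hd' => hd ?_
      have h2 : (cs G).length (w * gen G t * gen G d) + 1 = (cs G).length (w * gen G t) :=
        (cs G).isRightDescent_iff.1 hd'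
      have h3 : w * gen G d = (w * gen G t * gen G d) * gen G t := by
        rw [mul_assoc, mul_assoc, ← mul_assoc (gen G t), gen_comm G hadj, mul_assoc, gen_sq,
          mul_one]
      have h4 : (cs G).length (w * gen G d) ≤ (cs G).length (w * gen G t * gen G d) + 1 := by
        rw [h3]
        have := (cs G).length_mul_le (w * gen G t * gen G d) (gen G t)
        rw [show (cs G).length (gen G t) = 1 from (cs G).length_simple t] at this
        exact this
      change (cs G).length (w * gen G d) < (cs G).length w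
      omega
    · have e1 : rep G w (ee d) = rep G (w * gen G t) (ee t + ee d) + rep G (w * gen G t) (ee t) := by
        rw [map_add, rep_mul_gen, rep_mul, rep_gen, rf_apply, BB_ee, bb_nonadj G hadj htd, map_sub,
          map_smul]
        simp only [mul_neg, mul_one, neg_smul, two_smul]
        abel
      rw [e1]
      exact add_nonneg (IH.2 t d htd hadj) (IH.1 t hnt)
  refine ⟨h1, fun t d htd hadj => ?_⟩
  have key : ∀ t d, t ≠ d → ¬ G.Adj t d → (cs G).IsRightDescent w t →
      0 ≤ rep G w (ee t + ee d) := by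
    intro t d htd hadj ht
    have hlen : (cs G).length (w * gen G t) + 1 = (cs G).length w := (cs G).isRightDescent_iff.1 ht
    have IH := ih _ (by omega) (w * gen G t) rfl
    have e0 : rf G t (ee t + ee d) = ee t + ee d := by
      rw [map_add, rf_self, rf_apply, BB_ee, bb_nonadj G hadj htd]
      simp only [mul_neg, mul_one, neg_smul, two_smul]
      abel
    have e1 : rep G w (ee t + ee d) = rep G (w * gen G t) (ee t + ee d) := by
      rw [rep_mul, rep_gen, e0]
    rw [e1]
    exact IH.2 t d htd hadj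
  by_cases ht : (cs G).IsRightDescent w t
  · exact key t d htd hadj ht
  · by_cases hd : (cs G).IsRightDescent w d
    · rw [add_comm]
      exact key d t htd.symm (fun h => hadj h.symm) hd
    · rw [map_add]
      exact add_nonneg (h1 t ht) (h1 d hd)

lemma sum_nonneg (w : W G) {t d : V} (htd : t ≠ d) (hadj : ¬ G.Adj t d) :
    0 ≤ rep G w (ee t) + rep G w (ee d) := by
  rw [← map_add]
  exact (tits G _ w rfl).2 t d htd hadj

lemma nonpos_of_desc {w : W G} {d : V} (h : (cs G).IsRightDescent w d) : rep G w (ee d) ≤ 0 := by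
  have hnt : ¬ (cs G).IsRightDescent (w * gen G d) d :=
    (cs G).isRightDescent_iff_not_isRightDescent_mul.1 h
  have h1 := (tits G _ (w * gen G d) rfl).1 d hnt
  rw [rep_mul_gen] at h1
  exact neg_nonneg.1 h1

lemma sign (w : W G) (d : V) : 0 ≤ rep G w (ee d) ∨ rep G w (ee d) ≤ 0 := by
  by_cases h : (cs G).IsRightDescent w d
  · exact Or.inr (nonpos_of_desc G h)
  · exact Or.inl ((tits G _ w rfl).1 d h)

lemma root_ne_zero (w : W G) (d : V) : rep G w (ee d) ≠ 0 := by
  intro h
  have h1 : ee d = 0 := rep_inj G w (h.trans (map_zero _).symm)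
  have := congrFun h1 d
  rw [ee_self] at this
  exact one_ne_zero this

lemma not_both {w : W G} {d : V} (h1 : 0 ≤ rep G w (ee d)) (h2 : rep G w (ee d) ≤ 0) : False :=
  root_ne_zero G w d (le_antisymm h2 h1)

/-- roots -/
def IsRoot (α : V → ℤ) : Prop := ∃ (w : W G) (d : V), α = rep G w (ee d)

variable {G}

lemma IsRoot.rep {α : V → ℤ} (h : IsRoot G α) (w : W G) : IsRoot G (rep G w α) := by
  obtain ⟨w', d, rfl⟩ := h
  exact ⟨w * w', d, (rep_mul G _ _ _).symm⟩

lemma IsRoot.rf {α : V → ℤ} (h : IsRoot G α) (v : V) : IsRoot G (rf G v α) := by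
  rw [← rep_gen]; exact h.rep _

lemma IsRoot.neg {α : V → ℤ} (h : IsRoot G α) : IsRoot G (-α) := by
  obtain ⟨w', d, rfl⟩ := h
  exact ⟨w' * gen G d, d, (rep_mul_gen G _ _).symm⟩

variable (G) in
lemma isRoot_ee (d : V) : IsRoot G (ee d) := ⟨1, d, (rep_one G _).symm⟩

lemma IsRoot.sign {α : V → ℤ} (h : IsRoot G α) : 0 ≤ α ∨ α ≤ 0 := by
  obtain ⟨w', d, rfl⟩ := h
  exact Pool.Agent.K4H70.SV.sign G _ _

lemma IsRoot.ne_zero {α : V → ℤ} (h : IsRoot G α) : α ≠ 0 := by
  obtain ⟨w', d, rfl⟩ := h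
  exact root_ne_zero G _ _

lemma IsRoot.norm {α : V → ℤ} (h : IsRoot G α) : BB G α α = 1 := by
  obtain ⟨w', d, rfl⟩ := h
  rw [BB_rep, BB_ee, bb_self]

lemma IsRoot.rf_nonneg {α : V → ℤ} (h : IsRoot G α) (h0 : 0 ≤ α) {r : V} (hr : α ≠ ee r) :
    0 ≤ Pool.Agent.K4H70.SV.rf G r α := by
  obtain ⟨u, hu, hpos⟩ : ∃ u, u ≠ r ∧ 0 < α u := by
    by_contra hc
    push Not at hc
    have h1 : α = (α r) • ee r := by
      funext u
      by_cases hu : u = r
      · subst hu; simp [ee_self]
      · simp only [Pi.smul_apply, ee_ne hu, smul_zero]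
        exact le_antisymm (hc u hu) (h0 u)
    have h2 := h.norm
    rw [h1] at h2
    simp only [map_smul, LinearMap.smul_apply, smul_eq_mul, BB_ee, bb_self, mul_one] at h2
    have h3 : 0 ≤ α r := h0 r
    have h4 : α r = 1 := by nlinarith
    apply hr
    rw [h1, h4, one_smul]
  rcases (h.rf r).sign with h1 | h1
  · exact h1
  · exfalso
    have h2 := h1 u
    rw [rf_apply] at h2
    simp only [Pi.sub_apply, Pi.smul_apply, ee_ne hu, smul_zero, sub_zero, Pi.zero_apply] at h2
    omega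

theorem pos_sum (n : ℕ) : ∀ w : W G, (cs G).length w = n → ∀ α β : V → ℤ, IsRoot G α →
    IsRoot G β → 0 ≤ α → 0 ≤ β → BB G α β ≤ -1 → 0 ≤ rep G w (α + β) := by
  induction n using Nat.strong_induction_on with
  | _ n ih =>
  intro w hn α β hα hβ h0 h1 hB
  by_cases hw : w = 1
  · subst hw
    rw [rep_one]; exact add_nonneg h0 h1
  obtain ⟨t, ht⟩ := (cs G).exists_rightDescent_of_ne_one hw
  have hlen : (cs G).length (w * gen G t) + 1 = (cs G).length w := (cs G).isRightDescent_iff.1 ht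
  have hnt : ¬ (cs G).IsRightDescent (w * gen G t) t :=
    (cs G).isRightDescent_iff_not_isRightDescent_mul.1 ht
  have hww : w = (w * gen G t) * gen G t := by rw [mul_assoc, gen_sq, mul_one]
  have h3 : 0 ≤ rep G (w * gen G t) (ee t) := (tits G _ _ rfl).1 t hnt
  have key : ∀ α β : V → ℤ, IsRoot G α → IsRoot G β → 0 ≤ α → 0 ≤ β → BB G α β ≤ -1 →
      α = ee t → 0 ≤ rep G w (α + β) := by
    intro α β hα hβ h0 h1 hB hαt
    have IH := ih _ (by omega) (w * gen G t) rfl α β hα hβ h0 h1 hB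
    have e1 : rep G w (α + β) = rep G (w * gen G t) (α + β) +
        (-2 * BB G (ee t) (α + β)) • rep G (w * gen G t) (ee t) := by
      have : rep G w (α + β) = rep G (w * gen G t) (rf G t (α + β)) := by
        rw [← rep_gen, ← rep_mul, ← hww]
      rw [this, rf_apply, map_sub, map_smul, neg_mul, neg_smul, sub_eq_add_neg]
    rw [e1]
    refine add_nonneg IH (smul_nonneg ?_ h3)
    rw [map_add]
    have h5 : BB G (ee t) α = 1 := by rw [hαt, BB_ee, bb_self]
    have h6 : BB G (ee t) β ≤ -1 := by rw [← hαt]; exact hB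
    linarith
  by_cases h4 : α = ee t
  · exact key α β hα hβ h0 h1 hB h4
  by_cases h5 : β = ee t
  · rw [add_comm]
    exact key β α hβ hα h1 h0 (by rw [BB_symm]; exact hB) h5
  rw [hww, rep_mul, rep_gen, map_add]
  exact ih _ (by omega) (w * gen G t) rfl _ _ (hα.rf t) (hβ.rf t) (hα.rf_nonneg h0 h4)
    (hβ.rf_nonneg h1 h5) (by rw [BB_rf]; exact hB)

lemma no_cross_aux {α β : V → ℤ} (hα : IsRoot G α) (hβ : IsRoot G β) (hB : BB G α β ≤ -1)
    {p q : W G} (hp1 : 0 ≤ rep G p α) (hp2 : 0 ≤ rep G p β) (hq1 : rep G q α ≤ 0)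
    (hq2 : rep G q β ≤ 0) : False := by
  have h1 := pos_sum _ (q * p⁻¹) rfl (rep G p α) (rep G p β) (hα.rep p) (hβ.rep p) hp1 hp2
    (by rw [BB_rep]; exact hB)
  rw [map_add, rep_mul, rep_inv_self, rep_mul, rep_inv_self] at h1
  have h2 : rep G q α = 0 := by
    refine le_antisymm hq1 ?_
    have : 0 ≤ rep G q α + 0 := h1.trans (add_le_add le_rfl hq2)
    simpa using this
  exact (hα.rep q).ne_zero h2

/-- the walls of two roots with odd product do not cross -/
theorem no_cross {α β : V → ℤ} (hα : IsRoot G α) (hβ : IsRoot G β) (hB : ¬ (2 : ℤ) ∣ BB G α β)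
    {p q r s : W G} (hp1 : 0 ≤ rep G p α) (hp2 : 0 ≤ rep G p β) (hq1 : rep G q α ≤ 0)
    (hq2 : rep G q β ≤ 0) (hr1 : 0 ≤ rep G r α) (hr2 : rep G r β ≤ 0) (hs1 : rep G s α ≤ 0)
    (hs2 : 0 ≤ rep G s β) : False := by
  have : BB G α β ≤ -1 ∨ 1 ≤ BB G α β := by
    by_contra hc
    push Not at hc
    apply hB
    have : BB G α β = 0 := by omega
    rw [this]; exact dvd_zero 2
  rcases this with h | h
  · exact no_cross_aux hα hβ h hp1 hp2 hq1 hq2
  · refine no_cross_aux hα.neg hβ (p := s) (q := r) ?_ ?_ hs2 ?_ hr2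
    · rw [map_neg, LinearMap.neg_apply]; linarith
    · rw [map_neg]; exact neg_nonneg.2 hs1
    · rw [map_neg]; exact neg_nonpos.2 hr1

/-! ### Descents -/

variable (G) in
/-- the left descents of `h` -/
noncomputable def D (h : W G) : Finset V := Finset.univ.filter fun d => rep G h⁻¹ (ee d) ≤ 0

lemma mem_D {h : W G} {d : V} : d ∈ D G h ↔ rep G h⁻¹ (ee d) ≤ 0 := by simp [D]

lemma not_mem_D {h : W G} {d : V} : d ∉ D G h ↔ 0 ≤ rep G h⁻¹ (ee d) := by
  rw [mem_D]
  constructor
  · intro h1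
    rcases sign G h⁻¹ d with h2 | h2
    · exact h2
    · exact absurd h2 h1
  · intro h1 h2
    exact not_both G h1 h2

lemma D_one : D G 1 = ∅ := by
  ext d
  simp only [Finset.notMem_empty, iff_false]
  rw [not_mem_D, inv_one, rep_one]
  exact ee_nonneg d

lemma D_nonempty {h : W G} (hh : h ≠ 1) : (D G h).Nonempty := by
  obtain ⟨i, hi⟩ := (cs G).exists_leftDescent_of_ne_one hh
  refine ⟨i, mem_D.2 (nonpos_of_desc G ?_)⟩
  rw [(cs G).isRightDescent_inv_iff]
  exact hi

lemma D_clique {h : W G} {d e : V} (hd : d ∈ D G h) (he : e ∈ D G h) (hne : d ≠ e) :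
    G.Adj d e := by
  by_contra hadj
  have h1 := sum_nonneg G h⁻¹ hne hadj
  have h2 : rep G h⁻¹ (ee d) = 0 := by
    refine le_antisymm (mem_D.1 hd) ?_
    have : 0 ≤ rep G h⁻¹ (ee d) + 0 := h1.trans (add_le_add le_rfl (mem_D.1 he))
    simpa using this
  exact root_ne_zero G _ _ h2

lemma odd_ee {g : W G} {f b : V} (h : f = b ∨ ¬ G.Adj f b) :
    ¬ (2 : ℤ) ∣ BB G (ee f) (rep G g (ee b)) := by
  intro h1
  have h2 := BB_even G g (ee f) (ee b)
  rw [BB_ee] at h2
  have h3 : (2 : ℤ) ∣ bb G f b := by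
    have := dvd_sub h1 h2
    simpa using this
  by_cases hfb : f = b
  · subst hfb
    rw [bb_self] at h3
    omega
  · rcases h with h | h
    · exact hfb h
    · rw [bb_nonadj G h hfb] at h3
      omega

/-- a neutral descent is fixed -/
theorem neutral_fixed {g h h' : W G} (hg : h = g * h') {d : V} (h1 : d ∉ D G g)
    (h2 : d ∉ D G g⁻¹) (h3 : d ∈ D G h) (h4 : d ∈ D G h') : rep G g (ee d) = ee d := by
  by_contra hne
  have h5 : 0 ≤ rep G g (ee d) := by
    have := not_mem_D.1 h2
    rwa [inv_inv] at this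
  refine no_cross (isRoot_ee G d) ((isRoot_ee G d).rep g) (odd_ee (Or.inl rfl)) (p := 1)
    (q := h⁻¹) (r := gen G d * g⁻¹) (s := gen G d) ?_ ?_ (mem_D.1 h3) ?_ ?_ ?_ ?_ ?_
  · rw [rep_one]; exact ee_nonneg d
  · rw [rep_one]; exact h5
  · rw [← rep_mul, hg, mul_inv_rev, mul_assoc, inv_mul_cancel, mul_one]
    exact mem_D.1 h4
  · rw [rep_mul, rep_gen]
    refine ((isRoot_ee G d).rep g⁻¹).rf_nonneg (not_mem_D.1 h1) ?_
    intro h6
    apply hne
    have h7 := rep_self_inv G g (ee d)
    rwa [h6] at h7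
  · rw [rep_mul, rep_inv_self, rep_gen, rf_self]
    exact neg_nonpos.2 (ee_nonneg d)
  · rw [rep_gen, rf_self]
    exact neg_nonpos.2 (ee_nonneg d)
  · rw [rep_gen]
    exact ((isRoot_ee G d).rep g).rf_nonneg h5 hne

lemma adj_of_fixed {g : W G} {d r : V} (h : rep G g (ee d) = ee d) (hr : r ∈ D G g⁻¹) :
    G.Adj r d := by
  rw [mem_D, inv_inv] at hr
  by_contra hadj
  have hne : r ≠ d := by
    rintro rfl
    rw [h] at hr
    exact not_both G (w := 1) (by rw [rep_one]; exact ee_nonneg r) (by rw [rep_one]; exact hr)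
  have h1 := sum_nonneg G g hne hadj
  rw [h] at h1
  have h2 : rep G g (ee r) = - ee d := by
    funext u
    have h3 := hr u
    have h4 := h1 u
    by_cases hu : u = d
    · subst hu
      simp only [Pi.zero_apply, Pi.add_apply, ee_self, Pi.neg_apply] at h3 h4 ⊢
      have h5 := rep_even G g (ee r) u
      have h6 : rep G g (ee r) u ≠ 0 := by
        intro h0
        apply root_ne_zero G g r
        funext v
        by_cases hv : v = u
        · subst hv; exact h0
        · have h7 := hr v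
          have h8 := h1 v
          simp only [Pi.zero_apply, Pi.add_apply, ee_ne hv] at h7 h8 ⊢
          omega
      omega
    · simp only [Pi.zero_apply, Pi.add_apply, ee_ne hu, Pi.neg_apply] at h3 h4 ⊢
      omega
  exact hne (rep_ee_type G (Or.inr h2))

/-- (i) neutral descents are adjacent to the descents of `g` and of its inverse -/
theorem neutral_adj {g h h' : W G} (hg : h = g * h') {d r : V} (h1 : d ∉ D G g)
    (h2 : d ∉ D G g⁻¹) (h3 : d ∈ D G h) (h4 : d ∈ D G h') (hr : r ∈ D G g ∨ r ∈ D G g⁻¹) :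
    G.Adj r d := by
  have h5 := neutral_fixed hg h1 h2 h3 h4
  rcases hr with hr | hr
  · refine adj_of_fixed (g := g⁻¹) ?_ (by rwa [inv_inv])
    nth_rewrite 1 [← h5]
    exact rep_inv_self G g _
  · exact adj_of_fixed h5 hr

/-- (iv) -/
theorem not_two_sided {g h h' k k' : W G} (hg : h = g * h') (hk : k = g * k') {d : V}
    (h1 : d ∈ D G g) (h2 : d ∈ D G g⁻¹) (h3 : d ∈ D G h) (h4 : d ∈ D G h') (h5 : d ∉ D G k)
    (h6 : d ∉ D G k') : False := by
  have e1 : ∀ k k' : W G, k = g * k' → rep G k⁻¹ (rep G g (ee d)) = rep G k'⁻¹ (ee d) := by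
    intro k k' hk
    rw [← rep_mul, hk, mul_inv_rev, mul_assoc, inv_mul_cancel, mul_one]
  refine no_cross (isRoot_ee G d) ((isRoot_ee G d).rep g) (odd_ee (Or.inl rfl)) (p := k⁻¹)
    (q := h⁻¹) (r := 1) (s := g⁻¹) (not_mem_D.1 h5) ?_ (mem_D.1 h3) ?_ ?_ ?_ (mem_D.1 h1) ?_
  · rw [e1 k k' hk]; exact not_mem_D.1 h6
  · rw [e1 h h' hg]; exact mem_D.1 h4
  · rw [rep_one]; exact ee_nonneg d
  · rw [rep_one]
    have := mem_D.1 h2
    rwa [inv_inv] at this
  · rw [rep_inv_self]; exact ee_nonneg d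

/-- (iii) -/
theorem exactly_one {g h h' : W G} (hg : h = g * h') {f b : V} (hf : f ∈ D G g)
    (hb : b ∈ D G g⁻¹) (hne : f ≠ b) (hadj : ¬ G.Adj f b) (h1 : f ∉ D G h) (h2 : b ∉ D G h') :
    False := by
  have hb' : rep G g (ee b) ≤ 0 := by
    have := mem_D.1 hb
    rwa [inv_inv] at this
  refine no_cross (isRoot_ee G f) ((isRoot_ee G b).rep g) (odd_ee (Or.inr hadj)) (p := h⁻¹)
    (q := gen G f) (r := 1) (s := g⁻¹) (not_mem_D.1 h1) ?_ ?_ ?_ ?_ ?_ (mem_D.1 hf) ?_
  · rw [← rep_mul, hg, mul_inv_rev, mul_assoc, inv_mul_cancel, mul_one]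
    exact not_mem_D.1 h2
  · rw [rep_gen, rf_self]; exact neg_nonpos.2 (ee_nonneg f)
  · rw [rep_gen]
    have h3 : 0 ≤ rf G f (-(rep G g (ee b))) := by
      refine ((isRoot_ee G b).rep g).neg.rf_nonneg (neg_nonneg.2 hb') ?_
      intro h4
      refine hne (rep_ee_type G (w := g) (u := b) (v := f) (Or.inr ?_)).symm
      rw [← h4, neg_neg]
    rw [map_neg] at h3
    exact neg_nonneg.1 h3
  · rw [rep_one]; exact ee_nonneg f
  · rw [rep_one]; exact hb'
  · rw [rep_inv_self]; exact ee_nonneg b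

end Pool.Agent.K4H70.SV
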